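import Pool.Agent.H.MP_0cad2f_co.qp.Defs

/-!
Two feasible bases which share `d - 1` constraints are equal or adjacent.
-/

set_option autoImplicit false

namespace Pool.Agent.H.MP_0cad2f_co.qp

open MeasureTheory ProbabilityTheory Matrix Finset
open scoped NNReal ENNReal
open Pool.Agent.H.MP_0cad2f_co.helper47 (Vert graph gau noise n2 Idx mat nu vtx Good Simple)
open Pool.Agent.H.MP_0cad2f_co.helper29 (toVert)

variable {n d : ℕ}

theorem edist_le_one {a : Fin n → Fin d → ℝ} (hs : Simple a) {B B' : Idx n d} (hB : Good a B)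
    (hB' : Good a B') {k : Fin d} (h : (idx B).erase (B k) ⊆ idx B') :
    (graph a).edist (toVert a ⟨B, hB⟩) (toVert a ⟨B', hB'⟩) ≤ 1 := by
  classical
  have hmem : ∀ (C : Idx n d) (i : Fin n), i ∈ idx C ↔ i ∈ Set.range C := by
    intro C i
    simp [idx]
  rw [SimpleGraph.edist_le_one_iff_adj_or_eq]
  by_cases hBB : B = B'
  · right
    subst hBB
    rfl
  left
  have hl : ∀ l : Fin d, l ≠ k → B l ∈ Set.range B' := by
    intro l hl
    rw [← hmem]
    apply h
    rw [Finset.mem_erase, hmem]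
    exact ⟨fun hc => hl (B.injective hc), l, rfl⟩
  have hk : B k ∉ Set.range B' := by
    intro hk
    have hall : ∀ l, a (B l) ⬝ᵥ vtx a B' = 1 := by
      intro l
      have hr : B l ∈ Set.range B' := by
        by_cases hlk : l = k
        · rw [hlk]
          exact hk
        · exact hl l hlk
      obtain ⟨m, hm⟩ := hr
      rw [← hm]
      exact helper47.dot_vtx hB'.1 m
    exact hBB (helper29.vtx_inj hs hB hB' (helper47.eq_vtx hB.1 hall).symm)
  have htight : ∀ {C : Idx n d}, Good a C → ∀ i, ∑ j, a i j * vtx a C j = 1 ↔ i ∈ Set.range C := by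
    intro C hC i
    constructor
    · intro hi
      by_contra hcon
      exact hs C hC i hcon hi
    · rintro ⟨m, rfl⟩
      exact helper47.dot_vtx hC.1 m
  have hset : {i | ∑ j, a i j * (toVert a ⟨B, hB⟩).1 j = 1 ∧
      ∑ j, a i j * (toVert a ⟨B', hB'⟩).1 j = 1} =
      Set.range (fun l : {l : Fin d // l ≠ k} => B l.1) := by
    ext i
    constructor
    · rintro ⟨h1, h2⟩
      obtain ⟨m, rfl⟩ := (htight hB i).1 h1
      have h3 := (htight hB' (B m)).1 h2
      refine ⟨⟨m, ?_⟩, rfl⟩
      rintro rfl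
      exact hk h3
    · rintro ⟨l, rfl⟩
      exact ⟨(htight hB _).2 ⟨l.1, rfl⟩, (htight hB' _).2 (hl l.1 l.2)⟩
  have hne : toVert a ⟨B, hB⟩ ≠ toVert a ⟨B', hB'⟩ := by
    intro hv
    exact hBB (helper29.vtx_inj hs hB hB' (congrArg Subtype.val hv))
  rw [SimpleGraph.fromRel_adj]
  refine ⟨hne, Or.inl ?_⟩
  rw [hset, ← Set.range_comp]
  have hli : LinearIndependent ℝ (a ∘ fun l : {l : Fin d // l ≠ k} => B l.1) :=
    (helper47.det_ne_zero_iff.1 hB.1).comp _ Subtype.val_injective
  rw [finrank_span_eq_card hli, Fintype.card_subtype_compl, Fintype.card_fin]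
  simp

end Pool.Agent.H.MP_0cad2f_co.qp
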