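import Pool.Agent.H.MP_0cad2f_co.qp.Defs
import Pool.Agent.H.MP_0cad2f_co.helper11.Gauss
import Pool.Agent.H.MP_0cad2f_co.helper94.Span

/-!
The law of the constraints: norms, dual vectors and slacks.
-/

set_option autoImplicit false

namespace Pool.Agent.H.MP_0cad2f_co.qp

open MeasureTheory ProbabilityTheory Matrix Finset
open scoped NNReal ENNReal
open Pool.Agent.H.MP_0cad2f_co.helper47 (Vert graph gau noise n2 Idx mat nu vtx Good Simple n2_sq
  n2_nonneg n2_smul n2_add_le n2_sub_le abs_dot_le dot_vtx)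

variable {n d : ℕ}

/-- A shifted interval. -/
theorem gauss_interval' (m b : ℝ) {σ : ℝ} (hσ : 0 < σ) (δ : ℝ) :
    gaussianReal m (Real.toNNReal (σ ^ 2)) {y | |b - y| ≤ δ} ≤ ENNReal.ofReal (δ / σ) := by
  have hm : MeasurableSet {x : ℝ | |x| ≤ δ} := measurableSet_le (by fun_prop) measurable_const
  have h1 : {y : ℝ | |b - y| ≤ δ} = (fun y => y - b) ⁻¹' {x | |x| ≤ δ} := by
    ext y
    rw [Set.mem_ofPred_eq, Set.mem_preimage, Set.mem_ofPred_eq, abs_sub_comm]
  rw [h1, ← Measure.map_apply (by fun_prop) hm, gaussianReal_map_sub_const]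
  exact helper94.gauss_interval _ hσ δ

/-- One linear functional is rarely close to a given value. -/
theorem lin_small (c u : Fin d → ℝ) {σ : ℝ} (hσ : 0 < σ) (hu : u ≠ 0) (b : ℝ) {τ : ℝ}
    (hτ : 0 ≤ τ) :
    gau c σ {x | |b - x ⬝ᵥ u| ≤ τ} ≤ ENNReal.ofReal (τ / (σ * n2 u)) := by
  have hn : 0 < n2 u := by
    rcases (n2_nonneg u).lt_or_eq with h | h
    · exact h
    · exfalso
      apply hu
      have h2 := n2_sq u
      rw [← h] at h2
      have h3 : u ⬝ᵥ u = 0 := by rw [← h2]; norm_num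
      exact dotProduct_self_eq_zero.mp h3
  set w : Fin d → ℝ := (n2 u)⁻¹ • u with hw
  have hw1 : n2 w = 1 := by
    rw [hw, n2_smul, abs_of_pos (inv_pos.mpr hn), inv_mul_cancel₀ hn.ne']
  have hmeas : Measurable (fun x : Fin d → ℝ => ∑ j, x j * w j) := by fun_prop
  have h1 : {x : Fin d → ℝ | |b - x ⬝ᵥ u| ≤ τ} =
      (fun x : Fin d → ℝ => ∑ j, x j * w j) ⁻¹' {y | |b / n2 u - y| ≤ τ / n2 u} := by
    ext x
    rw [Set.mem_ofPred_eq, Set.mem_preimage, Set.mem_ofPred_eq]
    have h2 : ∑ j, x j * w j = (x ⬝ᵥ u) / n2 u := by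
      rw [dotProduct, Finset.sum_div]
      refine Finset.sum_congr rfl fun j _ => ?_
      rw [hw, Pi.smul_apply, smul_eq_mul]
      ring
    rw [h2, ← sub_div, abs_div, abs_of_pos hn, div_le_div_iff_of_pos_right hn]
  have hm : MeasurableSet {y : ℝ | |b / n2 u - y| ≤ τ / n2 u} :=
    measurableSet_le (by fun_prop) measurable_const
  rw [h1, gau, ← Measure.map_apply hmeas hm, helper11.law]
  have h2 : helper11.nsq w = 1 := by
    have h3 : (helper11.nsq w : ℝ) = 1 := by
      rw [helper11.nsq_coe]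
      have h4 := n2_sq w
      rw [hw1, dotProduct] at h4
      rw [← one_pow 2, h4]
      exact sum_congr rfl fun j _ => by ring
    exact_mod_cast h3
  rw [h2, mul_one]
  refine (gauss_interval' _ _ hσ _).trans (le_of_eq ?_)
  congr 1
  field_simp

/-- The law of one constraint. -/
theorem noise_eval (c : Fin n → Fin d → ℝ) (σ : ℝ) (i : Fin n) {S : Set (Fin d → ℝ)}
    (hS : MeasurableSet S) : noise c σ {a | a i ∈ S} = gau (c i) σ S := by
  have h := (measurePreserving_eval (fun i : Fin n => gau (c i) σ) i).measure_preimage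
    hS.nullMeasurableSet
  exact h

theorem prob_norm (c : Fin n → Fin d → ℝ) {σ : ℝ} (hσ : 0 < σ) (hn : 2 ≤ n) (hd : 1 ≤ d)
    (hσ1 : σ ≤ 1 / (6 * Real.sqrt (d * Real.log n))) (hc : ∀ i, n2 (c i) ≤ 1) :
    noise c σ {a | ∃ i, 2 < n2 (a i)} ≤ ENNReal.ofReal (1 / (8 * (n : ℝ) ^ (2 * d))) := by
  have hn1 : (2 : ℝ) ≤ n := by exact_mod_cast hn
  have hd1 : (1 : ℝ) ≤ d := by exact_mod_cast hd
  have hlog : 0 < Real.log n := Real.log_pos (by linarith)
  have h0 : (0 : ℝ) < d * Real.log n := by positivity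
  have hs := Real.sqrt_pos.mpr h0
  -- sigma squared
  have h1 : 36 * (d * Real.log n) * σ ^ 2 ≤ 1 := by
    rw [le_div_iff₀ (by positivity)] at hσ1
    have h2 : (σ * (6 * Real.sqrt (d * Real.log n))) ^ 2 ≤ 1 ^ 2 :=
      pow_le_pow_left₀ (by positivity) hσ1 2
    rw [mul_pow, mul_pow, Real.sq_sqrt h0.le] at h2
    linarith
  have h2 : Real.exp (-(1 ^ 2 / (4 * σ ^ 2))) ≤ 1 / (n : ℝ) ^ (9 * d) := by
    have h3 : (9 * d : ℝ) * Real.log n ≤ 1 ^ 2 / (4 * σ ^ 2) := by
      rw [le_div_iff₀ (by positivity)]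
      linarith
    have h4 : (1 : ℝ) / (n : ℝ) ^ (9 * d) = Real.exp (-((9 * d : ℝ) * Real.log n)) := by
      rw [Real.exp_neg, one_div]
      congr 1
      rw [← Real.exp_log (show (0 : ℝ) < n by linarith), ← Real.exp_nat_mul, Real.log_exp]
      push_cast
      ring_nf
    rw [h4]
    apply Real.exp_le_exp.mpr
    linarith
  have h5 : ∀ i : Fin n, noise c σ {a | 2 < n2 (a i)} ≤
      ENNReal.ofReal (Real.sqrt 2 ^ d * (1 / (n : ℝ) ^ (9 * d))) := by
    intro i
    have hm : MeasurableSet {x : Fin d → ℝ | 2 < n2 x} :=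
      measurableSet_lt measurable_const helper94.measurable_n2
    have h6 : noise c σ {a | 2 < n2 (a i)} = gau (c i) σ {x | 2 < n2 x} :=
      noise_eval c σ i hm
    rw [h6]
    have h7 : {x : Fin d → ℝ | 2 < n2 x} ⊆ {x | 1 < n2 (x - c i)} := by
      intro x hx
      have h8 : n2 x ≤ n2 (x - c i) + n2 (c i) := by
        have := n2_add_le (x - c i) (c i)
        rwa [sub_add_cancel] at this
      have h9 : 2 < n2 x := hx
      change 1 < n2 (x - c i)
      linarith [hc i]
    refine (measure_mono h7).trans ((helper11.TD.gau_tail (c i) hσ zero_le_one).trans ?_)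
    exact ENNReal.ofReal_le_ofReal (mul_le_mul_of_nonneg_left h2 (by positivity))
  have h6 : {a : Fin n → Fin d → ℝ | ∃ i, 2 < n2 (a i)} = ⋃ i, {a | 2 < n2 (a i)} := by
    ext a
    simp
  rw [h6]
  refine (measure_iUnion_fintype_le _ _).trans ((Finset.sum_le_sum fun i _ => h5 i).trans ?_)
  rw [Finset.sum_const, Finset.card_univ, Fintype.card_fin, nsmul_eq_mul,
    ← ENNReal.ofReal_natCast, ← ENNReal.ofReal_mul (by positivity)]
  apply ENNReal.ofReal_le_ofReal
  have hs2 : Real.sqrt 2 ≤ n := by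
    have h7 : Real.sqrt 2 ≤ Real.sqrt (2 ^ 2) := Real.sqrt_le_sqrt (by norm_num)
    rw [Real.sqrt_sq (by norm_num)] at h7
    linarith
  have h7 : Real.sqrt 2 ^ d ≤ (n : ℝ) ^ d := pow_le_pow_left₀ (Real.sqrt_nonneg _) hs2 d
  have h8 : (8 : ℝ) ≤ (n : ℝ) ^ 3 := by
    have := pow_le_pow_left₀ (by norm_num : (0 : ℝ) ≤ 2) hn1 3
    linarith
  rw [show (n : ℝ) * (Real.sqrt 2 ^ d * (1 / (n : ℝ) ^ (9 * d))) =
    (n * Real.sqrt 2 ^ d) / (n : ℝ) ^ (9 * d) by ring, div_le_div_iff₀ (by positivity)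
      (by positivity), one_mul]
  calc (n : ℝ) * Real.sqrt 2 ^ d * (8 * (n : ℝ) ^ (2 * d))
      ≤ n * (n : ℝ) ^ d * ((n : ℝ) ^ 3 * (n : ℝ) ^ (2 * d)) := by gcongr
    _ = (n : ℝ) ^ (1 + d + (3 + 2 * d)) := by rw [pow_add, pow_add, pow_add, pow_one]
    _ ≤ (n : ℝ) ^ (9 * d) := pow_le_pow_right₀ (by linarith) (by omega)

theorem prob_nu (c : Fin n → Fin d → ℝ) {σ e : ℝ} (hσ : 0 < σ) (he : 0 < e) (B : Idx n d)
    (k : Fin d) :
    noise c σ {a | (mat a B).det ≠ 0 ∧ 1 / e < n2 (nu a B k)} ≤ ENNReal.ofReal (e / σ) := by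
  have h := helper94.noise_long c hσ (show 0 < 1 / e by positivity) B k MeasurableSet.univ
    (fun a x => Iff.rfl)
  rw [Set.univ_inter, measure_univ, mul_one] at h
  refine le_trans h (le_of_eq ?_)
  congr 1
  field_simp

theorem prob_sl (c : Fin n → Fin d → ℝ) {σ e : ℝ} (hσ : 0 < σ) (he : 0 < e) (hd : 1 ≤ d)
    (B : Idx n d) {i : Fin n} (hi : i ∉ Set.range B) :
    noise c σ {a | (∀ i, n2 (a i) ≤ 2) ∧ (mat a B).det ≠ 0 ∧ |sl a (vtx a B) i| < e} ≤
      ENNReal.ofReal (2 * e / σ) := by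
  have hsl : Measurable fun a : Fin n → Fin d → ℝ => sl a (vtx a B) i := by
    unfold sl
    simp only [dotProduct]
    have h1 : ∀ j, Measurable fun a : Fin n → Fin d → ℝ => vtx a B j := fun j =>
      (measurable_pi_apply j).comp (helper11.TD.measurable_vtx B)
    have h2 : ∀ j, Measurable fun a : Fin n → Fin d → ℝ => a i j := fun j => by fun_prop
    exact measurable_const.sub (Finset.measurable_sum _ fun j _ => (h2 j).mul (h1 j))
  have hS : MeasurableSet {a : Fin n → Fin d → ℝ | (∀ i, n2 (a i) ≤ 2) ∧ (mat a B).det ≠ 0 ∧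
      |sl a (vtx a B) i| < e} := by
    refine MeasurableSet.inter ?_ (MeasurableSet.inter ?_ ?_)
    · have h1 : {a : Fin n → Fin d → ℝ | ∀ i, n2 (a i) ≤ 2} = ⋂ i, {a | n2 (a i) ≤ 2} := by
        ext a
        simp
      change MeasurableSet {a : Fin n → Fin d → ℝ | ∀ i, n2 (a i) ≤ 2}
      rw [h1]
      exact MeasurableSet.iInter fun i => measurableSet_le
        (helper94.measurable_n2.comp (measurable_pi_apply i)) measurable_const
    · exact (helper11.TD.measurable_det B (measurableSet_singleton 0)).compl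
    · have h1 : Measurable fun a : Fin n → Fin d → ℝ => |sl a (vtx a B) i| :=
        measurable_norm.comp hsl
      exact measurableSet_lt h1 measurable_const
  rw [← lintegral_indicator_one hS, helper11.TD.noise_update c σ i
    (measurable_one.indicator hS)]
  have hkey : ∀ a : Fin n → Fin d → ℝ, ∫⁻ x, Set.indicator {a : Fin n → Fin d → ℝ |
      (∀ i, n2 (a i) ≤ 2) ∧ (mat a B).det ≠ 0 ∧ |sl a (vtx a B) i| < e}
        (1 : (Fin n → Fin d → ℝ) → ℝ≥0∞) (Function.update a i x) ∂(gau (c i) σ) ≤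
      ENNReal.ofReal (2 * e / σ) := by
    intro a
    have hupd : ∀ (x : Fin d → ℝ) (k : Fin d), Function.update a i x (B k) = a (B k) := by
      intro x k
      exact Function.update_of_ne (fun h => hi ⟨k, h⟩) _ _
    have hmat : ∀ x : Fin d → ℝ, mat (Function.update a i x) B = mat a B := fun x =>
      helper94.mat_congr (hupd x)
    have hvtx : ∀ x : Fin d → ℝ, vtx (Function.update a i x) B = vtx a B := fun x => by
      unfold vtx
      exact Finset.sum_congr rfl fun k _ => helper94.nu_congr (hupd x) k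
    rw [show (fun x : Fin d → ℝ => Set.indicator {a : Fin n → Fin d → ℝ |
      (∀ i, n2 (a i) ≤ 2) ∧ (mat a B).det ≠ 0 ∧ |sl a (vtx a B) i| < e}
        (1 : (Fin n → Fin d → ℝ) → ℝ≥0∞) (Function.update a i x)) =
        ((fun x => Function.update a i x) ⁻¹' {a : Fin n → Fin d → ℝ |
      (∀ i, n2 (a i) ≤ 2) ∧ (mat a B).det ≠ 0 ∧ |sl a (vtx a B) i| < e}).indicator 1 from rfl,
      lintegral_indicator_one (hS.preimage (measurable_update a))]
    by_cases hB : (∀ k, n2 (a (B k)) ≤ 2) ∧ (mat a B).det ≠ 0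
    · have hv : 1 / 2 ≤ n2 (vtx a B) := by
        have h1 := dot_vtx hB.2 ⟨0, hd⟩
        have h2 := abs_dot_le (a (B ⟨0, hd⟩)) (vtx a B)
        rw [h1, abs_one] at h2
        have h3 := mul_le_mul_of_nonneg_right (hB.1 ⟨0, hd⟩) (n2_nonneg (vtx a B))
        linarith
      have hv0 : vtx a B ≠ 0 := by
        intro h0
        rw [h0] at hv
        have : n2 (0 : Fin d → ℝ) = 0 := by simp [n2]
        rw [this] at hv
        norm_num at hv
      have h1 : (fun x => Function.update a i x) ⁻¹' {a : Fin n → Fin d → ℝ |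
          (∀ i, n2 (a i) ≤ 2) ∧ (mat a B).det ≠ 0 ∧ |sl a (vtx a B) i| < e} ⊆
          {x | |1 - x ⬝ᵥ vtx a B| ≤ e} := by
        intro x hx
        have h2 : |sl (Function.update a i x) (vtx (Function.update a i x) B) i| < e := hx.2.2
        unfold sl at h2
        rw [hvtx x, Function.update_self] at h2
        exact h2.le
      refine (measure_mono h1).trans ((lin_small (c i) (vtx a B) hσ hv0 1 he.le).trans ?_)
      apply ENNReal.ofReal_le_ofReal
      rw [div_le_div_iff₀ (by positivity) hσ]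
      have h3 : 1 ≤ 2 * n2 (vtx a B) := by linarith
      have h4 : 0 ≤ e * σ := by positivity
      nlinarith
    · have h1 : (fun x => Function.update a i x) ⁻¹' {a : Fin n → Fin d → ℝ |
          (∀ i, n2 (a i) ≤ 2) ∧ (mat a B).det ≠ 0 ∧ |sl a (vtx a B) i| < e} = ∅ := by
        rw [Set.eq_empty_iff_forall_notMem]
        intro x hx
        apply hB
        refine ⟨fun k => ?_, ?_⟩
        · have h2 : n2 (Function.update a i x (B k)) ≤ 2 := hx.1 (B k)
          rwa [hupd x k] at h2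
        · have h2 : (mat (Function.update a i x) B).det ≠ 0 := hx.2.1
          rwa [hmat x] at h2
      rw [h1, measure_empty]
      exact zero_le
  refine (lintegral_mono hkey).trans ?_
  rw [lintegral_const, measure_univ, mul_one]

end Pool.Agent.H.MP_0cad2f_co.qp
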