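import Pool.Agent.H.MP_0cad2f_co.qp.LP

/-!
The diameter of Gaussian-perturbed polytopes: the start of a chain of objectives and the
double counting.
-/

set_option autoImplicit false

namespace Pool.Agent.H.MP_0cad2f_co.qp

open MeasureTheory Matrix Finset
open Pool.Agent.H.MP_0cad2f_co.helper47 (Vert graph gau noise n2 Idx mat nu vtx Good Simple)

variable {n d : ℕ}

/-- The objective near the vertex `B`. -/
noncomputable def th (B : Idx n d) (lam : ℝ) (w : Fin n → ℝ) (i : Fin n) : ℝ :=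
  Set.indicator (Set.range B) 1 i + lam * w i

theorem th_eq (B : Idx n d) (lam : ℝ) (w : Fin n → ℝ) :
    th B lam w = fun i => Set.indicator (Set.range B) (1 : Fin n → ℝ) i + lam * w i := rfl

theorem ind_nonneg (B : Idx n d) (i : Fin n) :
    0 ≤ Set.indicator (Set.range B) (1 : Fin n → ℝ) i :=
  Set.indicator_nonneg (fun _ _ => zero_le_one) i

theorem ind_le (B : Idx n d) (i : Fin n) :
    Set.indicator (Set.range B) (1 : Fin n → ℝ) i ≤ 1 :=
  Set.indicator_le_self' (fun _ _ => zero_le_one) i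

theorem mul_th {a : Fin n → Fin d → ℝ} {B : Idx n d} (hB : (mat a B).det ≠ 0) (lam : ℝ)
    (w : Fin n → ℝ) (k : Fin d) :
    mul a B (th B lam w) k = 1 + lam * ∑ i, w i * (a i ⬝ᵥ nu a B k) := by
  have h1 : ∀ i, th B lam w i * (a i ⬝ᵥ nu a B k) =
      (if i = B k then 1 else 0) + lam * (w i * (a i ⬝ᵥ nu a B k)) := by
    intro i
    by_cases h : i = B k
    · subst h
      rw [th, Set.indicator_of_mem (Set.mem_range_self k), if_pos rfl,
        helper47.dot_nu_self hB k, Pi.one_apply]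
      ring
    · rw [th, if_neg h]
      by_cases h' : i ∈ Set.range B
      · obtain ⟨l, rfl⟩ := h'
        have hlk : l ≠ k := fun hlk => h (by rw [hlk])
        rw [helper47.dot_nu_ne hB hlk]
        ring
      · rw [Set.indicator_of_notMem h']
        ring
  rw [mul, Finset.sum_congr rfl fun i _ => h1 i, Finset.sum_add_distrib, Finset.sum_ite_eq',
    if_pos (Finset.mem_univ _), ← Finset.mul_sum]

theorem start_min {a : Fin n → Fin d → ℝ} {R e μ : ℝ} (hR : Reg a R e μ) (he : 0 < e)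
    (hR0 : 0 ≤ R) {B : Idx n d} (hB : Good a B) {lam : ℝ} (hl : 0 ≤ lam)
    (h : 2 * n * R * lam ≤ e) {w : Fin n → ℝ} (hw : ∀ i, 0 ≤ w i ∧ w i ≤ 3 / 2) :
    IsMin a (th B lam w) B := by
  refine ⟨hB, fun B' hB' => ?_⟩
  have hdet := hR.det_ne B
  rw [obj_eq hdet (th B lam w) (vtx a B')]
  refine le_add_of_nonneg_right
    (Finset.sum_nonneg fun k _ => _root_.mul_nonneg ?_ (sl_nonneg hB' _))
  rw [mul_th hdet]
  have h1 : ∀ i, -(3 / 2 * (R * (1 / e))) ≤ w i * (a i ⬝ᵥ nu a B k) := by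
    intro i
    have h2 : |a i ⬝ᵥ nu a B k| ≤ R * (1 / e) :=
      (helper47.abs_dot_le _ _).trans
        (mul_le_mul (hR.norm_le i) (hR.nu_le B k) (helper47.n2_nonneg _) hR0)
    have h3 := (abs_le.1 h2).1
    have h4 : 0 ≤ R * (1 / e) := by positivity
    have h5 : w i * -(R * (1 / e)) ≤ w i * (a i ⬝ᵥ nu a B k) :=
      mul_le_mul_of_nonneg_left h3 (hw i).1
    have h6 : w i * (R * (1 / e)) ≤ 3 / 2 * (R * (1 / e)) :=
      mul_le_mul_of_nonneg_right (hw i).2 h4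
    linarith
  have h2 : -((n : ℝ) * (3 / 2 * (R * (1 / e)))) ≤ ∑ i, w i * (a i ⬝ᵥ nu a B k) := by
    calc -((n : ℝ) * (3 / 2 * (R * (1 / e)))) = ∑ _i : Fin n, -(3 / 2 * (R * (1 / e))) := by
          rw [Finset.sum_const, Finset.card_univ, Fintype.card_fin, nsmul_eq_mul]
          ring
      _ ≤ _ := Finset.sum_le_sum fun i _ => h1 i
  have h3 : lam * ((n : ℝ) * (3 / 2 * (R * (1 / e)))) ≤ 3 / 4 := by
    have h4 : lam * ((n : ℝ) * (3 / 2 * (R * (1 / e)))) = 3 / 4 * ((2 * n * R * lam) / e) := by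
      field_simp
      ring
    rw [h4]
    have h5 : (2 * n * R * lam) / e ≤ 1 := (div_le_one he).2 h
    linarith
  have h4 := mul_le_mul_of_nonneg_left h2 hl
  linarith

/-- Double counting. -/
theorem chain_step {Ω : Type*} [Fintype Ω] (A : Set Ω) (bad : Ω → Ω → Prop)
    (hA : Fintype.card Ω ≤ 2 * A.ncard)
    (hbad : 8 * Set.ncard {p : Ω × Ω | bad p.1 p.2} ≤ Fintype.card Ω ^ 2) :
    3 * Fintype.card Ω ≤ 4 * Set.ncard {y | ∃ x ∈ A, ¬ bad x y} := by
  classical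
  set Y : Set Ω := {y | ∃ x ∈ A, ¬ bad x y} with hY
  have h1 : A ×ˢ Yᶜ ⊆ {p : Ω × Ω | bad p.1 p.2} := by
    rintro ⟨x, y⟩ ⟨hx, hy⟩
    by_contra h
    exact hy ⟨x, hx, h⟩
  have h2 : A.ncard * Yᶜ.ncard ≤ Set.ncard {p : Ω × Ω | bad p.1 p.2} := by
    rw [← Set.ncard_prod]
    exact Set.ncard_le_ncard h1 (Set.toFinite _)
  have h3 : Y.ncard + Yᶜ.ncard = Fintype.card Ω := by
    rw [Set.ncard_add_ncard_compl, Nat.card_eq_fintype_card]
  rcases Nat.eq_zero_or_pos (Fintype.card Ω) with h0 | h0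
  · omega
  · have h4 : Fintype.card Ω * (4 * Yᶜ.ncard) ≤ Fintype.card Ω * Fintype.card Ω := by
      calc Fintype.card Ω * (4 * Yᶜ.ncard) ≤ 2 * A.ncard * (4 * Yᶜ.ncard) :=
            Nat.mul_le_mul_right _ hA
        _ = 8 * (A.ncard * Yᶜ.ncard) := by ring
        _ ≤ 8 * Set.ncard {p : Ω × Ω | bad p.1 p.2} := Nat.mul_le_mul_left _ h2
        _ ≤ Fintype.card Ω ^ 2 := hbad
        _ = Fintype.card Ω * Fintype.card Ω := sq _
    have h5 := Nat.le_of_mul_le_mul_left h4 h0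
    omega

/-- Optimal bases exist. -/
theorem exists_min {a : Fin n → Fin d → ℝ} {B : Idx n d} (hB : Good a B) (θ : Fin n → ℝ) :
    ∃ v : Idx n d, IsMin a θ v := by
  obtain ⟨v, hv, hv'⟩ := Set.exists_min_image {B : Idx n d | Good a B}
    (fun B => obj a θ (vtx a B)) (Set.toFinite _) ⟨B, hB⟩
  exact ⟨v, hv, fun B' hB' => hv' B' hB'⟩

theorem wt_bounds {L : ℕ} (ω : Fin n → Fin L) (i : Fin n) : 1 ≤ wt L ω i ∧ wt L ω i ≤ 3 / 2 := by
  have hL : 0 < L := lt_of_le_of_lt (Nat.zero_le _) (ω i).isLt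
  have hL' : (0 : ℝ) < L := by exact_mod_cast hL
  have h1 : (((ω i : ℕ) : ℕ) : ℝ) ≤ L := by exact_mod_cast (ω i).isLt.le
  have h2 : (0 : ℝ) ≤ ((ω i : ℕ) : ℝ) / (2 * L) := by positivity
  have h3 : ((ω i : ℕ) : ℝ) / (2 * L) ≤ 1 / 2 := by
    rw [div_le_div_iff₀ (by positivity) (by norm_num)]
    linarith
  rw [wt]
  constructor <;> linarith

end Pool.Agent.H.MP_0cad2f_co.qp
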