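import Pool.Agent.H.MP_0cad2f_co.qp.Defs

/-!
Regular constraints are simple, and the sum of all slacks at a vertex is bounded from both sides.
-/

set_option autoImplicit false

namespace Pool.Agent.H.MP_0cad2f_co.qp

open MeasureTheory ProbabilityTheory Matrix Finset
open scoped NNReal ENNReal
open Pool.Agent.H.MP_0cad2f_co.helper47 (Vert graph gau noise n2 Idx mat nu vtx Good Simple)
open Pool.Agent.H.MP_0cad2f_co.helper29 (toVert)

variable {n d : ℕ}

theorem Reg.simple {a : Fin n → Fin d → ℝ} {R e μ : ℝ} (hR : Reg a R e μ) (he : 0 < e) :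
    Simple a := by
  intro B _ i hi heq
  have h := hR.sl_ge B i hi
  rw [sl, heq, sub_self, abs_zero] at h
  linarith

theorem tot_ge {a : Fin n → Fin d → ℝ} {R e μ : ℝ} (hR : Reg a R e μ) (he : 0 < e) (hn : d < n)
    {B : Idx n d} (hB : Good a B) : e ≤ tot a (vtx a B) := by
  classical
  have _ := he
  have hsl : ∀ i, 0 ≤ sl a (vtx a B) i := fun i => by
    have := hB.2 i
    rw [sl]
    linarith
  obtain ⟨i, hi⟩ : ∃ i, i ∉ Set.range B := by
    by_contra hcon
    push Not at hcon
    have h1 : Function.Surjective B := fun i => hcon i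
    have h2 := Fintype.card_le_of_surjective _ h1
    rw [Fintype.card_fin, Fintype.card_fin] at h2
    omega
  have h3 := hR.sl_ge B i hi
  rw [abs_of_nonneg (hsl i)] at h3
  exact h3.trans (Finset.single_le_sum (f := fun i => sl a (vtx a B) i) (fun i _ => hsl i)
    (Finset.mem_univ i))

theorem tot_le {a : Fin n → Fin d → ℝ} {R e μ : ℝ} (hR : Reg a R e μ) (he : 0 < e)
    (hR0 : 0 ≤ R) (B : Idx n d) : tot a (vtx a B) ≤ n * (1 + R * (d / e)) := by
  classical
  have h1 : n2 (vtx a B) ≤ d / e := by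
    rw [vtx]
    refine (helper47.n2_sum_le _ _).trans ((Finset.sum_le_sum fun k _ => hR.nu_le B k).trans ?_)
    rw [Finset.sum_const, Finset.card_univ, Fintype.card_fin, nsmul_eq_mul]
    apply le_of_eq
    ring
  have h2 : ∀ i, sl a (vtx a B) i ≤ 1 + R * (d / e) := by
    intro i
    have h3 := helper47.abs_dot_le (a i) (vtx a B)
    have h4 : n2 (a i) * n2 (vtx a B) ≤ R * (d / e) :=
      mul_le_mul (hR.norm_le i) h1 (helper47.n2_nonneg _) hR0
    have h5 := neg_abs_le (a i ⬝ᵥ vtx a B)
    rw [sl]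
    linarith
  refine (Finset.sum_le_sum fun i _ => h2 i).trans ?_
  rw [Finset.sum_const, Finset.card_univ, Fintype.card_fin, nsmul_eq_mul]

end Pool.Agent.H.MP_0cad2f_co.qp
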