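import Mathlib

/-!
The dyadic recursion for the distance along a segment of objectives; no geometry.
-/

set_option autoImplicit false

namespace Pool.Agent.H.MP_0cad2f_co.qp

/-- Dyadic recursion: short hops where `N` changes by a factor at most `1 + ν`, otherwise halve. -/
theorem dyadic {α : Type*} (dist : α → α → ℕ∞) (htri : ∀ x y z, dist x z ≤ dist x y + dist y z)
    {J H : ℕ} (hH : 1 ≤ H) (v : ℕ → α) (N : ℕ → ℝ) (hN : ∀ k, 0 < N k)
    (hanti : ∀ k, N (k + 1) ≤ N k) {ν : ℝ} (hν : 0 < ν)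
    (hop : ∀ m ≤ J, ∀ k < 2 ^ m,
      N (k * 2 ^ (J - m)) ≤ (1 + ν) * N ((k + 1) * 2 ^ (J - m)) →
      dist (v (k * 2 ^ (J - m))) (v ((k + 1) * 2 ^ (J - m))) ≤ (H : ℕ∞))
    (hfin : ∀ k < 2 ^ J, dist (v k) (v (k + 1)) ≤ 1) :
    ∃ T : ℕ, dist (v 0) (v (2 ^ J)) ≤ (T : ℕ∞) ∧
      (T : ℝ) ≤ H * (1 + J * (Real.log (N 0 / N (2 ^ J)) / Real.log (1 + ν))) := by
  have hmono : Antitone N := antitone_nat_of_succ_le hanti
  have hlog : 0 < Real.log (1 + ν) := Real.log_pos (by linarith)
  have hLnn : ∀ s t, s ≤ t → 0 ≤ Real.log (N s / N t) / Real.log (1 + ν) := by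
    intro s t hst
    apply div_nonneg _ hlog.le
    apply Real.log_nonneg
    rw [le_div_iff₀ (hN t), one_mul]
    exact hmono hst
  have hadd : ∀ s t u, Real.log (N s / N t) / Real.log (1 + ν) +
      Real.log (N t / N u) / Real.log (1 + ν) = Real.log (N s / N u) / Real.log (1 + ν) := by
    intro s t u
    rw [← add_div, ← Real.log_mul (div_pos (hN s) (hN t)).ne' (div_pos (hN t) (hN u)).ne',
      div_mul_div_cancel₀ (hN t).ne']
  have key : ∀ j ≤ J, ∀ k < 2 ^ (J - j), ∃ T : ℕ,
      dist (v (k * 2 ^ j)) (v ((k + 1) * 2 ^ j)) ≤ (T : ℕ∞) ∧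
      (T : ℝ) ≤ H * (1 + j * (Real.log (N (k * 2 ^ j) / N ((k + 1) * 2 ^ j)) /
        Real.log (1 + ν))) := by
    intro j
    induction j with
    | zero =>
      intro _ k hk
      refine ⟨1, ?_, ?_⟩
      · rw [pow_zero, mul_one, mul_one, Nat.cast_one]
        rw [Nat.sub_zero] at hk
        exact hfin k hk
      · have : (1 : ℝ) ≤ H := by exact_mod_cast hH
        push_cast
        linarith
    | succ j ih =>
      intro hj k hk
      have hst : k * 2 ^ (j + 1) ≤ (k + 1) * 2 ^ (j + 1) :=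
        Nat.mul_le_mul_right _ (Nat.le_succ k)
      have hHr : (1 : ℝ) ≤ H := by exact_mod_cast hH
      have hnn := hLnn _ _ hst
      by_cases hc : N (k * 2 ^ (j + 1)) ≤ (1 + ν) * N ((k + 1) * 2 ^ (j + 1))
      · refine ⟨H, ?_, ?_⟩
        · have h1 := hop (J - (j + 1)) (Nat.sub_le _ _) k hk
          have h2 : J - (J - (j + 1)) = j + 1 := by omega
          rw [h2] at h1
          exact h1 hc
        · have h3 : (0 : ℝ) ≤ ((j + 1 : ℕ) : ℝ) * (Real.log (N (k * 2 ^ (j + 1)) /
              N ((k + 1) * 2 ^ (j + 1))) / Real.log (1 + ν)) :=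
            mul_nonneg (Nat.cast_nonneg _) hnn
          nlinarith
      · have hpow : 2 ^ (J - j) = 2 * 2 ^ (J - (j + 1)) := by
          have : J - j = J - (j + 1) + 1 := by omega
          rw [this, pow_succ]
          ring
        obtain ⟨T1, h1, h1'⟩ := ih (by omega) (2 * k) (by rw [hpow]; omega)
        obtain ⟨T2, h2, h2'⟩ := ih (by omega) (2 * k + 1) (by rw [hpow]; omega)
        have e1 : 2 * k * 2 ^ j = k * 2 ^ (j + 1) := by rw [pow_succ]; ring
        have e2 : (2 * k + 1 + 1) * 2 ^ j = (k + 1) * 2 ^ (j + 1) := by rw [pow_succ]; ring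
        rw [e1] at h1 h1'
        rw [e2] at h2 h2'
        refine ⟨T1 + T2, ?_, ?_⟩
        · refine (htri _ (v ((2 * k + 1) * 2 ^ j)) _).trans ?_
          rw [Nat.cast_add]
          exact add_le_add h1 h2
        · have h4 := hadd (k * 2 ^ (j + 1)) ((2 * k + 1) * 2 ^ j) ((k + 1) * 2 ^ (j + 1))
          have h5 : 1 ≤ Real.log (N (k * 2 ^ (j + 1)) / N ((k + 1) * 2 ^ (j + 1))) /
              Real.log (1 + ν) := by
            rw [le_div_iff₀ hlog, one_mul]
            apply Real.log_le_log (by linarith)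
            rw [le_div_iff₀ (hN _)]
            exact (not_le.1 hc).le
          set A := Real.log (N (k * 2 ^ (j + 1)) / N ((2 * k + 1) * 2 ^ j)) / Real.log (1 + ν)
          set B := Real.log (N ((2 * k + 1) * 2 ^ j) / N ((k + 1) * 2 ^ (j + 1))) /
            Real.log (1 + ν)
          set C := Real.log (N (k * 2 ^ (j + 1)) / N ((k + 1) * 2 ^ (j + 1))) / Real.log (1 + ν)
          push_cast
          have h6 : (H : ℝ) * (1 + j * A) + H * (1 + j * B) = H * (2 + j * C) := by
            rw [← h4]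
            ring
          have h7 : (H : ℝ) * (2 + j * C) ≤ H * (1 + (j + 1) * C) := by
            apply mul_le_mul_of_nonneg_left _ (by linarith)
            linarith
          linarith
  obtain ⟨T, h1, h2⟩ := key J le_rfl 0 (by rw [Nat.sub_self]; norm_num)
  rw [zero_mul, zero_add, one_mul] at h1 h2
  exact ⟨T, h1, h2⟩

end Pool.Agent.H.MP_0cad2f_co.qp
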