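import Pool.Agent.H.MP_0cad2f_co.qp.Defs

/-!
The diameter of Gaussian-perturbed polytopes: slacks and multipliers of a basis.
-/

set_option autoImplicit false

namespace Pool.Agent.H.MP_0cad2f_co.qp

open MeasureTheory Matrix Finset
open Pool.Agent.H.MP_0cad2f_co.helper47 (Vert graph gau noise n2 Idx mat nu vtx Good Simple)

variable {n d : ℕ}

theorem sl_basis {a : Fin n → Fin d → ℝ} {B : Idx n d} (hB : (mat a B).det ≠ 0) (k : Fin d) :
    sl a (vtx a B) (B k) = 0 := by
  rw [sl, helper47.dot_vtx hB k, sub_self]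

theorem sl_nonneg {a : Fin n → Fin d → ℝ} {B : Idx n d} (hB : Good a B) (i : Fin n) :
    0 ≤ sl a (vtx a B) i := sub_nonneg.2 (hB.2 i)

/-- The slacks at a point from the slacks of a basis. -/
theorem LP_sl {a : Fin n → Fin d → ℝ} {B : Idx n d} (hB : (mat a B).det ≠ 0) (x : Fin d → ℝ)
    (i : Fin n) :
    sl a x i = sl a (vtx a B) i + ∑ k, (a i ⬝ᵥ nu a B k) * sl a x (B k) := by
  have h1 : a i ⬝ᵥ x = ∑ k, (a (B k) ⬝ᵥ x) * (a i ⬝ᵥ nu a B k) := by
    conv_lhs => rw [← helper47.sum_smul_nu hB x]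
    rw [dotProduct_sum]
    refine Finset.sum_congr rfl fun k _ => ?_
    rw [dotProduct_smul, smul_eq_mul]
  have h2 : a i ⬝ᵥ vtx a B = ∑ k, a i ⬝ᵥ nu a B k := by
    rw [vtx, dotProduct_sum]
  have h3 : ∑ k, (a i ⬝ᵥ nu a B k) * sl a x (B k) =
      ∑ k, a i ⬝ᵥ nu a B k - ∑ k, (a (B k) ⬝ᵥ x) * (a i ⬝ᵥ nu a B k) := by
    rw [← Finset.sum_sub_distrib]
    refine Finset.sum_congr rfl fun k _ => ?_
    rw [sl]
    ring
  rw [h3, sl, sl, h1, h2]
  ring

theorem obj_eq {a : Fin n → Fin d → ℝ} {B : Idx n d} (hB : (mat a B).det ≠ 0) (θ : Fin n → ℝ)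
    (x : Fin d → ℝ) :
    obj a θ x = obj a θ (vtx a B) + ∑ k, mul a B θ k * sl a x (B k) := by
  have h1 : ∑ k, mul a B θ k * sl a x (B k) =
      ∑ i, θ i * ∑ k, (a i ⬝ᵥ nu a B k) * sl a x (B k) := by
    simp only [mul, Finset.sum_mul, Finset.mul_sum]
    rw [Finset.sum_comm]
    refine Finset.sum_congr rfl fun i _ => Finset.sum_congr rfl fun k _ => ?_
    ring
  rw [h1, obj, obj, ← Finset.sum_add_distrib]
  refine Finset.sum_congr rfl fun i _ => ?_
  rw [← mul_add, ← LP_sl hB x i]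

/-- A weighted sum after the change of one weight. -/
theorem LP_update (θ c : Fin n → ℝ) (j : Fin n) (t : ℝ) :
    ∑ i, Function.update θ j t i * c i = ∑ i, θ i * c i + (t - θ j) * c j := by
  have h1 : ∀ i, Function.update θ j t i * c i =
      θ i * c i + if i = j then (t - θ j) * c j else 0 := by
    intro i
    by_cases h : i = j
    · subst h
      rw [Function.update_self, if_pos rfl]
      ring
    · rw [Function.update_of_ne h, if_neg h, add_zero]
  rw [Finset.sum_congr rfl fun i _ => h1 i, Finset.sum_add_distrib, Finset.sum_ite_eq']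
  simp

theorem mul_update_same {a : Fin n → Fin d → ℝ} {B : Idx n d} (hB : (mat a B).det ≠ 0)
    (θ : Fin n → ℝ) (k : Fin d) (t : ℝ) :
    mul a B (Function.update θ (B k) t) k = mul a B θ k + (t - θ (B k)) := by
  rw [mul, mul, LP_update θ (fun i => a i ⬝ᵥ nu a B k) (B k) t, helper47.dot_nu_self hB k, mul_one]

theorem mul_update_ne {a : Fin n → Fin d → ℝ} {B : Idx n d} (hB : (mat a B).det ≠ 0)
    (θ : Fin n → ℝ) {k l : Fin d} (h : l ≠ k) (t : ℝ) :
    mul a B (Function.update θ (B l) t) k = mul a B θ k := by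
  rw [mul, mul, LP_update θ (fun i => a i ⬝ᵥ nu a B k) (B l) t, helper47.dot_nu_ne hB h, mul_zero,
    add_zero]

end Pool.Agent.H.MP_0cad2f_co.qp
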