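import Pool.Agent.H.MP_0cad2f_co.qp.Pivot
import Pool.Agent.H.MP_0cad2f_co.qp.LP

/-!
The diameter of Gaussian-perturbed polytopes: improving neighbours inside a face, optimal bases.
-/

set_option autoImplicit false

namespace Pool.Agent.H.MP_0cad2f_co.qp

open MeasureTheory Matrix Finset
open Pool.Agent.H.MP_0cad2f_co.helper47 (Vert graph gau noise n2 Idx mat nu vtx Good Simple)

variable {n d : ℕ}

private theorem face_mem {B : Idx n d} {i : Fin n} : i ∈ idx B ↔ ∃ k, B k = i := by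
  simp [idx]

/-- The constraints of a face are tight. -/
private theorem face_tight {a : Fin n → Fin d → ℝ} {S : Finset (Fin n)} {B₁ : Idx n d}
    (hB₁ : (mat a B₁).det ≠ 0) (hS₁ : S ⊆ idx B₁) {i : Fin n} (hi : i ∈ S) :
    sl a (vtx a B₁) i = 0 := by
  obtain ⟨k, rfl⟩ := face_mem.1 (hS₁ hi)
  exact sl_basis hB₁ k

private theorem face_erase {S : Finset (Fin n)} {B B' : Idx n d} (hS : S ⊆ idx B) {k : Fin d}
    (hk : B k ∉ S) (h : (idx B).erase (B k) ⊆ idx B') : S ⊆ idx B' := by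
  intro i hi
  exact h (Finset.mem_erase.2 ⟨fun h0 => hk (h0 ▸ hi), hS hi⟩)

/-- Improving neighbours inside a face. -/
theorem face_step {a : Fin n → Fin d → ℝ} (hdet : ∀ B : Idx n d, (mat a B).det ≠ 0)
    (hs : Simple a) {θ : Fin n → ℝ} (hθ : ∀ i, 0 ≤ θ i) {S : Finset (Fin n)} {B B₁ : Idx n d}
    (hB : Good a B) (hB₁ : Good a B₁) (hS : S ⊆ idx B) (hS₁ : S ⊆ idx B₁)
    (hlt : obj a θ (vtx a B₁) < obj a θ (vtx a B)) :
    ∃ B' : Idx n d, Good a B' ∧ S ⊆ idx B' ∧ obj a θ (vtx a B') < obj a θ (vtx a B) ∧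
      ∃ k, (idx B).erase (B k) ⊆ idx B' := by
  have h1 := obj_eq (hdet B) θ (vtx a B₁)
  obtain ⟨k, hk⟩ : ∃ k, mul a B θ k * sl a (vtx a B₁) (B k) < 0 := by
    by_contra hcon
    push Not at hcon
    have h2 : 0 ≤ ∑ k, mul a B θ k * sl a (vtx a B₁) (B k) :=
      Finset.sum_nonneg fun k _ => hcon k
    linarith
  have h3 : 0 ≤ sl a (vtx a B₁) (B k) := sl_nonneg hB₁ _
  have h4 : mul a B θ k < 0 := by
    by_contra hcon
    exact absurd hk (not_lt.2 (mul_nonneg (not_lt.1 hcon) h3))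
  have h5 : B k ∉ S := by
    intro hi
    rw [face_tight (hdet B₁) hS₁ hi, mul_zero] at hk
    exact lt_irrefl _ hk
  obtain ⟨B', hB', h6, h7⟩ := pivot hdet hs hθ hB h4
  exact ⟨B', hB', face_erase hS h5 h6, h7, k, h6⟩

/-- The optimum of a nondegenerate objective on a face is unique. -/
theorem unique_min {a : Fin n → Fin d → ℝ} (hdet : ∀ B : Idx n d, (mat a B).det ≠ 0)
    (hs : Simple a) {θ : Fin n → ℝ} (hθ : ∀ i, 0 ≤ θ i)
    (hnd : ∀ (B : Idx n d) (k : Fin d), mul a B θ k ≠ 0) {S : Finset (Fin n)} {B B₁ : Idx n d}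
    (hB : Good a B) (hB₁ : Good a B₁) (hS : S ⊆ idx B) (hS₁ : S ⊆ idx B₁)
    (hmin : ∀ B' : Idx n d, Good a B' → S ⊆ idx B' → obj a θ (vtx a B) ≤ obj a θ (vtx a B'))
    (hle : obj a θ (vtx a B₁) ≤ obj a θ (vtx a B)) : B₁ = B := by
  have h1 := obj_eq (hdet B) θ (vtx a B₁)
  have h2 : ∀ k, B k ∉ S → 0 < mul a B θ k := by
    intro k hk
    refine lt_of_le_of_ne ?_ (hnd B k).symm
    by_contra hcon
    obtain ⟨B', hB', h6, h7⟩ := pivot hdet hs hθ hB (not_le.1 hcon)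
    exact absurd (hmin B' hB' (face_erase hS hk h6)) (not_le.2 h7)
  have h3 : ∀ k, 0 ≤ mul a B θ k * sl a (vtx a B₁) (B k) := by
    intro k
    by_cases hk : B k ∈ S
    · rw [face_tight (hdet B₁) hS₁ hk, mul_zero]
    · exact mul_nonneg (h2 k hk).le (sl_nonneg hB₁ _)
  have h4 : ∑ k, mul a B θ k * sl a (vtx a B₁) (B k) = 0 :=
    le_antisymm (by linarith) (Finset.sum_nonneg fun k _ => h3 k)
  have h5 : ∀ k, sl a (vtx a B₁) (B k) = 0 := by
    intro k
    by_cases hk : B k ∈ S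
    · exact face_tight (hdet B₁) hS₁ hk
    · have h6 := (Finset.sum_eq_zero_iff_of_nonneg fun k _ => h3 k).1 h4 k (Finset.mem_univ k)
      exact (mul_eq_zero.1 h6).resolve_left (hnd B k)
  have h6 : vtx a B₁ = vtx a B := helper47.eq_vtx (hdet B) fun k => by
    have := h5 k
    rw [sl] at this
    linarith
  exact helper29.vtx_inj hs hB₁ hB h6

/-- An optimal basis of a nonnegative objective has nonnegative multipliers. -/
theorem mul_nonneg {a : Fin n → Fin d → ℝ} (hdet : ∀ B : Idx n d, (mat a B).det ≠ 0)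
    (hs : Simple a) {θ : Fin n → ℝ} (hθ : ∀ i, 0 ≤ θ i) {B : Idx n d} (hB : IsMin a θ B)
    (k : Fin d) : 0 ≤ mul a B θ k := by
  by_contra hcon
  obtain ⟨B', hB', -, h7⟩ := pivot hdet hs hθ hB.1 (not_le.1 hcon)
  exact absurd (hB.2 B' hB') (not_le.2 h7)

end Pool.Agent.H.MP_0cad2f_co.qp
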