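import Pool.Agent.H.MP_0cad2f_co.qp.Idx
import Pool.Agent.H.MP_0cad2f_co.qp.LP
import Pool.Agent.H.MP_0cad2f_co.qp.Adj
import Pool.Agent.H.MP_0cad2f_co.qp.Face
import Pool.Agent.H.MP_0cad2f_co.qp.Bounds
import Pool.Agent.H.MP_0cad2f_co.Qp.KK

/-! One hop: between two vertices whose near optimal neighbours only use few constraints. -/

set_option autoImplicit false

namespace Pool.Agent.H.MP_0cad2f_co.qp

open MeasureTheory ProbabilityTheory Matrix Finset
open scoped NNReal ENNReal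
open Pool.Agent.H.MP_0cad2f_co.helper47 (Vert graph gau noise n2 Idx mat nu vtx Good Simple)
open Pool.Agent.H.MP_0cad2f_co.helper29 (toVert)
open Pool.MP_0cad2f_co.Qp (kkH kkH_bound choose_le_pow' KStep KReach kk)

variable {n d : ℕ}

theorem Hop_kkH_HH {d f m : ℕ} (hf : f + 1 ≤ d) (hm : m + 2 ≤ 2 * d) : kkH f m ≤ HH d := by
  have h0 : d < 2 ^ (Nat.log 2 d + 1) := Nat.lt_pow_succ_log_self (by norm_num) d
  have h1 : m < 2 ^ (Nat.log 2 d + 2) := by
    rw [pow_succ]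
    omega
  have h2 := kkH_bound _ f m (Nat.log 2 d + 2) rfl h1
  have h3 := choose_le_pow' d (Nat.log 2 d + 2) (by omega)
  have h3' : (f + (Nat.log 2 d + 2)).choose (Nat.log 2 d + 2) ≤
      (d - 1 + (Nat.log 2 d + 2)).choose (Nat.log 2 d + 2) := Nat.choose_le_choose _ (by omega)
  have h4 : 2 ^ (Nat.log 2 d + 2) ≤ 4 * d := by
    have h5 : 2 ^ Nat.log 2 d ≤ d := Nat.pow_log_le_self 2 (by omega)
    rw [pow_add]
    omega
  calc kkH f m ≤ 2 ^ (Nat.log 2 d + 2) *
        (f + (Nat.log 2 d + 2)).choose (Nat.log 2 d + 2) := by omega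
    _ ≤ (4 * d) * d ^ (Nat.log 2 d + 2) := Nat.mul_le_mul h4 (h3'.trans h3)
    _ = HH d := by
      rw [HH, pow_add]
      ring

/-- The adjacency of index sets. -/
private def HopAdj (a : Fin n → Fin d → ℝ) (I J : Finset (Fin n)) : Prop :=
  ∃ B B' : Idx n d, Good a B ∧ Good a B' ∧ idx B = I ∧ idx B' = J ∧
    ∃ k, (idx B).erase (B k) ⊆ idx B'

private theorem Hop_edist {a : Fin n → Fin d → ℝ} (hs : Simple a) {G : Finset (Fin n) → ℝ}
    {V : Set (Finset (Fin n))} {S : Finset (Fin n)} {k : ℕ} {I J : Finset (Fin n)}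
    (h : KReach V G (HopAdj a) S k I J) : ∀ (B B' : Idx n d) (hB : Good a B) (hB' : Good a B'),
      idx B = I → idx B' = J →
      (graph a).edist (toVert a ⟨B, hB⟩) (toVert a ⟨B', hB'⟩) ≤ (k : ℕ∞) := by
  induction h with
  | refl k I =>
    intro B B' hB hB' h1 h2
    have h3 : B = B' := idx_injective (h1.trans h2.symm)
    subst h3
    rw [SimpleGraph.edist_self]
    exact bot_le
  | step h1 _ ih =>
    intro B B' hB hB' hBI hB'J
    obtain ⟨C, C', hC, hC', h2, h3, k, h4⟩ := h1.adj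
    have h5 : C = B := idx_injective (h2.trans hBI.symm)
    subst h5
    refine (SimpleGraph.edist_triangle (v := toVert a ⟨C', hC'⟩)).trans ?_
    have h6 := edist_le_one hs hB hC' h4
    have h7 := ih C' B' hC' hB' h3 hB'J
    rw [Nat.cast_add, Nat.cast_one, add_comm]
    exact add_le_add h7 h6

open Classical in
theorem hop_dist {a : Fin n → Fin d → ℝ} {R e μ : ℝ} (hR : Reg a R e μ) (he : 0 < e)
    (hμ : 0 ≤ μ) (hd : 1 ≤ d) {θ : Fin n → ℝ} (hθ : ∀ i, 0 ≤ θ i)
    (hnd : ∀ (B : Idx n d) (k : Fin d), mul a B θ k ≠ 0) {u v : Idx n d} (hu : Good a u)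
    (hv : IsMin a θ v)
    (hiso : ∀ x : Idx n d, Good a x → obj a θ (vtx a x) ≤ obj a θ (vtx a u) →
      ∀ l, |sl a (vtx a x) l - sl a (vtx a v) l| ≤ μ * tot a (vtx a v)) :
    (graph a).edist (toVert a ⟨u, hu⟩) (toVert a ⟨v, hv.1⟩) ≤ (HH d : ℕ∞) := by
  have hs := hR.simple he
  have hdet := hR.det_ne
  let V : Set (Finset (Fin n)) := {I | ∃ B : Idx n d, Good a B ∧ idx B = I}
  let G : Finset (Fin n) → ℝ := Function.extend (idx : Idx n d → Finset (Fin n))
    (fun B => obj a θ (vtx a B)) 0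
  have hG : ∀ B : Idx n d, G (idx B) = obj a θ (vtx a B) := fun B =>
    idx_injective.extend_apply _ _ B
  have hcard : ∀ I ∈ V, I.card = d := by
    rintro I ⟨B, -, rfl⟩
    exact card_idx B
  have himp : ∀ S I : Finset (Fin n), I ∈ V → S ⊆ I → (∃ J ∈ V, S ⊆ J ∧ G J < G I) →
      ∃ J, KStep V G (HopAdj a) S I J := by
    rintro S I ⟨B, hB, rfl⟩ hS ⟨J, ⟨B₁, hB₁, rfl⟩, hS₁, hlt⟩
    rw [hG, hG] at hlt
    obtain ⟨B', hB', hS', hlt', k, hk⟩ := face_step hdet hs hθ hB hB₁ hS hS₁ hlt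
    exact ⟨idx B', ⟨B, hB, rfl⟩, ⟨B', hB', rfl⟩, hS, hS', ⟨B, B', hB, hB', rfl, rfl, k, hk⟩, by
      rw [hG, hG]
      exact hlt'⟩
  let A : Finset (Fin n) := Finset.univ.filter fun i => sl a (vtx a v) i ≤ μ * tot a (vtx a v)
  have hA : ∀ x : Idx n d, Good a x → obj a θ (vtx a x) ≤ obj a θ (vtx a u) → idx x ⊆ A := by
    intro x hx hle i hi
    obtain ⟨k, rfl⟩ := mem_idx.1 hi
    have h1 := hiso x hx hle (x k)
    rw [sl_basis (hdet x) k, zero_sub, abs_neg] at h1
    exact Finset.mem_filter.2 ⟨Finset.mem_univ _, (le_abs_self _).trans h1⟩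
  have huA : idx u ⊆ A := hA u hu le_rfl
  have hvA : idx v ⊆ A := hA v hv.1 (hv.2 u hu)
  have hAcard : A.card + 1 ≤ 2 * d := by
    have h1 : A ⊆ idx v ∪ Finset.univ.filter fun i =>
        i ∉ Set.range v ∧ sl a (vtx a v) i ≤ μ * tot a (vtx a v) := by
      intro i hi
      rw [Finset.mem_union]
      by_cases h : i ∈ Set.range v
      · exact Or.inl (mem_idx.2 h)
      · exact Or.inr (Finset.mem_filter.2 ⟨Finset.mem_univ _, h, (Finset.mem_filter.1 hi).2⟩)
    have h2 := hR.near_le v hv.1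
    have h3 : Set.ncard {i | i ∉ Set.range v ∧ sl a (vtx a v) i ≤ μ * tot a (vtx a v)} =
        (Finset.univ.filter fun i =>
          i ∉ Set.range v ∧ sl a (vtx a v) i ≤ μ * tot a (vtx a v)).card := by
      rw [← Set.ncard_coe_finset]
      congr 1
      ext i
      simp
    have h4 := Finset.card_le_card h1
    have h5 := Finset.card_union_le (idx v) (Finset.univ.filter fun i =>
        i ∉ Set.range v ∧ sl a (vtx a v) i ≤ μ * tot a (vtx a v))
    rw [card_idx] at h5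
    rw [h3] at h2
    omega
  obtain ⟨S, hS⟩ : ∃ S : Finset (Fin n), S = idx u ∩ idx v := ⟨_, rfl⟩
  have hSu : S ⊆ idx u := hS ▸ Finset.inter_subset_left
  have hSv : S ⊆ idx v := hS ▸ Finset.inter_subset_right
  have hScard : 1 ≤ S.card := by
    have h1 := Finset.card_union_add_card_inter (idx u) (idx v)
    have h2 := Finset.card_le_card (Finset.union_subset huA hvA)
    rw [card_idx, card_idx, ← hS] at h1
    omega
  have hScard' : S.card ≤ d := by
    have h1 := Finset.card_le_card hSu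
    rwa [card_idx] at h1
  have hU : (A \ S).card ≤ 2 * d - 2 := by
    rw [Finset.card_sdiff_of_subset (hSu.trans huA)]
    omega
  obtain ⟨T, hT, hTmin⟩ := kk (V := V) (G := G) (Adj := HopAdj a) hcard himp _ (d - S.card)
    (2 * d - 2) S (idx u) (A \ S) rfl (by omega) ⟨u, hu, rfl⟩ hSu hU (by
      intro J hJ
      obtain ⟨⟨x, hx, rfl⟩, -⟩ := hJ.mem ⟨u, hu, rfl⟩ hSu
      have h1 := hJ.le
      rw [hG, hG] at h1
      exact Finset.sdiff_subset_sdiff (hA x hx h1) (Finset.Subset.refl S))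
  obtain ⟨⟨x, hx, hxT⟩, hST⟩ := hT.mem ⟨u, hu, rfl⟩ hSu
  subst hxT
  have hle : obj a θ (vtx a x) ≤ obj a θ (vtx a v) := by
    have h1 := hTmin (idx v) ⟨v, hv.1, rfl⟩ hSv
    rwa [hG, hG] at h1
  have hxv : x = v := unique_min hdet hs hθ hnd hv.1 hx hSv hST
    (fun B' hB' _ => hv.2 B' hB') hle
  subst hxv
  refine (Hop_edist hs hT u x hu hv.1 rfl rfl).trans ?_
  exact_mod_cast Hop_kkH_HH (by omega) (by omega)

end Pool.Agent.H.MP_0cad2f_co.qp
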