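import Pool.Agent.H.MP_0cad2f_co.qp.Pairs
import Pool.Agent.H.MP_0cad2f_co.qp.StageDist
import Pool.Agent.H.MP_0cad2f_co.qp.Chain0

/-!
The diameter of Gaussian-perturbed polytopes: the chain of objectives from a vertex.
-/

set_option autoImplicit false

namespace Pool.Agent.H.MP_0cad2f_co.qp

open MeasureTheory Matrix Finset
open Pool.Agent.H.MP_0cad2f_co.helper47 (Vert graph gau noise n2 Idx mat nu vtx Good Simple)
open Pool.Agent.H.MP_0cad2f_co.helper29 (toVert)

variable {n d : ℕ}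

/-- A vertex near `B` that is optimal for `θ`. -/
def NearMin (a : Fin n → Fin d → ℝ) {B : Idx n d} (hB : Good a B) (T₁ : ℝ) (θ : Fin n → ℝ)
    (m : ℕ) : Prop :=
  ∃ (v : Idx n d) (hv : IsMin a θ v) (T : ℕ),
    (graph a).edist (toVert a ⟨B, hB⟩) (toVert a ⟨v, hv.1⟩) ≤ (T : ℕ∞) ∧ (T : ℝ) ≤ m * T₁

/-- The difference of two consecutive objectives near `B`. -/
theorem stage_th (B : Idx n d) {lam : ℝ} (hl : 0 < lam) {L : ℕ} (ω ω' : Fin n → Fin L) :
    Stage (fun i => Set.indicator (Set.range B) (1 : Fin n → ℝ) i + lam * wt L ω i)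
      (fun i => Set.indicator (Set.range B) (1 : Fin n → ℝ) i + 2 * lam * wt L ω' i) lam where
  nonneg i := by
    have h1 := ind_nonneg B i
    have h2 := _root_.mul_nonneg hl.le (zero_le_one.trans (wt_bounds ω i).1)
    linarith
  lo i := by
    have h1 := mul_le_mul_of_nonneg_left (wt_bounds ω' i).1 (by positivity : 0 ≤ 2 * lam)
    have h2 := mul_le_mul_of_nonneg_left (wt_bounds ω i).2 hl.le
    linarith
  hi i := by
    have h1 := mul_le_mul_of_nonneg_left (wt_bounds ω' i).2 (by positivity : 0 ≤ 2 * lam)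
    have h2 := mul_le_mul_of_nonneg_left (wt_bounds ω i).1 hl.le
    linarith

/-- The difference of the last two objectives. -/
theorem stage_last (B : Idx n d) {L : ℕ} (ω ω' : Fin n → Fin L) :
    Stage (fun i => Set.indicator (Set.range B) (1 : Fin n → ℝ) i + 1 * wt L ω i)
      (fun i => 0 + 4 * wt L ω' i) 1 where
  nonneg i := by
    have h1 := ind_nonneg B i
    have h2 := (wt_bounds ω i).1
    linarith
  lo i := by
    have h1 := ind_le B i
    have h2 := (wt_bounds ω i).2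
    have h3 := (wt_bounds ω' i).1
    linarith
  hi i := by
    have h1 := ind_nonneg B i
    have h2 := (wt_bounds ω i).1
    have h3 := (wt_bounds ω' i).2
    linarith

theorem chain {a : Fin n → Fin d → ℝ} {R e μ : ℝ} (hR : Reg a R e μ) (he : 0 < e)
    (hR0 : 0 ≤ R) (hμ : 0 < μ) (hμ1 : μ ≤ 1) (hn : d < n) (hd : 1 ≤ d) {Mm : ℝ} (heM : e ≤ Mm)
    (hMm : ∀ B : Idx n d, Good a B → tot a (vtx a B) ≤ Mm) {ν : ℝ} {J J₀ L : ℕ} (hν : 0 < ν)
    (h1 : 500000 * n * (J + 1) * ν * Real.log (2 * Mm / e) ≤ μ ^ 2)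
    (h3 : 1000000 * (n : ℝ) ^ d * (d : ℝ) ^ 2 * Mm ^ 2 ≤ 2 ^ J * e ^ 2)
    (h4 : 100 * 2 ^ J * (n : ℝ) ^ d * d ≤ L) (h5 : μ * 2 ^ J ≤ 72 * ν * L)
    (h6 : 2 * n * R ≤ e * 2 ^ J₀) {B : Idx n d} (hB : Good a B) :
    3 * L ^ n ≤ 4 * Set.ncard {ω : Fin n → Fin L |
      (∀ (B : Idx n d) (k : Fin d), mul a B (fun i => 4 * wt L ω i) k ≠ 0) ∧
      ∃ (v : Idx n d) (hv : IsMin a (fun i => 4 * wt L ω i) v) (T : ℕ),
        (graph a).edist (toVert a ⟨B, hB⟩) (toVert a ⟨v, hv.1⟩) ≤ (T : ℕ∞) ∧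
        (T : ℝ) ≤ (J₀ + 1) *
          (HH d * (1 + J * (Real.log (18 * Mm / e) / Real.log (1 + ν))))} := by
  classical
  set T₁ : ℝ := HH d * (1 + J * (Real.log (18 * Mm / e) / Real.log (1 + ν))) with hT₁
  have hcard : Fintype.card (Fin n → Fin L) = L ^ n := by simp
  have hM0 : 0 ≤ Mm := he.le.trans heM
  -- one stage
  have step : ∀ {θ θ' : Fin n → ℝ} {lam : ℝ} {m : ℕ}, 0 < lam → Stage θ θ' lam →
      GoodSeg a μ ν (10 * lam * Mm / (2 ^ J * e)) lam J θ θ' → NearMin a hB T₁ θ m →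
      NearMin a hB T₁ θ' (m + 1) := by
    rintro θ θ' lam m hlam hS hG ⟨v, hv, T, hT, hT'⟩
    obtain ⟨v', hv'⟩ := exists_min hB θ'
    have hη : 9 * lam * Mm / (2 ^ J * e) ≤ 10 * lam * Mm / (2 ^ J * e) := by
      have h7 : 0 ≤ lam * Mm := _root_.mul_nonneg hlam.le hM0
      have h8 : (0 : ℝ) < 2 ^ J * e := by positivity
      rw [div_le_div_iff_of_pos_right h8]
      nlinarith
    obtain ⟨T', hT2, hT2'⟩ := stage_dist hR he hμ.le hn hd hMm hν hlam hη hS hG hv hv'
    refine ⟨v', hv', T + T', ?_, ?_⟩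
    · refine (SimpleGraph.edist_triangle (v := toVert a ⟨v, hv.1⟩)).trans ?_
      rw [Nat.cast_add]
      exact add_le_add hT hT2
    · push_cast
      rw [add_mul, one_mul]
      exact add_le_add hT' hT2'
  -- all stages near `B`
  have key : ∀ j : ℕ, Fintype.card (Fin n → Fin L) ≤ 2 * Set.ncard {ω : Fin n → Fin L |
      NearMin a hB T₁ (fun i => Set.indicator (Set.range B) (1 : Fin n → ℝ) i +
        2 ^ j / 2 ^ J₀ * wt L ω i) j} := by
    intro j
    induction j with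
    | zero =>
      have h7 : {ω : Fin n → Fin L |
          NearMin a hB T₁ (fun i => Set.indicator (Set.range B) (1 : Fin n → ℝ) i +
            2 ^ 0 / 2 ^ J₀ * wt L ω i) 0} = Set.univ := by
        rw [Set.eq_univ_iff_forall]
        intro ω
        have h8 : IsMin a (th B (2 ^ 0 / 2 ^ J₀) (wt L ω)) B := by
          refine start_min hR he hR0 hB (by positivity) ?_ fun i =>
            ⟨zero_le_one.trans (wt_bounds ω i).1, (wt_bounds ω i).2⟩
          rw [pow_zero, ← mul_div_assoc, mul_one, div_le_iff₀ (by positivity)]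
          exact h6
        refine ⟨B, h8, 0, ?_, ?_⟩
        · simp
        · simp
      rw [h7, Set.ncard_univ, Nat.card_eq_fintype_card]
      omega
    | succ j ih =>
      have hlam : (0 : ℝ) < 2 ^ j / 2 ^ J₀ := by positivity
      have hbad := bad_pairs hR he hμ hμ1 hn hd heM hMm (ν := ν) (lam := 2 ^ j / 2 ^ J₀)
        (lam' := 2 * (2 ^ j / 2 ^ J₀)) (J := J) (L := L) hν hlam (by linarith) h1 h3 h4 h5
        (Set.indicator (Set.range B) (1 : Fin n → ℝ))
        (Set.indicator (Set.range B) (1 : Fin n → ℝ))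
      rw [← hcard] at hbad
      have hst := chain_step (Ω := Fin n → Fin L) _
        (fun p q => ¬ GoodSeg a μ ν (10 * (2 ^ j / 2 ^ J₀) * Mm / (2 ^ J * e)) (2 ^ j / 2 ^ J₀) J
          (fun i => Set.indicator (Set.range B) (1 : Fin n → ℝ) i +
            2 ^ j / 2 ^ J₀ * wt L p i)
          (fun i => Set.indicator (Set.range B) (1 : Fin n → ℝ) i +
            2 * (2 ^ j / 2 ^ J₀) * wt L q i)) ih hbad
      have hsub : Set.ncard {y : Fin n → Fin L | ∃ x ∈ {ω : Fin n → Fin L |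
          NearMin a hB T₁ (fun i => Set.indicator (Set.range B) (1 : Fin n → ℝ) i +
            2 ^ j / 2 ^ J₀ * wt L ω i) j}, ¬ ¬ GoodSeg a μ ν
          (10 * (2 ^ j / 2 ^ J₀) * Mm / (2 ^ J * e)) (2 ^ j / 2 ^ J₀) J
          (fun i => Set.indicator (Set.range B) (1 : Fin n → ℝ) i +
            2 ^ j / 2 ^ J₀ * wt L x i)
          (fun i => Set.indicator (Set.range B) (1 : Fin n → ℝ) i +
            2 * (2 ^ j / 2 ^ J₀) * wt L y i)} ≤
          Set.ncard {ω : Fin n → Fin L |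
            NearMin a hB T₁ (fun i => Set.indicator (Set.range B) (1 : Fin n → ℝ) i +
              2 ^ (j + 1) / 2 ^ J₀ * wt L ω i) (j + 1)} := by
        refine Set.ncard_le_ncard ?_ (Set.toFinite _)
        rintro y ⟨x, hx, hxy⟩
        have h9 := step hlam (stage_th B hlam x y) (not_not.1 hxy) hx
        have h10 : (2 : ℝ) * (2 ^ j / 2 ^ J₀) = 2 ^ (j + 1) / 2 ^ J₀ := by
          rw [pow_succ]; ring
        rw [h10] at h9
        exact h9
      omega
  -- the last stage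
  have hJ := key J₀
  have h7 : (2 : ℝ) ^ J₀ / 2 ^ J₀ = 1 := div_self (by positivity)
  rw [h7] at hJ
  have hbad := bad_pairs hR he hμ hμ1 hn hd heM hMm (ν := ν) (lam := 1) (lam' := 4) (J := J)
    (L := L) hν one_pos (by norm_num) h1 h3 h4 h5 (Set.indicator (Set.range B) (1 : Fin n → ℝ))
    (fun _ => 0)
  rw [← hcard] at hbad
  have hst := chain_step (Ω := Fin n → Fin L) _
    (fun p q => ¬ GoodSeg a μ ν (10 * 1 * Mm / (2 ^ J * e)) 1 J
      (fun i => Set.indicator (Set.range B) (1 : Fin n → ℝ) i + 1 * wt L p i)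
      (fun i => 0 + 4 * wt L q i)) hJ hbad
  rw [← hcard]
  refine hst.trans (Nat.mul_le_mul_left _ (Set.ncard_le_ncard ?_ (Set.toFinite _)))
  rintro y ⟨x, hx, hxy⟩
  have hG := not_not.1 hxy
  have h8 : (fun i => 0 + 4 * wt L y i) = fun i => 4 * wt L y i := by
    funext i
    rw [zero_add]
  have h9 : NearMin a hB T₁ (fun i => 0 + 4 * wt L y i) (J₀ + 1) :=
    step one_pos (stage_last B x y) hG hx
  rw [h8] at h9
  refine ⟨fun B' k => ?_, ?_⟩
  · have h10 := hG.nd (2 ^ J) le_rfl B' k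
    have h11 : seg (fun i => Set.indicator (Set.range B) (1 : Fin n → ℝ) i + 1 * wt L x i)
        (fun i => 0 + 4 * wt L y i) (((2 ^ J : ℕ) : ℝ) / 2 ^ J) = fun i => 4 * wt L y i := by
      funext i
      rw [Nat.cast_pow, Nat.cast_ofNat, div_self (by positivity : (2 : ℝ) ^ J ≠ 0), seg]
      ring
    rw [h11] at h10
    exact h10
  · obtain ⟨v, hv, T, hT, hT'⟩ := h9
    refine ⟨v, hv, T, hT, ?_⟩
    push_cast at hT'
    exact hT'

end Pool.Agent.H.MP_0cad2f_co.qp
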