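import Pool.Agent.H.MP_0cad2f_co.qp.LP

/-!
The diameter of Gaussian-perturbed polytopes: the number of degenerate weights.
-/

set_option autoImplicit false

namespace Pool.Agent.H.MP_0cad2f_co.qp

open MeasureTheory Matrix Finset
open Pool.Agent.H.MP_0cad2f_co.helper47 (Vert graph gau noise n2 Idx mat nu vtx Good Simple)

variable {n d : ℕ}

/-- Counting along one coordinate. -/
theorem card_fibre {L : ℕ} (p q : (Fin n → Fin L) → Prop) (i : Fin n) {b : ℝ} (hb : 0 ≤ b)
    (h : ∀ ω : Fin n → Fin L,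
      ((Set.ncard {x : Fin L | p (Function.update ω i x)} : ℕ) : ℝ) ≤ b)
    (h' : ∀ (ω : Fin n → Fin L) (x : Fin L), p (Function.update ω i x) → q ω) :
    ((Set.ncard {ω | p ω} : ℕ) : ℝ) * L ≤ b * ((Set.ncard {ω | q ω} : ℕ) : ℝ) := by
  classical
  have hinv : Function.Involutive fun q : (Fin n → Fin L) × Fin L =>
      (Function.update q.1 i q.2, q.1 i) := by
    rintro ⟨ω, x⟩
    simp
  have e1 : ∑ ω : Fin n → Fin L, ∑ x : Fin L, (if p (Function.update ω i x) then (1 : ℝ) else 0)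
      = ∑ ω : Fin n → Fin L, ∑ _x : Fin L, (if p ω then (1 : ℝ) else 0) := by
    rw [← Finset.sum_product', ← Finset.sum_product']
    exact Equiv.sum_comp hinv.toPerm
      (fun q : (Fin n → Fin L) × Fin L => if p q.1 then (1 : ℝ) else 0)
  have e2 : ∑ ω : Fin n → Fin L, ∑ _x : Fin L, (if p ω then (1 : ℝ) else 0)
      = ((Set.ncard {ω | p ω} : ℕ) : ℝ) * L := by
    rw [Set.ncard_eq_toFinset_card', Set.toFinset_ofPred, ← Finset.sum_boole, Finset.sum_mul]
    refine Finset.sum_congr rfl fun ω _ => ?_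
    rw [Finset.sum_const, Finset.card_univ, Fintype.card_fin, nsmul_eq_mul, mul_comm]
  have e3 : ∀ ω : Fin n → Fin L, ∑ x : Fin L, (if p (Function.update ω i x) then (1 : ℝ) else 0)
      ≤ b * (if q ω then 1 else 0) := by
    intro ω
    by_cases hq : q ω
    · rw [if_pos hq, mul_one]
      refine le_trans (le_of_eq ?_) (h ω)
      rw [Set.ncard_eq_toFinset_card']
      simp
    · rw [if_neg hq, mul_zero]
      refine le_of_eq (Finset.sum_eq_zero fun x _ => if_neg fun hx => hq (h' ω x hx))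
  have e4 : ∑ ω : Fin n → Fin L, b * (if q ω then (1 : ℝ) else 0) =
      b * ((Set.ncard {ω | q ω} : ℕ) : ℝ) := by
    rw [← Finset.mul_sum, Set.ncard_eq_toFinset_card', Set.toFinset_ofPred, Finset.sum_boole]
  rw [← e2, ← e1, ← e4]
  exact Finset.sum_le_sum fun ω _ => e3 ω

/-- A short interval contains few points of an arithmetic progression. -/
theorem line_count {L : ℕ} (hL : 0 < L) {c κ η lam : ℝ} (hl : 0 < lam) (hκ : lam / 2 ≤ κ)
    (hη : 0 ≤ η) :
    ((Set.ncard {x : Fin L | |c + κ * (((x : ℕ) : ℝ) / (2 * L))| ≤ η} : ℕ) : ℝ) ≤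
      8 * η * L / lam + 1 := by
  classical
  have hL' : (0 : ℝ) < L := by exact_mod_cast hL
  have h0 : 0 ≤ 8 * η * L / lam := by positivity
  rw [Set.ncard_eq_toFinset_card', Set.toFinset_ofPred]
  set T : Finset (Fin L) :=
    Finset.univ.filter fun x : Fin L => |c + κ * (((x : ℕ) : ℝ) / (2 * L))| ≤ η with hT
  rcases T.eq_empty_or_nonempty with h | h
  · rw [h, Finset.card_empty]
    push_cast
    linarith
  set m := T.min' h
  set M := T.max' h
  have hsub : T ⊆ Finset.Icc m M := fun x hx =>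
    Finset.mem_Icc.2 ⟨T.min'_le x hx, T.le_max' x hx⟩
  have hmM : m ≤ M := T.min'_le M (T.max'_mem h)
  have hmM' : (m : ℕ) ≤ (M : ℕ) := hmM
  have hcard := Finset.card_le_card hsub
  rw [Fin.card_Icc] at hcard
  have hm := (Finset.mem_filter.1 (T.min'_mem h)).2
  have hM := (Finset.mem_filter.1 (T.max'_mem h)).2
  have h1 : κ * (((M : ℕ) : ℝ) / (2 * L)) - κ * (((m : ℕ) : ℝ) / (2 * L)) ≤ 2 * η := by
    have := (abs_le.1 hm).1
    have := (abs_le.1 hM).2
    linarith
  have h2 : κ * (((M : ℕ) : ℝ) - ((m : ℕ) : ℝ)) ≤ 4 * η * L := by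
    have h3 : κ * (((M : ℕ) : ℝ) / (2 * L)) - κ * (((m : ℕ) : ℝ) / (2 * L)) =
        κ * (((M : ℕ) : ℝ) - ((m : ℕ) : ℝ)) / (2 * L) := by ring
    rw [h3, div_le_iff₀ (by positivity)] at h1
    linarith
  have h4 : (0 : ℝ) ≤ ((M : ℕ) : ℝ) - ((m : ℕ) : ℝ) := by
    have : ((m : ℕ) : ℝ) ≤ ((M : ℕ) : ℝ) := by exact_mod_cast hmM'
    linarith
  have h5 : ((M : ℕ) : ℝ) - ((m : ℕ) : ℝ) ≤ 8 * η * L / lam := by
    rw [le_div_iff₀ hl]
    have := mul_le_mul_of_nonneg_right hκ h4
    nlinarith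
  have h6 : ((T.card : ℕ) : ℝ) ≤ ((M : ℕ) : ℝ) - ((m : ℕ) : ℝ) + 1 := by
    have h7 : T.card + (m : ℕ) ≤ (M : ℕ) + 1 := by omega
    have h8 : (((T.card + (m : ℕ) : ℕ) : ℝ)) ≤ (((M : ℕ) + 1 : ℕ) : ℝ) := by exact_mod_cast h7
    push_cast at h8
    linarith
  linarith

/-- The weights after a change of one coordinate. -/
theorem wt_update (b : Fin n → ℝ) (κ : ℝ) {L : ℕ} (ω : Fin n → Fin L) (j : Fin n) (x : Fin L) :
    (fun l => b l + κ * wt L (Function.update ω j x) l) =
      Function.update (fun l => b l + κ * wt L ω l) j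
        (b j + κ * (1 + ((x : ℕ) : ℝ) / (2 * L))) := by
  funext l
  by_cases h : l = j
  · subst h
    simp [wt]
  · simp [wt, Function.update_of_ne h]

theorem mul_wt_same {a : Fin n → Fin d → ℝ} {B : Idx n d} (hB : (mat a B).det ≠ 0) (i : Fin d)
    (b : Fin n → ℝ) (κ : ℝ) {L : ℕ} (ω : Fin n → Fin L) (x : Fin L) :
    mul a B (fun l => b l + κ * wt L (Function.update ω (B i) x) l) i =
      (mul a B (fun l => b l + κ * wt L ω l) i - κ * (((ω (B i) : ℕ) : ℝ) / (2 * L))) +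
        κ * (((x : ℕ) : ℝ) / (2 * L)) := by
  rw [wt_update, mul_update_same hB]
  simp only [wt]
  ring

theorem mul_wt_ne {a : Fin n → Fin d → ℝ} {B : Idx n d} (hB : (mat a B).det ≠ 0) {i j : Fin d}
    (hij : j ≠ i) (b : Fin n → ℝ) (κ : ℝ) {L : ℕ} (ω : Fin n → Fin L) (x : Fin L) :
    mul a B (fun l => b l + κ * wt L (Function.update ω (B j) x) l) i =
      mul a B (fun l => b l + κ * wt L ω l) i := by
  rw [wt_update, mul_update_ne hB _ hij]

theorem two_count {a : Fin n → Fin d → ℝ} {B : Idx n d} (hB : (mat a B).det ≠ 0) {i j : Fin d}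
    (hij : i ≠ j) {lam κ η : ℝ} (hl : 0 < lam) (hκ : lam / 2 ≤ κ) (hη : 0 ≤ η) {L : ℕ}
    (hL : 0 < L) (b : Fin n → ℝ) :
    ((Set.ncard {ω : Fin n → Fin L | |mul a B (fun l => b l + κ * wt L ω l) i| ≤ η ∧
        |mul a B (fun l => b l + κ * wt L ω l) j| ≤ η} : ℕ) : ℝ) * (L : ℝ) ^ 2 ≤
      (8 * η * L / lam + 1) ^ 2 * (L : ℝ) ^ n := by
  have hL' : (0 : ℝ) < L := by exact_mod_cast hL
  have hb : 0 ≤ 8 * η * L / lam + 1 := by positivity
  have h1 := card_fibre (n := n) (L := L)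
    (fun ω => |mul a B (fun l => b l + κ * wt L ω l) i| ≤ η ∧
        |mul a B (fun l => b l + κ * wt L ω l) j| ≤ η)
    (fun ω => |mul a B (fun l => b l + κ * wt L ω l) j| ≤ η) (B i) hb
    (fun ω => by
      refine le_trans ?_ (line_count hL (c := mul a B (fun l => b l + κ * wt L ω l) i -
        κ * (((ω (B i) : ℕ) : ℝ) / (2 * L))) hl hκ hη)
      refine Nat.cast_le.2 (Set.ncard_le_ncard (fun x hx => ?_) (Set.toFinite _))
      have hx1 := hx.1
      rw [mul_wt_same hB] at hx1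
      exact hx1)
    (fun ω x hx => by
      have hx1 := hx.2
      rw [mul_wt_ne hB hij] at hx1
      exact hx1)
  have h2 := card_fibre (n := n) (L := L)
    (fun ω => |mul a B (fun l => b l + κ * wt L ω l) j| ≤ η) (fun _ => True) (B j) hb
    (fun ω => by
      refine le_trans ?_ (line_count hL (c := mul a B (fun l => b l + κ * wt L ω l) j -
        κ * (((ω (B j) : ℕ) : ℝ) / (2 * L))) hl hκ hη)
      refine Nat.cast_le.2 (Set.ncard_le_ncard (fun x hx => ?_) (Set.toFinite _))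
      have hx1 : |_| ≤ η := hx
      rw [mul_wt_same hB] at hx1
      exact hx1)
    (fun _ _ _ => trivial)
  have h3 : ((Set.ncard {ω : Fin n → Fin L | True} : ℕ) : ℝ) = (L : ℝ) ^ n := by
    rw [show {ω : Fin n → Fin L | True} = Set.univ from rfl, Set.ncard_univ]
    simp
  rw [h3] at h2
  calc _ = ((Set.ncard {ω : Fin n → Fin L | |mul a B (fun l => b l + κ * wt L ω l) i| ≤ η ∧
        |mul a B (fun l => b l + κ * wt L ω l) j| ≤ η} : ℕ) : ℝ) * L * L := by ring
    _ ≤ (8 * η * L / lam + 1) *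
        ((Set.ncard {ω : Fin n → Fin L |
          |mul a B (fun l => b l + κ * wt L ω l) j| ≤ η} : ℕ) : ℝ) * L :=
      mul_le_mul_of_nonneg_right h1 hL'.le
    _ = (8 * η * L / lam + 1) *
        (((Set.ncard {ω : Fin n → Fin L |
          |mul a B (fun l => b l + κ * wt L ω l) j| ≤ η} : ℕ) : ℝ) * L) := by ring
    _ ≤ (8 * η * L / lam + 1) * ((8 * η * L / lam + 1) * (L : ℝ) ^ n) :=
      mul_le_mul_of_nonneg_left h2 hb
    _ = (8 * η * L / lam + 1) ^ 2 * (L : ℝ) ^ n := by ring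

theorem nd_count {a : Fin n → Fin d → ℝ} {B : Idx n d} (hB : (mat a B).det ≠ 0) (i : Fin d)
    {κ : ℝ} (hκ : 0 < κ) {L : ℕ} (b : Fin n → ℝ) :
    ((Set.ncard {ω : Fin n → Fin L | mul a B (fun l => b l + κ * wt L ω l) i = 0} : ℕ) : ℝ) * L ≤
      (L : ℝ) ^ n := by
  have h2 := card_fibre (n := n) (L := L)
    (fun ω => mul a B (fun l => b l + κ * wt L ω l) i = 0) (fun _ => True) (B i)
    (zero_le_one (α := ℝ))
    (fun ω => by
      have h1 : Set.ncard {x : Fin L |
          mul a B (fun l => b l + κ * wt L (Function.update ω (B i) x) l) i = 0} ≤ 1 := by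
        rw [Set.ncard_le_one (Set.toFinite _)]
        intro x hx y hy
        have hx' : mul a B (fun l => b l + κ * wt L (Function.update ω (B i) x) l) i = 0 := hx
        have hy' : mul a B (fun l => b l + κ * wt L (Function.update ω (B i) y) l) i = 0 := hy
        rw [mul_wt_same hB] at hx' hy'
        have hL : (0 : ℝ) < L := by
          have : 0 < L := lt_of_le_of_lt (Nat.zero_le _) x.isLt
          exact_mod_cast this
        have h3 : κ * (((x : ℕ) : ℝ) / (2 * L)) = κ * (((y : ℕ) : ℝ) / (2 * L)) := by linarith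
        have h4 := mul_left_cancel₀ hκ.ne' h3
        have h5 : ((x : ℕ) : ℝ) = ((y : ℕ) : ℝ) := by
          rwa [div_left_inj' (by positivity)] at h4
        exact Fin.ext (by exact_mod_cast h5)
      exact_mod_cast h1)
    (fun _ _ _ => trivial)
  have h3 : ((Set.ncard {ω : Fin n → Fin L | True} : ℕ) : ℝ) = (L : ℝ) ^ n := by
    rw [show {ω : Fin n → Fin L | True} = Set.univ from rfl, Set.ncard_univ]
    simp
  rw [h3, one_mul] at h2
  exact h2

end Pool.Agent.H.MP_0cad2f_co.qp
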