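import Pool.Agent.H.MP_0cad2f_co.qp.Adj
import Pool.Agent.H.MP_0cad2f_co.qp.Face

/-!
The diameter of Gaussian-perturbed polytopes: the crude bound by the number of bases.
-/

set_option autoImplicit false

namespace Pool.Agent.H.MP_0cad2f_co.qp

open MeasureTheory Matrix Finset
open Pool.Agent.H.MP_0cad2f_co.helper47 (Vert graph gau noise n2 Idx mat nu vtx Good Simple)
open Pool.Agent.H.MP_0cad2f_co.helper29 (toVert)

variable {n d : ℕ}

private theorem crude_card_Idx : Fintype.card (Idx n d) ≤ n ^ d := by
  have h : Function.Injective (fun B : Idx n d => (B : Fin d → Fin n)) := DFunLike.coe_injective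
  have h2 := Fintype.card_le_of_injective _ h
  rwa [Fintype.card_fun, Fintype.card_fin, Fintype.card_fin] at h2

open Classical in
/-- The number of feasible bases with a smaller value. -/
private noncomputable def crudeN (a : Fin n → Fin d → ℝ) (θ : Fin n → ℝ) (B : Idx n d) : ℕ :=
  (Finset.univ.filter fun C : Idx n d => Good a C ∧ obj a θ (vtx a C) < obj a θ (vtx a B)).card

private theorem crudeN_lt {a : Fin n → Fin d → ℝ} {θ : Fin n → ℝ} {B C : Idx n d}
    (hC : Good a C) (h : obj a θ (vtx a C) < obj a θ (vtx a B)) :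
    crudeN a θ C < crudeN a θ B := by
  classical
  unfold crudeN
  refine Finset.card_lt_card ?_
  rw [Finset.ssubset_iff_of_subset]
  · refine ⟨C, ?_, ?_⟩
    · rw [Finset.mem_filter]
      exact ⟨Finset.mem_univ _, hC, h⟩
    · rw [Finset.mem_filter]
      rintro ⟨-, -, h1⟩
      exact lt_irrefl _ h1
  · intro D hD
    rw [Finset.mem_filter] at hD ⊢
    exact ⟨hD.1, hD.2.1, hD.2.2.trans h⟩

private theorem crude_obj {a : Fin n → Fin d → ℝ} (hs : Simple a) {B B' : Idx n d}
    (hB : Good a B) (hB' : Good a B') (hne : B ≠ B') :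
    obj a (Set.indicator (Set.range B') 1) (vtx a B') <
      obj a (Set.indicator (Set.range B') 1) (vtx a B) := by
  have h0 : obj a (Set.indicator (Set.range B') 1) (vtx a B') = 0 := by
    unfold obj
    refine Finset.sum_eq_zero fun i _ => ?_
    by_cases hi : i ∈ Set.range B'
    · obtain ⟨k, rfl⟩ := hi
      rw [sl_basis hB'.1 k, mul_zero]
    · rw [Set.indicator_of_notMem hi, zero_mul]
  have h1 : ∀ i, 0 ≤ Set.indicator (Set.range B') (1 : Fin n → ℝ) i * sl a (vtx a B) i :=
    fun i => _root_.mul_nonneg (Set.indicator_nonneg (fun _ _ => zero_le_one) i) (sl_nonneg hB i)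
  rw [h0]
  refine lt_of_le_of_ne (Finset.sum_nonneg fun i _ => h1 i) fun h2 => hne ?_
  have h3 := (Finset.sum_eq_zero_iff_of_nonneg fun i _ => h1 i).1 h2.symm
  have h4 : vtx a B = vtx a B' := by
    refine helper47.eq_vtx hB'.1 fun k => ?_
    have h5 := h3 (B' k) (Finset.mem_univ _)
    rw [Set.indicator_of_mem (Set.mem_range_self k), Pi.one_apply, one_mul, sl] at h5
    linarith
  exact helper29.vtx_inj hs hB hB' h4

private theorem crude_path {a : Fin n → Fin d → ℝ} (hdet : ∀ B : Idx n d, (mat a B).det ≠ 0)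
    (hs : Simple a) {B' : Idx n d} (hB' : Good a B') :
    ∀ (N : ℕ) (B : Idx n d) (hB : Good a B),
      crudeN a (Set.indicator (Set.range B') 1) B ≤ N →
      (graph a).edist (toVert a ⟨B, hB⟩) (toVert a ⟨B', hB'⟩) ≤ (N : ℕ∞) := by
  intro N
  induction N with
  | zero =>
    intro B hB hN
    by_cases hBB : B = B'
    · subst hBB
      simp
    · have := crudeN_lt hB' (crude_obj hs hB hB' hBB)
      omega
  | succ N ih =>
    intro B hB hN
    by_cases hBB : B = B'
    · subst hBB
      simp
    · obtain ⟨C, hC, -, h1, k, h2⟩ := face_step hdet hs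
        (θ := Set.indicator (Set.range B') 1) (fun i => Set.indicator_nonneg
          (fun _ _ => zero_le_one) i) (S := ∅) hB hB' (Finset.empty_subset _)
        (Finset.empty_subset _) (crude_obj hs hB hB' hBB)
      have h3 := ih C hC (by
        have := crudeN_lt hC h1
        omega)
      have h4 := edist_le_one hs hB hC h2
      refine (SimpleGraph.edist_triangle (v := toVert a ⟨C, hC⟩)).trans ?_
      rw [Nat.cast_add, Nat.cast_one, add_comm]
      exact add_le_add h3 h4

theorem crude {a : Fin n → Fin d → ℝ} (hdet : ∀ B : Idx n d, (mat a B).det ≠ 0)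
    (hs : Simple a) : (graph a).ediam ≤ ((n ^ d : ℕ) : ℕ∞) := by
  classical
  refine SimpleGraph.ediam_le_of_edist_le fun u v => ?_
  obtain ⟨⟨B, hB⟩, rfl⟩ := helper29.toVert_surjective a u
  obtain ⟨⟨B', hB'⟩, rfl⟩ := helper29.toVert_surjective a v
  refine (crude_path hdet hs hB' _ B hB le_rfl).trans ?_
  have h1 : crudeN a (Set.indicator (Set.range B') 1) B ≤ n ^ d := by
    refine le_trans ?_ crude_card_Idx
    exact Finset.card_le_univ _
  exact_mod_cast h1

theorem ediam_small (a : Fin n → Fin d → ℝ) (h : n ≤ d) : (graph a).ediam = 0 := by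
  refine le_antisymm (SimpleGraph.ediam_le_of_edist_le fun u v => ?_) bot_le
  obtain ⟨⟨B, hB⟩, rfl⟩ := helper29.toVert_surjective a u
  obtain ⟨⟨B', hB'⟩, rfl⟩ := helper29.toVert_surjective a v
  have h1 : B = B' := by
    have hd : d ≤ n := by
      have := Fintype.card_le_of_injective _ B.injective
      simpa using this
    have hdn : d = n := le_antisymm hd h
    subst hdn
    have h2 : ∀ C : Idx d d, Set.range C = Set.univ := fun C =>
      (Finite.injective_iff_surjective.1 C.injective).range_eq
    exact OrderEmbedding.range_inj.1 ((h2 B).trans (h2 B').symm)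
  subst h1
  simp

end Pool.Agent.H.MP_0cad2f_co.qp
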