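import Pool.Agent.H.MP_0cad2f_co.helper29.Cover

/-!
The diameter of Gaussian-perturbed polytopes: definitions.

`sl a x i` is the slack of the `i`-th constraint at `x`, `tot` the sum of all slacks, `obj a θ` the
weighted sum of the slacks (to be minimised), `mul a B θ k` the multiplier of the `k`-th constraint
of the basis `B`.
-/

set_option autoImplicit false

namespace Pool.Agent.H.MP_0cad2f_co.qp

open MeasureTheory Matrix Finset
open Pool.Agent.H.MP_0cad2f_co.helper47 (Vert graph gau noise n2 Idx mat nu vtx Good Simple)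

variable {n d : ℕ}

/-- The slack of a constraint at a point. -/
def sl (a : Fin n → Fin d → ℝ) (x : Fin d → ℝ) (i : Fin n) : ℝ := 1 - a i ⬝ᵥ x

/-- The sum of all slacks. -/
def tot (a : Fin n → Fin d → ℝ) (x : Fin d → ℝ) : ℝ := ∑ i, sl a x i

/-- The objective: the weighted sum of the slacks. -/
def obj (a : Fin n → Fin d → ℝ) (θ : Fin n → ℝ) (x : Fin d → ℝ) : ℝ := ∑ i, θ i * sl a x i

/-- The multipliers of a basis. -/
noncomputable def mul (a : Fin n → Fin d → ℝ) (B : Idx n d) (θ : Fin n → ℝ) (k : Fin d) : ℝ :=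
  ∑ i, θ i * (a i ⬝ᵥ nu a B k)

/-- The set of constraints of a basis. -/
def idx (B : Idx n d) : Finset (Fin n) := Finset.univ.map B.toEmbedding

/-- `B` is an optimal feasible basis. -/
def IsMin (a : Fin n → Fin d → ℝ) (θ : Fin n → ℝ) (B : Idx n d) : Prop :=
  Good a B ∧ ∀ B' : Idx n d, Good a B' → obj a θ (vtx a B) ≤ obj a θ (vtx a B')

/-- The segment between two objectives. -/
def seg (θ θ' : Fin n → ℝ) (t : ℝ) (i : Fin n) : ℝ := (1 - t) * θ i + t * θ' i

/-- The random weights. -/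
noncomputable def wt (L : ℕ) (ω : Fin n → Fin L) (i : Fin n) : ℝ := 1 + ((ω i : ℕ) : ℝ) / (2 * L)

/-- The regularity of the constraints: bounded norms, all `d` constraints are independent, all
slacks and dual vectors are bounded, and every vertex has at most `d - 1` nearly tight
constraints. -/
structure Reg (a : Fin n → Fin d → ℝ) (R e μ : ℝ) : Prop where
  norm_le : ∀ i, n2 (a i) ≤ R
  det_ne : ∀ B : Idx n d, (mat a B).det ≠ 0
  nu_le : ∀ (B : Idx n d) (k : Fin d), n2 (nu a B k) ≤ 1 / e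
  sl_ge : ∀ (B : Idx n d) (i : Fin n), i ∉ Set.range B → e ≤ |sl a (vtx a B) i|
  near_le : ∀ B : Idx n d, Good a B →
    Set.ncard {i | i ∉ Set.range B ∧ sl a (vtx a B) i ≤ μ * tot a (vtx a B)} ≤ d - 1

/-- Two consecutive objectives. -/
structure Stage (θ θ' : Fin n → ℝ) (lam : ℝ) : Prop where
  nonneg : ∀ i, 0 ≤ θ i
  lo : ∀ i, lam / 2 ≤ θ' i - θ i
  hi : ∀ i, θ' i - θ i ≤ 9 * lam

/-- A good segment of objectives: at all dyadic times near optimal vertices are isolated, at the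
finest times the objective is nondegenerate and at most one multiplier is small. -/
structure GoodSeg (a : Fin n → Fin d → ℝ) (μ ν η lam : ℝ) (J : ℕ) (θ θ' : Fin n → ℝ) : Prop where
  iso : ∀ m ≤ J, ∀ k : ℕ, k ≤ 2 ^ m → ∀ v x : Idx n d, IsMin a (seg θ θ' ((k : ℝ) / 2 ^ m)) v →
    Good a x → obj a (seg θ θ' ((k : ℝ) / 2 ^ m)) (vtx a x) ≤
      obj a (seg θ θ' ((k : ℝ) / 2 ^ m)) (vtx a v) + 9 * ν / 2 ^ m * lam * tot a (vtx a v) →
    ∀ l, |sl a (vtx a x) l - sl a (vtx a v) l| ≤ μ * tot a (vtx a v)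
  two : ∀ k : ℕ, k ≤ 2 ^ J → ∀ (B : Idx n d) (i j : Fin d), i ≠ j →
    η < |mul a B (seg θ θ' ((k : ℝ) / 2 ^ J)) i| ∨ η < |mul a B (seg θ θ' ((k : ℝ) / 2 ^ J)) j|
  nd : ∀ k : ℕ, k ≤ 2 ^ J → ∀ (B : Idx n d) (i : Fin d), mul a B (seg θ θ' ((k : ℝ) / 2 ^ J)) i ≠ 0

/-- The length of local paths. -/
def hk : ℕ → ℕ → ℕ
  | 0, _ => 0
  | _ + 1, 0 => 0
  | f + 1, m + 1 => 2 * hk (f + 1) ((m + 1) / 2) + hk f m + 1
termination_by f m => (f, m)
decreasing_by
  all_goals simp_wf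
  all_goals first
    | (apply Prod.Lex.right; omega)
    | (apply Prod.Lex.left; omega)

/-- The bound for one hop. -/
def HH (d : ℕ) : ℕ := 4 * d ^ 3 * d ^ Nat.log 2 d

end Pool.Agent.H.MP_0cad2f_co.qp
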