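import Pool.Agent.H.MP_0cad2f_co.qp.Defs

/-!
Bases as sets of constraints.
-/

set_option autoImplicit false

namespace Pool.Agent.H.MP_0cad2f_co.qp

open Matrix Finset
open Pool.Agent.H.MP_0cad2f_co.helper47 (Vert graph gau noise n2 Idx mat nu vtx Good Simple)

variable {n d : ℕ}

theorem mem_idx {B : Idx n d} {i : Fin n} : i ∈ idx B ↔ i ∈ Set.range B := by
  unfold idx
  rw [Finset.mem_map, Set.mem_range]
  constructor
  · rintro ⟨k, -, rfl⟩
    exact ⟨k, rfl⟩
  · rintro ⟨k, rfl⟩
    exact ⟨k, Finset.mem_univ k, rfl⟩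

theorem card_idx (B : Idx n d) : (idx B).card = d := by
  unfold idx
  rw [Finset.card_map, Finset.card_univ, Fintype.card_fin]

theorem idx_injective : Function.Injective (idx : Idx n d → Finset (Fin n)) := by
  intro B B' h
  have h1 : Set.range B = Set.range B' := by
    ext i
    rw [← mem_idx, ← mem_idx, h]
  exact OrderEmbedding.range_inj.1 h1

theorem exists_idx_eq (T : Finset (Fin n)) (hT : T.card = d) : ∃ B : Idx n d, idx B = T := by
  refine ⟨T.orderEmbOfFin hT, ?_⟩
  ext i
  rw [mem_idx, Finset.range_orderEmbOfFin, Finset.mem_coe]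

theorem card_Idx_le : Fintype.card (Idx n d) ≤ n ^ d := by
  have h1 : Function.Injective (fun B : Idx n d => (fun k : Fin d => B k)) := by
    intro B B' h
    ext k
    exact congrArg Fin.val (congrFun h k)
  have h2 := Fintype.card_le_of_injective _ h1
  rwa [Fintype.card_fun, Fintype.card_fin, Fintype.card_fin] at h2

end Pool.Agent.H.MP_0cad2f_co.qp
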