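import Pool.Agent.H.MP_0cad2f_co.qp.Defs

/-!
The isolation lemma: the value of a point is affine in every weight, so that the slack of the
optimal point is antitone in its weight.
-/

set_option autoImplicit false

namespace Pool.Agent.H.MP_0cad2f_co.qp

variable {n d : ℕ}

/-- The value of a point. -/
def val {V : Type*} (s : V → Fin n → ℝ) (θ : Fin n → ℝ) (x : V) : ℝ := ∑ i, θ i * s x i

/-- `v` minimises the value. -/
def IsArgmin {V : Type*} (s : V → Fin n → ℝ) (θ : Fin n → ℝ) (v : V) : Prop :=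
  ∀ x, val s θ v ≤ val s θ x

theorem val_update {V : Type*} (s : V → Fin n → ℝ) (θ : Fin n → ℝ) (i : Fin n) (t : ℝ) (x : V) :
    val s (Function.update θ i t) x = val s θ x + (t - θ i) * s x i := by
  unfold val
  have h : ∀ j, Function.update θ i t j * s x j =
      θ j * s x j + if j = i then (t - θ i) * s x i else 0 := by
    intro j
    rcases eq_or_ne j i with rfl | hj
    · rw [Function.update_self, if_pos rfl]
      ring
    · rw [Function.update_of_ne hj, if_neg hj, add_zero]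
  simp only [h, Finset.sum_add_distrib, Finset.sum_ite_eq', Finset.mem_univ, if_true]

theorem anti_step {V : Type*} {s : V → Fin n → ℝ} {θ : Fin n → ℝ} {i : Fin n} {t t' : ℝ}
    (h : t < t') {v v' : V} (hv : IsArgmin s (Function.update θ i t) v)
    (hv' : IsArgmin s (Function.update θ i t') v') : s v' i ≤ s v i := by
  have h1 := hv v'
  have h2 := hv' v
  rw [val_update, val_update] at h1 h2
  by_contra h3
  have h3 : s v i < s v' i := not_le.1 h3
  nlinarith

theorem iso_right {V : Type*} {s : V → Fin n → ℝ} {θ : Fin n → ℝ} {i : Fin n} {v x v' : V}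
    {δ ρ m : ℝ} (hv : IsArgmin s θ v) (hx : val s θ x ≤ val s θ v + δ) (hρ : 0 < ρ)
    (hm : 2 * δ ≤ ρ * m) (hlt : s x i + m < s v i)
    (hv' : IsArgmin s (Function.update θ i (θ i + ρ)) v') : s v' i ≤ s v i - m / 2 := by
  have h1 := hv v'
  have h2 := hv' x
  rw [val_update, val_update] at h2
  by_contra h3
  have h3 : s v i - m / 2 < s v' i := not_le.1 h3
  have h4 : ρ * (s x i + m / 2) < ρ * s v' i := mul_lt_mul_of_pos_left (by linarith) hρ
  linarith

theorem iso_left {V : Type*} {s : V → Fin n → ℝ} {θ : Fin n → ℝ} {i : Fin n} {v x v' : V}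
    {δ ρ m : ℝ} (hv : IsArgmin s θ v) (hx : val s θ x ≤ val s θ v + δ) (hρ : 0 < ρ)
    (hm : 2 * δ ≤ ρ * m) (hlt : s v i + m < s x i)
    (hv' : IsArgmin s (Function.update θ i (θ i - ρ)) v') : s v i + m / 2 ≤ s v' i := by
  have h1 := hv v'
  have h2 := hv' x
  rw [val_update, val_update] at h2
  by_contra h3
  have h3 : s v' i < s v i + m / 2 := not_le.1 h3
  have h4 : ρ * s v' i < ρ * (s x i - m / 2) := mul_lt_mul_of_pos_left (by linarith) hρ
  linarith

theorem sum_drop {L q : ℕ} {ψ : ℤ → ℝ} {A r : ℝ} (hA : ∀ k, A ≤ ψ k) (hr : ∀ k, ψ k ≤ A + r) :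
    ∑ k ∈ Finset.range L, (ψ k - ψ (k + q)) ≤ q * r := by
  induction q with
  | zero => simp
  | succ q ih =>
    have h1 : ∑ k ∈ Finset.range L, (ψ k - ψ (k + (q + 1 : ℕ))) =
        ∑ k ∈ Finset.range L, (ψ k - ψ (k + q)) +
          ∑ k ∈ Finset.range L, (ψ ((k : ℕ) + q) - ψ (((k + 1 : ℕ) : ℤ) + q)) := by
      rw [← Finset.sum_add_distrib]
      refine Finset.sum_congr rfl fun k _ => ?_
      have h2 : ((k : ℤ) + ((q + 1 : ℕ) : ℤ)) = (((k + 1 : ℕ) : ℤ) + q) := by
        push_cast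
        ring
      rw [h2]
      ring
    rw [h1, Finset.sum_range_sub' (fun k : ℕ => ψ ((k : ℤ) + q)) L]
    have h3 := hr ((0 : ℕ) + q : ℤ)
    have h4 := hA ((L : ℤ) + q)
    push_cast at *
    linarith

open Classical in
theorem count_drop {L q : ℕ} {ψ : ℤ → ℝ} (hψ : Antitone ψ) {A r c : ℝ} (hc : 0 ≤ c)
    (hA : ∀ k, A ≤ ψ k) (hr : ∀ k, ψ k ≤ A + r) :
    ((((Finset.range L).filter fun k : ℕ => c ≤ ψ k - ψ (k + q)).card : ℕ) : ℝ) * c ≤
      q * r := by
  have _ := hc
  refine le_trans ?_ (sum_drop (L := L) (q := q) hA hr)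
  rw [← nsmul_eq_mul]
  calc ((Finset.range L).filter fun k : ℕ => c ≤ ψ k - ψ (k + q)).card • c
      ≤ ∑ k ∈ (Finset.range L).filter fun k : ℕ => c ≤ ψ k - ψ (k + q), (ψ k - ψ (k + q)) :=
        Finset.card_nsmul_le_sum _ _ _ fun k hk => (Finset.mem_filter.1 hk).2
    _ ≤ ∑ k ∈ Finset.range L, (ψ k - ψ (k + q)) := by
        refine Finset.sum_le_sum_of_subset_of_nonneg (Finset.filter_subset _ _) fun k _ _ => ?_
        have : ψ ((k : ℤ) + q) ≤ ψ k := hψ (by omega)
        linarith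

open Classical in
theorem count_drop' {L q : ℕ} {ψ : ℤ → ℝ} (hψ : Antitone ψ) {A r c : ℝ} (hc : 0 ≤ c)
    (hA : ∀ k, A ≤ ψ k) (hr : ∀ k, ψ k ≤ A + r) :
    ((((Finset.range L).filter fun k : ℕ => c ≤ ψ (k - q) - ψ k).card : ℕ) : ℝ) * c ≤
      q * r := by
  have h := count_drop (L := L) (q := q) (ψ := fun k => ψ (k - q))
    (fun x y h => hψ (by omega)) hc (fun k => hA _) (fun k => hr _)
  simpa only [add_sub_cancel_right] using h

end Pool.Agent.H.MP_0cad2f_co.qp
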