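import Pool.Agent.H.MP_0cad2f_co.qp.Iso

/-!
The isolation lemma, counting form: for most weights every near optimal point has almost the same
slacks as the optimal point.
-/

set_option autoImplicit false

namespace Pool.Agent.H.MP_0cad2f_co.qp

variable {n d : ℕ}

/-- Exchanging a coordinate. -/
theorem exchange_invol {L : ℕ} (i : Fin n) :
    Function.Involutive fun q : (Fin n → Fin L) × Fin L => (Function.update q.1 i q.2, q.1 i) := by
  rintro ⟨ω, x⟩
  simp

/-- Fibrewise counting. -/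
theorem card_update {L : ℕ} (p : (Fin n → Fin L) → Prop) (i : Fin n) (b : ℝ)
    (h : ∀ ω : Fin n → Fin L,
      ((Set.ncard {x : Fin L | p (Function.update ω i x)} : ℕ) : ℝ) ≤ b) :
    ((Set.ncard {ω | p ω} : ℕ) : ℝ) * L ≤ b * (L : ℝ) ^ n := by
  classical
  have e1 : ∑ ω : Fin n → Fin L, ∑ x : Fin L, (if p (Function.update ω i x) then (1 : ℝ) else 0)
      = ∑ ω : Fin n → Fin L, ∑ _x : Fin L, (if p ω then (1 : ℝ) else 0) := by
    rw [← Finset.sum_product', ← Finset.sum_product']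
    exact Equiv.sum_comp (exchange_invol (L := L) i).toPerm
      (fun q : (Fin n → Fin L) × Fin L => if p q.1 then (1 : ℝ) else 0)
  have e2 : ∑ ω : Fin n → Fin L, ∑ _x : Fin L, (if p ω then (1 : ℝ) else 0)
      = ((Set.ncard {ω | p ω} : ℕ) : ℝ) * L := by
    rw [Set.ncard_eq_toFinset_card', Set.toFinset_ofPred, ← Finset.sum_boole, Finset.sum_mul]
    refine Finset.sum_congr rfl fun ω _ => ?_
    rw [Finset.sum_const, Finset.card_univ, Fintype.card_fin, nsmul_eq_mul, mul_comm]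
  have e3 : ∀ ω : Fin n → Fin L, ∑ x : Fin L, (if p (Function.update ω i x) then (1 : ℝ) else 0)
      ≤ b := by
    intro ω
    refine le_trans (le_of_eq ?_) (h ω)
    rw [Set.ncard_eq_toFinset_card']
    simp
  rw [← e2, ← e1]
  calc ∑ ω : Fin n → Fin L, ∑ x : Fin L, (if p (Function.update ω i x) then (1 : ℝ) else 0)
      ≤ ∑ _ω : Fin n → Fin L, b := Finset.sum_le_sum fun ω _ => e3 ω
    _ = b * (L : ℝ) ^ n := by
      simp [mul_comm]

/-- The logarithmic drop, to the right. -/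
theorem drop_right {V : Type*} {s : V → Fin n → ℝ} (hs : ∀ x i, 0 ≤ s x i) {e μ δ ρ : ℝ}
    (he : 0 < e) (hMe : ∀ x, e ≤ ∑ i, s x i) (hμ : 0 < μ) (hρ : 0 < ρ) (hδ : 2 * δ ≤ ρ * μ)
    {θ : Fin n → ℝ} {i : Fin n} {v x v' : V} (hv : IsArgmin s θ v)
    (hx : val s θ x ≤ val s θ v + δ * ∑ j, s v j) (hlt : s x i + μ * ∑ j, s v j < s v i)
    (hv' : IsArgmin s (Function.update θ i (θ i + ρ)) v') :
    μ / 8 ≤ Real.log (s v i + e) - Real.log (s v' i + e) := by
  have hM : e ≤ ∑ j, s v j := hMe v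
  set M : ℝ := ∑ j, s v j with hMdef
  have hM0 : 0 < M := lt_of_lt_of_le he hM
  have hle : s v i ≤ M := Finset.single_le_sum (fun j _ => hs v j) (Finset.mem_univ i)
  have h1 : s v' i ≤ s v i - μ * M / 2 :=
    iso_right hv hx hρ (by nlinarith) hlt hv'
  have h0 : 0 < s v' i + e := by linarith [hs v' i]
  have h2 : 0 < s v i + e := by linarith [hs v i]
  have h3 : Real.log ((s v' i + e) / (s v i + e)) ≤ (s v' i + e) / (s v i + e) - 1 :=
    Real.log_le_sub_one_of_pos (div_pos h0 h2)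
  rw [Real.log_div h0.ne' h2.ne'] at h3
  have h4 : (s v' i + e) / (s v i + e) ≤ 1 - μ / 8 := by
    rw [div_le_iff₀ h2]
    nlinarith
  linarith

/-- The logarithmic drop, to the left. -/
theorem drop_left {V : Type*} {s : V → Fin n → ℝ} (hs : ∀ x i, 0 ≤ s x i) {e μ δ ρ : ℝ}
    (he : 0 < e) (hMe : ∀ x, e ≤ ∑ i, s x i) (hμ : 0 < μ) (hμ1 : μ ≤ 1) (hρ : 0 < ρ)
    (hδ : 2 * δ ≤ ρ * μ)
    {θ : Fin n → ℝ} {i : Fin n} {v x v' : V} (hv : IsArgmin s θ v)
    (hx : val s θ x ≤ val s θ v + δ * ∑ j, s v j) (hlt : s v i + μ * ∑ j, s v j < s x i)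
    (hv' : IsArgmin s (Function.update θ i (θ i - ρ)) v') :
    μ / 8 ≤ Real.log (s v' i + e) - Real.log (s v i + e) := by
  have hM : e ≤ ∑ j, s v j := hMe v
  set M : ℝ := ∑ j, s v j with hMdef
  have hM0 : 0 < M := lt_of_lt_of_le he hM
  have hle : s v i ≤ M := Finset.single_le_sum (fun j _ => hs v j) (Finset.mem_univ i)
  have h1 : s v i + μ * M / 2 ≤ s v' i :=
    iso_left hv hx hρ (by nlinarith) hlt hv'
  have h0 : 0 < s v' i + e := by linarith [hs v' i]
  have h2 : 0 < s v i + e := by linarith [hs v i]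
  have h3 : Real.log ((s v i + e) / (s v' i + e)) ≤ (s v i + e) / (s v' i + e) - 1 :=
    Real.log_le_sub_one_of_pos (div_pos h2 h0)
  rw [Real.log_div h2.ne' h0.ne'] at h3
  have h4 : (s v i + e) / (s v' i + e) ≤ 1 - μ / 8 := by
    rw [div_le_iff₀ h0]
    have h5 : (s v i + e) ≤ 2 * M := by linarith
    have h6 : (1 - μ / 8) * (s v i + e + μ * M / 2) ≤ (1 - μ / 8) * (s v' i + e) :=
      mul_le_mul_of_nonneg_left (by linarith) (by linarith)
    have h7 : 0 ≤ μ * (2 * M - (s v i + e)) := mul_nonneg hμ.le (by linarith)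
    have h8 : 0 ≤ μ * M * (1 - μ) := mul_nonneg (mul_nonneg hμ.le hM0.le) (by linarith)
    nlinarith
  linarith

/-- Counting in an interval. -/
theorem ncard_fin_le {L : ℕ} (P : ℕ → Prop) [DecidablePred P] :
    Set.ncard {k : Fin L | P k} ≤ ((Finset.range L).filter P).card := by
  rw [← Set.ncard_image_of_injective _ Fin.val_injective, ← Set.ncard_coe_finset]
  refine Set.ncard_le_ncard ?_ (Finset.finite_toSet _)
  rintro _ ⟨k, hk, rfl⟩
  simp only [Finset.coe_filter, Finset.mem_range]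
  exact ⟨k.2, hk⟩

/-- The isolation lemma on a line. -/
theorem iso_line {V : Type*} (s : V → Fin n → ℝ) (vm : (Fin n → ℝ) → V)
    (hvm : ∀ θ, IsArgmin s θ (vm θ)) (hs : ∀ x i, 0 ≤ s x i) {e Mm μ ε lam κ : ℝ} (he : 0 < e)
    (hMe : ∀ x, e ≤ ∑ i, s x i) (hMm : ∀ x, ∑ i, s x i ≤ Mm) (hμ : 0 < μ) (hμ1 : μ ≤ 1)
    (hε : 0 < ε) (hl : 0 < lam) (hκ : lam / 2 ≤ κ) {L : ℕ} (hL : μ ≤ 8 * ε * L)
    (b : Fin n → ℝ) (i : Fin n) (ω : Fin n → Fin L) :
    ((Set.ncard {k : Fin L | ∃ x,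
        val s (fun j => b j + κ * wt L (Function.update ω i k) j) x ≤
          val s (fun j => b j + κ * wt L (Function.update ω i k) j)
            (vm fun j => b j + κ * wt L (Function.update ω i k) j) +
            ε * lam * ∑ j, s (vm fun j => b j + κ * wt L (Function.update ω i k) j) j ∧
        μ * ∑ j, s (vm fun j => b j + κ * wt L (Function.update ω i k) j) j <
          |s x i - s (vm fun j => b j + κ * wt L (Function.update ω i k) j) i|} : ℕ) : ℝ) ≤
      256 * ε * Real.log (2 * Mm / e) * L / μ ^ 2 := by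
  classical
  have hL0 : (0 : ℝ) < L := by
    by_contra h
    have : (L : ℝ) ≤ 0 := not_lt.1 h
    nlinarith
  have hκ0 : 0 < κ := by linarith
  have hMm0 : e ≤ Mm := (hMe (vm 0)).trans (hMm _)
  set th : ℤ → Fin n → ℝ := fun k =>
    Function.update (fun j => b j + κ * wt L ω j) i (b i + κ * (1 + (k : ℝ) / (2 * L))) with hth
  have hthk : ∀ k : Fin L, (fun j => b j + κ * wt L (Function.update ω i k) j) =
      th ((k : ℕ) : ℤ) := by
    intro k
    funext j
    rcases eq_or_ne j i with rfl | hj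
    · simp [hth, wt]
    · simp [hth, wt, Function.update_of_ne hj]
  have hshift : ∀ (k : ℤ) (q : ℤ), th (k + q) =
      Function.update (th k) i (th k i + q * κ / (2 * L)) := by
    intro k q
    simp only [hth, Function.update_self, Function.update_idem]
    congr 1
    push_cast
    ring
  set ψ : ℤ → ℝ := fun k => Real.log (s (vm (th k)) i + e) with hψdef
  have hpos : ∀ k, 0 < s (vm (th k)) i + e := fun k => by linarith [hs (vm (th k)) i]
  have hψ : Antitone ψ := by
    intro k k' hk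
    rcases hk.eq_or_lt with rfl | hk
    · exact le_refl _
    · refine Real.log_le_log (hpos k') ?_
      have h1 : (b i + κ * (1 + (k : ℝ) / (2 * L))) < (b i + κ * (1 + (k' : ℝ) / (2 * L))) := by
        have : (k : ℝ) < k' := by exact_mod_cast hk
        have h2 : (k : ℝ) / (2 * L) < (k' : ℝ) / (2 * L) := by
          apply div_lt_div_of_pos_right this (by positivity)
        nlinarith
      have h3 := anti_step (s := s) h1 (hvm (th k)) (hvm (th k'))
      linarith
  have hA : ∀ k, Real.log e ≤ ψ k := fun k =>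
    Real.log_le_log he (by linarith [hs (vm (th k)) i])
  have hr : ∀ k, ψ k ≤ Real.log e + Real.log (2 * Mm / e) := by
    intro k
    have hMm1 : 0 < Mm := lt_of_lt_of_le he hMm0
    rw [← Real.log_mul he.ne' (by positivity), mul_div_cancel₀ _ he.ne']
    refine Real.log_le_log (hpos k) ?_
    have h1 : s (vm (th k)) i ≤ ∑ j, s (vm (th k)) j :=
      Finset.single_le_sum (fun j _ => hs _ j) (Finset.mem_univ i)
    linarith [hMm (vm (th k))]
  set q : ℕ := ⌈8 * ε * L / μ⌉₊ with hq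
  have hq1 : 8 * ε * L / μ ≤ q := Nat.le_ceil _
  have hq2 : (q : ℝ) ≤ 16 * ε * L / μ := by
    have h1 : (q : ℝ) < 8 * ε * L / μ + 1 := Nat.ceil_lt_add_one (by positivity)
    have h2 : 1 ≤ 8 * ε * L / μ := by rwa [one_le_div hμ]
    have h3 : 16 * ε * L / μ = 8 * ε * L / μ + 8 * ε * L / μ := by ring
    linarith
  have hq0 : (0 : ℝ) < q := lt_of_lt_of_le (by positivity) hq1
  set ρ : ℝ := q * κ / (2 * L) with hρdef
  have hρ : 0 < ρ := by positivity
  have hδ : 2 * (ε * lam) ≤ ρ * μ := by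
    have h1 : (8 * ε * L / μ) * (lam / 2) ≤ q * κ :=
      mul_le_mul hq1 hκ (by positivity) hq0.le
    have h2 : (8 * ε * L / μ) * (lam / 2) / (2 * L) * μ = 2 * (ε * lam) := by
      field_simp
      ring
    rw [← h2, hρdef]
    gcongr
  have hsub : {k : Fin L | ∃ x,
        val s (fun j => b j + κ * wt L (Function.update ω i k) j) x ≤
          val s (fun j => b j + κ * wt L (Function.update ω i k) j)
            (vm fun j => b j + κ * wt L (Function.update ω i k) j) +
            ε * lam * ∑ j, s (vm fun j => b j + κ * wt L (Function.update ω i k) j) j ∧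
        μ * ∑ j, s (vm fun j => b j + κ * wt L (Function.update ω i k) j) j <
          |s x i - s (vm fun j => b j + κ * wt L (Function.update ω i k) j) i|} ⊆
      {k : Fin L | μ / 8 ≤ ψ ((k : ℕ) : ℤ) - ψ (((k : ℕ) : ℤ) + q)} ∪
        {k : Fin L | μ / 8 ≤ ψ (((k : ℕ) : ℤ) - q) - ψ ((k : ℕ) : ℤ)} := by
    rintro k ⟨x, hx, hlt⟩
    rw [hthk] at hx hlt
    rcases lt_abs.1 hlt with h | h
    · right
      refine drop_left hs he hMe hμ hμ1 hρ hδ (hvm (th ((k : ℕ) : ℤ))) hx (by linarith) ?_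
      have h1 := hshift ((k : ℕ) : ℤ) (-(q : ℤ))
      have h2 : th ((k : ℕ) : ℤ) i + ((-(q : ℤ) : ℤ) : ℝ) * κ / (2 * L) =
          th ((k : ℕ) : ℤ) i - ρ := by
        rw [hρdef]
        push_cast
        ring
      rw [h2, ← sub_eq_add_neg] at h1
      rw [← h1]
      exact hvm _
    · left
      refine drop_right hs he hMe hμ hρ hδ (hvm (th ((k : ℕ) : ℤ))) hx (by linarith) ?_
      have h1 := hshift ((k : ℕ) : ℤ) (q : ℤ)
      have h2 : th ((k : ℕ) : ℤ) i + ((q : ℤ) : ℝ) * κ / (2 * L) =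
          th ((k : ℕ) : ℤ) i + ρ := by
        rw [hρdef]
        push_cast
        ring
      rw [h2] at h1
      rw [← h1]
      exact hvm _
  have hμ8 : 0 ≤ μ / 8 := by positivity
  have c1 := count_drop (L := L) (q := q) hψ hμ8 hA hr
  have c2 := count_drop' (L := L) (q := q) hψ hμ8 hA hr
  have d1 := ncard_fin_le (L := L) fun k : ℕ => μ / 8 ≤ ψ (k : ℤ) - ψ ((k : ℤ) + q)
  have d2 := ncard_fin_le (L := L) fun k : ℕ => μ / 8 ≤ ψ ((k : ℤ) - q) - ψ (k : ℤ)
  have d3 := (Set.ncard_le_ncard hsub (Set.toFinite _)).trans (Set.ncard_union_le _ _)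
  have hr0 : 0 ≤ Real.log (2 * Mm / e) := by linarith [hA 0, hr 0]
  have d4 := d3.trans (add_le_add d1 d2)
  have d5 := (Nat.cast_le (α := ℝ)).2 d4
  push_cast at d5
  refine d5.trans ?_
  rw [le_div_iff₀ (by positivity)]
  set X := (((Finset.range L).filter fun k : ℕ => μ / 8 ≤ ψ k - ψ (k + q)).card : ℝ)
  set Y := (((Finset.range L).filter fun k : ℕ => μ / 8 ≤ ψ (k - q) - ψ k).card : ℝ)
  have e1 : (q : ℝ) * Real.log (2 * Mm / e) ≤ 16 * ε * L / μ * Real.log (2 * Mm / e) :=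
    mul_le_mul_of_nonneg_right hq2 hr0
  have e2 : (X + Y) * (μ / 8) ≤ 2 * (16 * ε * L / μ * Real.log (2 * Mm / e)) := by
    linarith
  have e3 : (X + Y) * μ ^ 2 = (X + Y) * (μ / 8) * (8 * μ) := by ring
  have e4 : 256 * ε * Real.log (2 * Mm / e) * L =
      2 * (16 * ε * L / μ * Real.log (2 * Mm / e)) * (8 * μ) := by
    field_simp
    ring
  rw [e3, e4]
  exact mul_le_mul_of_nonneg_right e2 (by positivity)

/-- The isolation lemma. -/
theorem iso_count {V : Type*} (s : V → Fin n → ℝ) (vm : (Fin n → ℝ) → V)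
    (hvm : ∀ θ, IsArgmin s θ (vm θ)) (hs : ∀ x i, 0 ≤ s x i) {e Mm μ ε lam κ : ℝ} (he : 0 < e)
    (hMe : ∀ x, e ≤ ∑ i, s x i) (hMm : ∀ x, ∑ i, s x i ≤ Mm) (hμ : 0 < μ) (hμ1 : μ ≤ 1)
    (hε : 0 < ε) (hl : 0 < lam) (hκ : lam / 2 ≤ κ) {L : ℕ} (hL : μ ≤ 8 * ε * L)
    (b : Fin n → ℝ) :
    ((Set.ncard {ω : Fin n → Fin L | ∃ x,
        val s (fun i => b i + κ * wt L ω i) x ≤
          val s (fun i => b i + κ * wt L ω i) (vm fun i => b i + κ * wt L ω i) +
            ε * lam * ∑ i, s (vm fun i => b i + κ * wt L ω i) i ∧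
        ∃ l, μ * ∑ i, s (vm fun i => b i + κ * wt L ω i) i <
          |s x l - s (vm fun i => b i + κ * wt L ω i) l|} : ℕ) : ℝ) * μ ^ 2 ≤
      256 * n * ε * Real.log (2 * Mm / e) * (L : ℝ) ^ n := by
  classical
  have hL0 : (0 : ℝ) < L := by
    by_contra h
    have : (L : ℝ) ≤ 0 := not_lt.1 h
    nlinarith
  set p : Fin n → (Fin n → Fin L) → Prop := fun l ω => ∃ x,
        val s (fun i => b i + κ * wt L ω i) x ≤
          val s (fun i => b i + κ * wt L ω i) (vm fun i => b i + κ * wt L ω i) +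
            ε * lam * ∑ i, s (vm fun i => b i + κ * wt L ω i) i ∧
        μ * ∑ i, s (vm fun i => b i + κ * wt L ω i) i <
          |s x l - s (vm fun i => b i + κ * wt L ω i) l| with hp
  have h1 : ∀ l, ((Set.ncard {ω | p l ω} : ℕ) : ℝ) ≤
      256 * ε * Real.log (2 * Mm / e) / μ ^ 2 * (L : ℝ) ^ n := by
    intro l
    have h2 := card_update (p l) l _ fun ω =>
      iso_line s vm hvm hs he hMe hMm hμ hμ1 hε hl hκ hL b l ω
    have h3 : 256 * ε * Real.log (2 * Mm / e) * L / μ ^ 2 * (L : ℝ) ^ n =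
        256 * ε * Real.log (2 * Mm / e) / μ ^ 2 * (L : ℝ) ^ n * L := by ring
    rw [h3] at h2
    exact le_of_mul_le_mul_right h2 hL0
  have hsub : {ω : Fin n → Fin L | ∃ x,
        val s (fun i => b i + κ * wt L ω i) x ≤
          val s (fun i => b i + κ * wt L ω i) (vm fun i => b i + κ * wt L ω i) +
            ε * lam * ∑ i, s (vm fun i => b i + κ * wt L ω i) i ∧
        ∃ l, μ * ∑ i, s (vm fun i => b i + κ * wt L ω i) i <
          |s x l - s (vm fun i => b i + κ * wt L ω i) l|} ⊆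
      ((Finset.univ.biUnion fun l => Finset.univ.filter (p l) : Finset (Fin n → Fin L)) :
        Set (Fin n → Fin L)) := by
    rintro ω ⟨x, hx, l, hl⟩
    simp only [Finset.coe_biUnion, Set.mem_iUnion, Finset.coe_filter]
    exact ⟨l, Finset.mem_univ l, Finset.mem_univ ω, x, hx, hl⟩
  have h2 : Set.ncard {ω : Fin n → Fin L | ∃ x,
        val s (fun i => b i + κ * wt L ω i) x ≤
          val s (fun i => b i + κ * wt L ω i) (vm fun i => b i + κ * wt L ω i) +
            ε * lam * ∑ i, s (vm fun i => b i + κ * wt L ω i) i ∧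
        ∃ l, μ * ∑ i, s (vm fun i => b i + κ * wt L ω i) i <
          |s x l - s (vm fun i => b i + κ * wt L ω i) l|} ≤
      ∑ l, (Finset.univ.filter (p l)).card := by
    refine (Set.ncard_le_ncard hsub (Finset.finite_toSet _)).trans ?_
    rw [Set.ncard_coe_finset]
    exact Finset.card_biUnion_le
  have h3 := (Nat.cast_le (α := ℝ)).2 h2
  push_cast at h3
  have h4 : ∑ l, ((Finset.univ.filter (p l)).card : ℝ) ≤
      ∑ _l : Fin n, 256 * ε * Real.log (2 * Mm / e) / μ ^ 2 * (L : ℝ) ^ n := by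
    refine Finset.sum_le_sum fun l _ => ?_
    refine le_trans (le_of_eq ?_) (h1 l)
    rw [Set.ncard_eq_toFinset_card', Set.toFinset_ofPred]
  rw [Finset.sum_const, Finset.card_univ, Fintype.card_fin, nsmul_eq_mul] at h4
  have h5 := mul_le_mul_of_nonneg_right (h3.trans h4) (by positivity : 0 ≤ μ ^ 2)
  refine h5.trans (le_of_eq ?_)
  field_simp

end Pool.Agent.H.MP_0cad2f_co.qp
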