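import Pool.Agent.H.MP_0cad2f_co.qp.Defs

/-!
The choice of the parameters.
-/

set_option autoImplicit false

namespace Pool.Agent.H.MP_0cad2f_co.qp

/-- Powers of two. -/
theorem pow_le_two_pow {b : ℝ} (hb : 0 ≤ b) {m : ℕ} (hm : b ≤ m) (k d : ℕ) :
    b ^ (k * d) ≤ (2 : ℝ) ^ (k * d * m) := by
  have h1 : (m : ℝ) ≤ (2 : ℝ) ^ m := by exact_mod_cast Nat.lt_two_pow_self.le
  have h2 : b ^ (k * d) ≤ ((2 : ℝ) ^ m) ^ (k * d) :=
    pow_le_pow_left₀ hb (hm.trans h1) _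
  rwa [← pow_mul, mul_comm m (k * d)] at h2

theorem params : ∃ (C : ℝ) (K : ℕ), 0 ≤ C ∧ ∀ (n d : ℕ) (σ : ℝ), 2 ≤ n → 1 ≤ d → d < n → 0 < σ →
    σ ≤ 1 / (6 * Real.sqrt (d * Real.log n)) →
    ∀ e μ Mm : ℝ, e = σ / (24 * (n : ℝ) ^ (3 * d + 2)) → μ = σ / (8 * (n : ℝ) ^ 5) →
    Mm = n * (1 + 2 * (d / e)) →
    ∃ (ν : ℝ) (J J₀ L : ℕ), 0 < ν ∧ μ ≤ 1 ∧ e ≤ Mm ∧
      500000 * n * (J + 1) * ν * Real.log (2 * Mm / e) ≤ μ ^ 2 ∧
      1000000 * (n : ℝ) ^ d * (d : ℝ) ^ 2 * Mm ^ 2 ≤ 2 ^ J * e ^ 2 ∧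
      100 * 2 ^ J * (n : ℝ) ^ d * d ≤ L ∧ μ * 2 ^ J ≤ 72 * ν * L ∧
      2 * n * 2 ≤ e * 2 ^ J₀ ∧
      2 * ((J₀ + 1) * (HH d * (1 + J * (Real.log (18 * Mm / e) / Real.log (1 + ν))))) + 1 ≤
        C * ((n : ℝ) * d / σ) ^ K * (d : ℝ) ^ Nat.log 2 d := by
  refine ⟨10 ^ 20, 32, by positivity, ?_⟩
  intro n d σ hn hd hdn hσ hσ1 e μ Mm he hμ hMm
  have hn' : (2 : ℝ) ≤ n := by exact_mod_cast hn
  have hd' : (1 : ℝ) ≤ d := by exact_mod_cast hd
  have hn0 : (0 : ℝ) < n := by linarith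
  have hd0 : (0 : ℝ) < d := by linarith
  -- `σ ≤ 1`
  have hσ2 : σ ≤ 1 := by
    refine hσ1.trans ?_
    have h1 : (1 : ℝ) / 2 ≤ Real.log n := by
      have h2 : Real.log 2 ≤ Real.log n := Real.log_le_log (by norm_num) hn'
      have h3 := Real.log_two_gt_d9
      linarith
    have h4 : (1 : ℝ) / 2 ≤ Real.sqrt (d * Real.log n) := by
      apply Real.le_sqrt_of_sq_le
      nlinarith
    rw [div_le_one (by positivity)]
    linarith
  set b : ℝ := (n : ℝ) * d / σ with hb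
  have hnb : (n : ℝ) ≤ b := by
    rw [hb, le_div_iff₀ hσ]
    nlinarith
  have hdb : (d : ℝ) ≤ b := by
    rw [hb, le_div_iff₀ hσ]
    nlinarith
  have hσb : 1 / σ ≤ b := by
    rw [hb]
    apply div_le_div_of_nonneg_right _ hσ.le
    nlinarith
  have hb2 : 2 ≤ b := hn'.trans hnb
  have hb0 : 0 < b := by linarith
  have hb1 : 1 ≤ b := by linarith
  have hk : ∀ k : ℕ, (2 : ℝ) ^ k ≤ b ^ k := fun k => pow_le_pow_left₀ (by norm_num) hb2 k
  -- the reciprocal of `e`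
  have he0 : 0 < e := by rw [he]; positivity
  have hE : 1 / e ≤ b ^ (11 * d) := by
    have h1 : 1 / e = 24 * (n : ℝ) ^ (3 * d + 2) * (1 / σ) := by
      rw [he]; field_simp
    have h2 : (n : ℝ) ^ (3 * d + 2) ≤ b ^ (3 * d + 2) := pow_le_pow_left₀ hn0.le hnb _
    have h3 : (24 : ℝ) ≤ b ^ 5 := le_trans (by norm_num) (hk 5)
    calc 1 / e = 24 * (n : ℝ) ^ (3 * d + 2) * (1 / σ) := h1
      _ ≤ b ^ 5 * b ^ (3 * d + 2) * b := by gcongr
      _ = b ^ (3 * d + 8) := by ring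
      _ ≤ b ^ (11 * d) := pow_le_pow_right₀ hb1 (by omega)
  have hE1 : 1 ≤ 1 / e := by
    rw [le_div_iff₀ he0, one_mul, he, div_le_one (by positivity)]
    have h1 : (1 : ℝ) ≤ (n : ℝ) ^ (3 * d + 2) := one_le_pow₀ (by linarith)
    linarith
  have hMm1 : Mm ≤ b ^ (15 * d) := by
    have h1 : (d : ℝ) / e = d * (1 / e) := by ring
    have h2 : 1 ≤ (d : ℝ) * (1 / e) := by nlinarith
    calc Mm = n * (1 + 2 * (d * (1 / e))) := by rw [hMm, h1]
      _ ≤ n * (3 * (d * (1 / e))) := by gcongr; linarith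
      _ ≤ b * (b ^ 2 * (b * b ^ (11 * d))) := by
          gcongr
          exact le_trans (by norm_num) (hk 2)
      _ = b ^ (11 * d + 4) := by ring
      _ ≤ b ^ (15 * d) := pow_le_pow_right₀ hb1 (by omega)
  have hMm0 : 1 ≤ Mm := by
    have h1 : 0 ≤ 2 * ((d : ℝ) / e) := by positivity
    rw [hMm]
    nlinarith
  have heMm : e ≤ Mm := by
    have : e ≤ 1 := by
      rw [le_div_iff₀ he0, one_mul] at hE1
      exact hE1
    linarith
  have hℓ : Real.log (18 * Mm / e) ≤ 31 * b ^ 2 := by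
    have h1 : 18 * Mm / e ≤ b ^ (31 * d) := by
      calc 18 * Mm / e = 18 * Mm * (1 / e) := by ring
        _ ≤ b ^ 5 * b ^ (15 * d) * b ^ (11 * d) := by
            gcongr
            exact le_trans (by norm_num) (hk 5)
        _ = b ^ (26 * d + 5) := by ring
        _ ≤ b ^ (31 * d) := pow_le_pow_right₀ hb1 (by omega)
    have h2 : Real.log (18 * Mm / e) ≤ Real.log (b ^ (31 * d)) :=
      Real.log_le_log (by positivity) h1
    rw [Real.log_pow] at h2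
    have h3 : Real.log b ≤ b := (Real.log_le_sub_one_of_pos hb0).trans (by linarith)
    refine h2.trans ?_
    push_cast
    calc 31 * (d : ℝ) * Real.log b ≤ 31 * b * b := by
          gcongr
          exact Real.log_nonneg hb1
      _ = 31 * b ^ 2 := by ring
  have hℓ0 : 0 ≤ Real.log (18 * Mm / e) := by
    apply Real.log_nonneg
    rw [le_div_iff₀ he0]
    linarith
  have hℓ2 : Real.log (2 * Mm / e) ≤ 31 * b ^ 2 := by
    refine le_trans (Real.log_le_log (by positivity) ?_) hℓ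
    gcongr
    norm_num
  -- the integers
  set m : ℕ := ⌈b⌉₊ with hm
  have hbm : b ≤ m := Nat.le_ceil b
  have hm2 : (m : ℝ) ≤ 2 * b := by
    have := Nat.ceil_lt_add_one hb0.le
    linarith
  set J : ℕ := 75 * d * m with hJ
  set J₀ : ℕ := 14 * d * m with hJ₀
  have hJ1 : (J : ℝ) + 1 ≤ 151 * b ^ 2 := by
    rw [hJ]
    push_cast
    have h1 : (75 : ℝ) * d * m ≤ 75 * b * (2 * b) := by gcongr
    nlinarith
  have hJ₀1 : (J₀ : ℝ) + 1 ≤ 29 * b ^ 2 := by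
    rw [hJ₀]
    push_cast
    have h1 : (14 : ℝ) * d * m ≤ 14 * b * (2 * b) := by gcongr
    nlinarith
  have hμ0 : 0 < μ := by rw [hμ]; positivity
  have hμ1 : μ ≤ 1 := by
    rw [hμ, div_le_one (by positivity)]
    have h1 : (1 : ℝ) ≤ (n : ℝ) ^ 5 := one_le_pow₀ (by linarith)
    linarith
  have hμ2 : 1 / μ ^ 2 ≤ b ^ 18 := by
    have h1 : 1 / μ ^ 2 = 64 * (n : ℝ) ^ 10 * (1 / σ) ^ 2 := by
      rw [hμ]; field_simp; ring
    rw [h1]
    calc 64 * (n : ℝ) ^ 10 * (1 / σ) ^ 2 ≤ b ^ 6 * b ^ 10 * b ^ 2 := by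
          gcongr
          exact le_trans (by norm_num) (hk 6)
      _ = b ^ 18 := by ring
  set ν : ℝ := μ ^ 2 / (500000 * n * (J + 1) * (31 * b ^ 2)) with hν
  have hν0 : 0 < ν := by rw [hν]; positivity
  have hν1 : ν ≤ 1 := by
    rw [hν, div_le_one (by positivity)]
    have h1 : (1 : ℝ) ≤ b ^ 2 := one_le_pow₀ hb1
    have h2 : (0 : ℝ) ≤ J := by positivity
    have h3 : μ ^ 2 ≤ 1 := pow_le_one₀ hμ0.le hμ1
    have h4 : (1 : ℝ) ≤ 500000 * n * (J + 1) := by nlinarith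
    nlinarith
  have hlog : ν / 2 ≤ Real.log (1 + ν) := by
    have h1 := Real.one_sub_inv_le_log_of_pos (show (0 : ℝ) < 1 + ν by linarith)
    have h2 : ν / 2 ≤ 1 - (1 + ν)⁻¹ := by
      rw [← one_div, le_sub_iff_add_le, ← le_sub_iff_add_le', div_le_iff₀ (by linarith)]
      nlinarith
    linarith
  have hlog0 : 0 < Real.log (1 + ν) := by linarith
  have hinv : 1 / Real.log (1 + ν) ≤ 10 ^ 10 * b ^ 23 := by
    have h1 : 1 / Real.log (1 + ν) ≤ 1 / (ν / 2) := one_div_le_one_div_of_le (by linarith) hlog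
    have h2 : 1 / (ν / 2) = 31000000 * n * (J + 1) * b ^ 2 * (1 / μ ^ 2) := by
      rw [hν]; field_simp; ring
    rw [h2] at h1
    refine h1.trans ?_
    calc 31000000 * (n : ℝ) * (J + 1) * b ^ 2 * (1 / μ ^ 2)
        ≤ 31000000 * b * (151 * b ^ 2) * b ^ 2 * b ^ 18 := by gcongr
      _ = 4681000000 * b ^ 23 := by ring
      _ ≤ 10 ^ 10 * b ^ 23 := by
          apply mul_le_mul_of_nonneg_right (by norm_num) (by positivity)
  obtain ⟨L, hL⟩ := exists_nat_ge (100 * 2 ^ J * (n : ℝ) ^ d * d + μ * 2 ^ J / (72 * ν))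
  refine ⟨ν, J, J₀, L, hν0, hμ1, heMm, ?_, ?_, ?_, ?_, ?_, ?_⟩
  · have h1 : 500000 * n * (J + 1) * ν * Real.log (2 * Mm / e) ≤
        500000 * n * (J + 1) * ν * (31 * b ^ 2) := by gcongr
    refine h1.trans (le_of_eq ?_)
    rw [hν]
    field_simp
  · have h1 : b ^ (75 * d) ≤ (2 : ℝ) ^ J := by
      rw [hJ]
      exact pow_le_two_pow hb0.le hbm 75 d
    have h2 : 1000000 * (n : ℝ) ^ d * (d : ℝ) ^ 2 * Mm ^ 2 * (1 / e) ^ 2 ≤ b ^ (75 * d) := by
      calc 1000000 * (n : ℝ) ^ d * (d : ℝ) ^ 2 * Mm ^ 2 * (1 / e) ^ 2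
          ≤ b ^ 20 * b ^ d * b ^ 2 * (b ^ (15 * d)) ^ 2 * (b ^ (11 * d)) ^ 2 := by
            gcongr
            exact le_trans (by norm_num) (hk 20)
        _ = b ^ (53 * d + 22) := by ring
        _ ≤ b ^ (75 * d) := pow_le_pow_right₀ hb1 (by omega)
    have h3 : 1000000 * (n : ℝ) ^ d * (d : ℝ) ^ 2 * Mm ^ 2 =
        1000000 * (n : ℝ) ^ d * (d : ℝ) ^ 2 * Mm ^ 2 * (1 / e) ^ 2 * e ^ 2 := by
      field_simp
    rw [h3]
    apply mul_le_mul_of_nonneg_right (h2.trans h1) (by positivity)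
  · have h1 : 0 ≤ μ * 2 ^ J / (72 * ν) := by positivity
    linarith
  · have h1 : 0 ≤ 100 * 2 ^ J * (n : ℝ) ^ d * d := by positivity
    have h2 : μ * 2 ^ J / (72 * ν) ≤ L := by linarith
    rw [div_le_iff₀ (by positivity)] at h2
    linarith
  · have h1 : b ^ (14 * d) ≤ (2 : ℝ) ^ J₀ := by
      rw [hJ₀]
      exact pow_le_two_pow hb0.le hbm 14 d
    have h2 : 2 * (n : ℝ) * 2 * (1 / e) ≤ b ^ (14 * d) := by
      calc 2 * (n : ℝ) * 2 * (1 / e) = 4 * n * (1 / e) := by ring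
        _ ≤ b ^ 2 * b * b ^ (11 * d) := by
            gcongr
            exact le_trans (by norm_num) (hk 2)
        _ = b ^ (11 * d + 3) := by ring
        _ ≤ b ^ (14 * d) := pow_le_pow_right₀ hb1 (by omega)
    have h3 : 2 * (n : ℝ) * 2 = 2 * (n : ℝ) * 2 * (1 / e) * e := by
      field_simp
    rw [h3, mul_comm e]
    apply mul_le_mul_of_nonneg_right (h2.trans h1) he0.le
  · set D : ℝ := (d : ℝ) ^ Nat.log 2 d with hD
    have hD1 : 1 ≤ D := one_le_pow₀ hd'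
    have hHH : ((HH d : ℕ) : ℝ) ≤ 4 * b ^ 3 * D := by
      unfold HH
      push_cast
      rw [hD]
      gcongr
    have hJ2 : (J : ℝ) ≤ 151 * b ^ 2 := by linarith
    have h1 : (J : ℝ) * (Real.log (18 * Mm / e) / Real.log (1 + ν)) ≤
        151 * b ^ 2 * (31 * b ^ 2 * (10 ^ 10 * b ^ 23)) := by
      rw [div_eq_mul_one_div (Real.log (18 * Mm / e))]
      have h2 : 0 ≤ 1 / Real.log (1 + ν) := by positivity
      gcongr
    have h2 : 1 + (J : ℝ) * (Real.log (18 * Mm / e) / Real.log (1 + ν)) ≤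
        5 * 10 ^ 13 * b ^ 27 := by
      have h3 : (1 : ℝ) ≤ b ^ 27 := one_le_pow₀ hb1
      have h4 : 151 * b ^ 2 * (31 * b ^ 2 * (10 ^ 10 * b ^ 23)) = 46810000000000 * b ^ 27 := by
        ring
      rw [h4] at h1
      linarith
    have h5 : 0 ≤ 1 + (J : ℝ) * (Real.log (18 * Mm / e) / Real.log (1 + ν)) := by positivity
    have h6 : ((J₀ : ℝ) + 1) * (HH d * (1 + J * (Real.log (18 * Mm / e) / Real.log (1 + ν)))) ≤
        29 * b ^ 2 * (4 * b ^ 3 * D * (5 * 10 ^ 13 * b ^ 27)) := by gcongr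
    have h7 : 29 * b ^ 2 * (4 * b ^ 3 * D * (5 * 10 ^ 13 * b ^ 27)) =
        5800000000000000 * (b ^ 32 * D) := by ring
    have h8 : 1 ≤ b ^ 32 * D := one_le_mul_of_one_le_of_one_le (one_le_pow₀ hb1) hD1
    rw [h7] at h6
    rw [mul_assoc]
    linarith

end Pool.Agent.H.MP_0cad2f_co.qp
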