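import Pool.Agent.H.MP_0cad2f_co.qp.Near
import Pool.Agent.H.MP_0cad2f_co.helper94.Block

/-!
The diameter of Gaussian-perturbed polytopes: the constraints are regular with high probability.
-/

set_option autoImplicit false

namespace Pool.Agent.H.MP_0cad2f_co.qp

open MeasureTheory ProbabilityTheory Matrix Finset
open scoped NNReal ENNReal
open Pool.Agent.H.MP_0cad2f_co.helper47 (Vert graph gau noise n2 Idx mat nu vtx Good Simple)

variable {n d : ℕ}

private theorem pr_card_Idx : Fintype.card (Idx n d) ≤ n ^ d := by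
  have h : Function.Injective (fun B : Idx n d => (B : Fin d → Fin n)) := DFunLike.coe_injective
  have h2 := Fintype.card_le_of_injective _ h
  rwa [Fintype.card_fun, Fintype.card_fin, Fintype.card_fin] at h2

/-- A union bound over a finite type. -/
private theorem pr_union {Ω ι : Type*} [MeasurableSpace Ω] [Fintype ι] (P : Measure Ω)
    (S : ι → Set Ω) {N : ℕ} {b : ℝ} (hb : 0 ≤ b) (hN : Fintype.card ι ≤ N)
    (h : ∀ i, P (S i) ≤ ENNReal.ofReal b) : P (⋃ i, S i) ≤ ENNReal.ofReal (N * b) := by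
  refine (measure_iUnion_fintype_le P S).trans ?_
  refine (Finset.sum_le_sum fun i _ => h i).trans ?_
  rw [Finset.sum_const, Finset.card_univ, nsmul_eq_mul, ← ENNReal.ofReal_natCast,
    ← ENNReal.ofReal_mul (by positivity)]
  refine ENNReal.ofReal_le_ofReal (mul_le_mul_of_nonneg_right ?_ hb)
  exact_mod_cast hN

theorem prob_reg (c : Fin n → Fin d → ℝ) {σ : ℝ} (hσ : 0 < σ) (hn : 2 ≤ n) (hd : 1 ≤ d)
    (hdn : d < n) (hσ1 : σ ≤ 1 / (6 * Real.sqrt (d * Real.log n))) (hc : ∀ i, n2 (c i) ≤ 1) :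
    noise c σ {a | ¬ Reg a 2 (σ / (24 * (n : ℝ) ^ (3 * d + 2))) (σ / (8 * (n : ℝ) ^ 5))} ≤
      ENNReal.ofReal (1 / (n : ℝ) ^ d) := by
  obtain ⟨e, he⟩ : ∃ e, e = σ / (24 * (n : ℝ) ^ (3 * d + 2)) := ⟨_, rfl⟩
  obtain ⟨μ, hμ⟩ : ∃ μ, μ = σ / (8 * (n : ℝ) ^ 5) := ⟨_, rfl⟩
  rw [← he, ← hμ]
  have hn0 : (0 : ℝ) < n := by
    have : (2 : ℝ) ≤ n := by exact_mod_cast hn
    linarith
  have hn2 : (2 : ℝ) ≤ n := by exact_mod_cast hn
  have he0 : 0 < e := by rw [he]; positivity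
  have hμ0 : 0 < μ := by rw [hμ]; positivity
  -- the exceptional sets
  let A1 : Set (Fin n → Fin d → ℝ) := {a | ∃ i, 2 < n2 (a i)}
  let A2 : Set (Fin n → Fin d → ℝ) := {a | ¬ ∀ B : Idx n d, (mat a B).det ≠ 0}
  let A3 : Idx n d × Fin d → Set (Fin n → Fin d → ℝ) := fun p =>
    {a | (mat a p.1).det ≠ 0 ∧ 1 / e < n2 (nu a p.1 p.2)}
  let A4 : Idx n d × Fin n → Set (Fin n → Fin d → ℝ) := fun p =>
    {a | p.2 ∉ Set.range p.1 ∧ (∀ i, n2 (a i) ≤ 2) ∧ (mat a p.1).det ≠ 0 ∧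
      |sl a (vtx a p.1) p.2| < e}
  let A5 : Idx n d → Set (Fin n → Fin d → ℝ) := fun B =>
    {a | (∀ i, n2 (a i) ≤ 2) ∧ Good a B ∧
      d ≤ Set.ncard {i | i ∉ Set.range B ∧ sl a (vtx a B) i ≤ μ * tot a (vtx a B)}}
  have hsub : {a | ¬ Reg a 2 e μ} ⊆ A1 ∪ (A2 ∪ ((⋃ p, A3 p) ∪ ((⋃ p, A4 p) ∪ ⋃ B, A5 B))) := by
    intro a ha
    by_contra hcon
    simp only [Set.mem_union, Set.mem_iUnion, not_or, not_exists] at hcon
    obtain ⟨h1, h2, h3, h4, h5⟩ := hcon
    have g1 : ∀ i, n2 (a i) ≤ 2 := fun i => not_lt.1 fun h => h1 ⟨i, h⟩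
    have g2 : ∀ B : Idx n d, (mat a B).det ≠ 0 := not_not.1 h2
    refine ha ⟨g1, g2, fun B k => ?_, fun B i hi => ?_, fun B hB => ?_⟩
    · exact not_lt.1 fun h => h3 (B, k) ⟨g2 B, h⟩
    · exact not_lt.1 fun h => h4 (B, i) ⟨hi, g1, g2 B, h⟩
    · have h6 := not_le.1 fun h => h5 B ⟨g1, hB, h⟩
      omega
  have b1 : noise c σ A1 ≤ ENNReal.ofReal (1 / (8 * (n : ℝ) ^ (2 * d))) :=
    prob_norm c hσ hn hd hσ1 hc
  have b2 : noise c σ A2 = 0 := by
    have hae : ∀ᵐ a ∂(noise c σ), ∀ B : Idx n d, (mat a B).det ≠ 0 := by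
      rw [ae_all_iff]
      exact fun B => helper94.ae_det_ne_zero c hσ B
    exact ae_iff.1 hae
  have b3 : noise c σ (⋃ p, A3 p) ≤ ENNReal.ofReal ((n ^ d * d : ℕ) * (e / σ)) := by
    refine pr_union _ _ (by positivity) ?_ fun p => prob_nu c hσ he0 p.1 p.2
    rw [Fintype.card_prod, Fintype.card_fin]
    exact Nat.mul_le_mul_right _ pr_card_Idx
  have b4 : noise c σ (⋃ p, A4 p) ≤ ENNReal.ofReal ((n ^ d * n : ℕ) * (2 * e / σ)) := by
    refine pr_union _ _ (by positivity) ?_ fun p => ?_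
    · rw [Fintype.card_prod, Fintype.card_fin]
      exact Nat.mul_le_mul_right _ pr_card_Idx
    · by_cases hp : p.2 ∈ Set.range p.1
      · have : A4 p = ∅ := by
          ext a
          simp only [A4, Set.mem_setOf_eq, Set.mem_empty_iff_false, iff_false]
          exact fun h => h.1 hp
        rw [this, measure_empty]
        exact bot_le
      · exact (measure_mono fun a ha => ha.2).trans (prob_sl c hσ he0 hd p.1 hp)
  have b5 : noise c σ (⋃ B, A5 B) ≤
      ENNReal.ofReal ((n ^ d : ℕ) * ((n : ℝ) ^ d * (4 * n * μ / σ) ^ d)) :=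
    pr_union _ _ (by positivity) pr_card_Idx fun B => prob_near c hσ hμ0.le hd B
  refine (measure_mono hsub).trans ?_
  refine (measure_union_le _ _).trans ?_
  refine (add_le_add b1 ((measure_union_le _ _).trans (add_le_add b2.le ((measure_union_le _ _).trans
    (add_le_add b3 ((measure_union_le _ _).trans (add_le_add b4 b5))))))).trans ?_
  rw [zero_add, ← ENNReal.ofReal_add (by positivity) (by positivity),
    ← ENNReal.ofReal_add (by positivity) (by positivity),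
    ← ENNReal.ofReal_add (by positivity) (by positivity)]
  refine ENNReal.ofReal_le_ofReal ?_
  obtain ⟨q, hq⟩ : ∃ q : ℝ, q = (n : ℝ) ^ d := ⟨_, rfl⟩
  have hq1 : 1 ≤ q := by rw [hq]; exact one_le_pow₀ (by linarith)
  have hdn' : (d : ℝ) ≤ n := by exact_mod_cast hdn.le
  -- the five bounds
  have c1 : 1 / (8 * (n : ℝ) ^ (2 * d)) ≤ 1 / 8 * (1 / q) := by
    have h1 : (n : ℝ) ^ (2 * d) = q * q := by rw [hq, ← pow_add]; congr 1; ring
    rw [h1, ← one_div_mul_one_div]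
    refine mul_le_mul_of_nonneg_left ?_ (by norm_num)
    exact one_div_le_one_div_of_le (by linarith) (by nlinarith)
  have hes : e / σ = 1 / (24 * (q * q * q * n ^ 2)) := by
    have h1 : (n : ℝ) ^ (3 * d + 2) = q * q * q * n ^ 2 := by
      rw [hq, pow_add]
      congr 1
      rw [← pow_add, ← pow_add]
      congr 1
      ring
    rw [he, h1]
    field_simp
  have c3 : ((n ^ d * d : ℕ) : ℝ) * (e / σ) ≤ 1 / 24 * (1 / q) := by
    push_cast
    rw [hes, ← hq]
    rw [mul_one_div, div_le_iff₀ (by positivity)]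
    have h1 : 1 / 24 * (1 / q) * (24 * (q * q * q * (n : ℝ) ^ 2)) = q * (q * n ^ 2) := by
      field_simp
    rw [h1]
    refine mul_le_mul_of_nonneg_left ?_ (by linarith)
    nlinarith
  have c4 : ((n ^ d * n : ℕ) : ℝ) * (2 * e / σ) ≤ 1 / 12 * (1 / q) := by
    push_cast
    rw [mul_div_assoc, hes, ← hq]
    have h1 : q * (n : ℝ) * (2 * (1 / (24 * (q * q * q * (n : ℝ) ^ 2)))) =
        1 / 12 * (1 / q) * (1 / (q * n)) := by
      field_simp
      ring
    rw [h1]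
    refine mul_le_of_le_one_right (by positivity) ?_
    rw [div_le_one (by positivity)]
    nlinarith
  have c5 : ((n ^ d : ℕ) : ℝ) * ((n : ℝ) ^ d * (4 * n * μ / σ) ^ d) ≤ 1 / 2 * (1 / q) := by
    push_cast
    have h1 : 4 * n * μ / σ = 1 / 2 * (1 / (n : ℝ) ^ 4) := by
      rw [hμ]
      field_simp
      ring
    rw [h1, mul_pow, ← hq]
    have h2 : ((1 : ℝ) / (n : ℝ) ^ 4) ^ d = 1 / (q * q * q * q) := by
      rw [div_pow, one_pow, ← pow_mul, hq]
      congr 1
      rw [← pow_add, ← pow_add, ← pow_add]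
      congr 1
      ring
    rw [h2]
    have h3 : ((1 : ℝ) / 2) ^ d ≤ 1 / 2 := by
      have := pow_le_pow_of_le_one (by norm_num : (0 : ℝ) ≤ 1 / 2) (by norm_num) hd
      simpa using this
    have h4 : q * (q * ((1 / 2) ^ d * (1 / (q * q * q * q)))) =
        (1 / 2) ^ d * (1 / q) * (1 / q) := by
      field_simp
    rw [h4]
    have h5 : 1 / q ≤ 1 := by rw [div_le_one (by linarith)]; exact hq1
    have h6 : 0 ≤ 1 / q := by positivity
    calc (1 / 2 : ℝ) ^ d * (1 / q) * (1 / q) ≤ 1 / 2 * (1 / q) * 1 := by gcongr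
      _ = 1 / 2 * (1 / q) := by ring
  have hfin : 0 ≤ 1 / q := by positivity
  refine (add_le_add c1 (add_le_add c3 (add_le_add c4 c5))).trans ?_
  rw [← hq]
  linarith

end Pool.Agent.H.MP_0cad2f_co.qp
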