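import Pool.Agent.H.MP_0cad2f_co.qp.Ediam
import Pool.Agent.H.MP_0cad2f_co.qp.Crude
import Pool.Agent.H.MP_0cad2f_co.qp.ProbReg
import Pool.Agent.H.MP_0cad2f_co.qp.Params
import Pool.Agent.H.MP_0cad2f_co.qp.Bounds
import Pool.Agent.H.MP_0cad2f_co.helper94.Block

/-!
The diameter of Gaussian-perturbed polytopes: the main theorem.
-/

set_option autoImplicit false

namespace Pool.Agent.H.MP_0cad2f_co.qp

open MeasureTheory ProbabilityTheory Matrix Finset
open scoped NNReal ENNReal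
open Pool.Agent.H.MP_0cad2f_co.helper47 (Vert graph gau noise n2 Idx mat nu vtx Good Simple)
open Pool.Agent.H.MP_0cad2f_co.helper29 (toVert)

variable {n d : ℕ}

theorem main : ∃ (C : ℝ) (K : ℕ), ∀ n d : ℕ, 2 ≤ n → 1 ≤ d → ∀ σ : ℝ, 0 < σ →
    σ ≤ 1 / (6 * Real.sqrt ((d : ℝ) * Real.log (n : ℝ))) →
    ∀ c : Fin n → Fin d → ℝ, (∀ i, ∑ j, (c i j) ^ 2 ≤ 1) →
      ∫⁻ a, (((graph a).ediam : ℕ∞) : ℝ≥0∞) ∂(noise c σ) ≤
        ENNReal.ofReal (C * ((n : ℝ) * d / σ) ^ K * (d : ℝ) ^ Nat.log 2 d) := by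
  obtain ⟨C, K, hC, hP⟩ := params
  refine ⟨C, K, ?_⟩
  intro n d hn hd σ hσ hσ1 c hc
  rcases Nat.lt_or_ge d n with hdn | hdn
  swap
  · have h0 : ∀ a : Fin n → Fin d → ℝ, (((graph a).ediam : ℕ∞) : ℝ≥0∞) = 0 := by
      intro a
      rw [ediam_small a hdn]
      simp
    simp [h0]
  obtain ⟨ν, J, J₀, L, hν, hμ1, heM, h1, h3, h4, h5, h6, hT⟩ :=
    hP n d σ hn hd hdn hσ hσ1 _ _ _ rfl rfl rfl
  have hn0 : (0 : ℝ) < n := by
    have : 0 < n := by omega
    exact_mod_cast this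
  set e : ℝ := σ / (24 * (n : ℝ) ^ (3 * d + 2)) with he_def
  set μ : ℝ := σ / (8 * (n : ℝ) ^ 5) with hμ_def
  set Mm : ℝ := n * (1 + 2 * (d / e)) with hMm_def
  have he : 0 < e := by positivity
  have hμ : 0 < μ := by positivity
  have hc' : ∀ i, n2 (c i) ≤ 1 := by
    intro i
    rw [n2, Real.sqrt_le_one]
    simpa [dotProduct, pow_two] using hc i
  set T : ℝ := 2 * ((J₀ + 1) * (HH d * (1 + J * (Real.log (18 * Mm / e) / Real.log (1 + ν)))))
    with hT_def
  set bad : Set (Fin n → Fin d → ℝ) := {a | ¬ Reg a 2 e μ} with hbad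
  have hdet : ∀ᵐ a ∂(noise c σ), ∀ B : Idx n d, (mat a B).det ≠ 0 := by
    rw [ae_all_iff]
    intro B
    exact Pool.Agent.H.MP_0cad2f_co.helper94.ae_det_ne_zero c hσ B
  have hle : ∀ᵐ a ∂(noise c σ), (((graph a).ediam : ℕ∞) : ℝ≥0∞) ≤
      ENNReal.ofReal T + bad.indicator (fun _ => ((n ^ d : ℕ) : ℝ≥0∞)) a := by
    filter_upwards [hdet, Pool.Agent.H.MP_0cad2f_co.helper11.TD.ae_simple c hσ] with a ha hs
    by_cases hR : Reg a 2 e μ
    · refine le_trans (ediam_reg hR he (by norm_num) hμ hμ1 hdn hd heM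
        (fun B _ => ?_) hν h1 h3 h4 h5 ?_) le_self_add
      · exact tot_le hR he (by norm_num) B
      · linarith
    · rw [Set.indicator_of_mem (show a ∈ bad from hR)]
      refine le_trans ?_ le_add_self
      exact_mod_cast crude ha hs
  refine (lintegral_mono_ae hle).trans ?_
  rw [lintegral_add_left measurable_const, lintegral_const]
  have hprob : IsProbabilityMeasure (noise c σ) := inferInstance
  rw [measure_univ, mul_one]
  have h7 : ∫⁻ a, bad.indicator (fun _ => ((n ^ d : ℕ) : ℝ≥0∞)) a ∂(noise c σ) ≤ 1 := by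
    refine (lintegral_indicator_const_le _ _).trans ?_
    have h8 := prob_reg c hσ hn hd hdn hσ1 hc'
    calc ((n ^ d : ℕ) : ℝ≥0∞) * noise c σ bad
        ≤ ((n ^ d : ℕ) : ℝ≥0∞) * ENNReal.ofReal (1 / (n : ℝ) ^ d) := by
          gcongr
      _ = 1 := by
          rw [← ENNReal.ofReal_natCast, ← ENNReal.ofReal_mul (by positivity)]
          push_cast
          rw [mul_one_div_cancel (by positivity), ENNReal.ofReal_one]
  refine (add_le_add le_rfl h7).trans ?_
  have hT0 : 0 ≤ T := by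
    rw [hT_def]
    have hMm : 0 < Mm := lt_of_lt_of_le he heM
    have h9 : 0 ≤ Real.log (18 * Mm / e) := by
      apply Real.log_nonneg
      rw [le_div_iff₀ he]
      linarith
    have h10 : 0 ≤ Real.log (1 + ν) := Real.log_nonneg (by linarith)
    positivity
  rw [← ENNReal.ofReal_one, ← ENNReal.ofReal_add hT0 zero_le_one]
  exact ENNReal.ofReal_le_ofReal hT

end Pool.Agent.H.MP_0cad2f_co.qp
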