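import Pool.Agent.H.MP_0cad2f_co.qp.Prob

/-!
With high probability a vertex has fewer than `d` nearly tight other constraints.
-/

set_option autoImplicit false

namespace Pool.Agent.H.MP_0cad2f_co.qp

open MeasureTheory ProbabilityTheory Matrix Finset
open scoped NNReal ENNReal
open Pool.Agent.H.MP_0cad2f_co.helper47 (Vert graph gau noise n2 Idx mat nu vtx Good Simple n2_sq
  n2_nonneg n2_smul n2_add_le n2_sub_le abs_dot_le dot_vtx)

variable {n d : ℕ}

/-- All constraints of `S` are nearly tight at the vertex of `B`. -/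
def NearSet (n d : ℕ) (B : Idx n d) (δ : ℝ) (S : Finset (Fin n)) : Set (Fin n → Fin d → ℝ) :=
  {a | (mat a B).det ≠ 0 ∧ 1 / 2 ≤ n2 (vtx a B) ∧
    ∀ i ∈ S, |1 - a i ⬝ᵥ vtx a B| ≤ δ * n2 (vtx a B)}

theorem near_meas (B : Idx n d) (δ : ℝ) (S : Finset (Fin n)) :
    MeasurableSet (NearSet n d B δ S) := by
  have hv : Measurable fun a : Fin n → Fin d → ℝ => n2 (vtx a B) :=
    helper94.measurable_n2.comp (helper11.TD.measurable_vtx B)
  refine MeasurableSet.inter ?_ (MeasurableSet.inter ?_ ?_)
  · exact (helper11.TD.measurable_det B (measurableSet_singleton 0)).compl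
  · exact measurableSet_le measurable_const hv
  · have h1 : {a : Fin n → Fin d → ℝ | ∀ i ∈ S, |1 - a i ⬝ᵥ vtx a B| ≤ δ * n2 (vtx a B)} =
        ⋂ i ∈ S, {a | |1 - a i ⬝ᵥ vtx a B| ≤ δ * n2 (vtx a B)} := by
      ext a
      simp
    change MeasurableSet {a : Fin n → Fin d → ℝ |
      ∀ i ∈ S, |1 - a i ⬝ᵥ vtx a B| ≤ δ * n2 (vtx a B)}
    rw [h1]
    refine S.measurableSet_biInter fun i _ => ?_
    have h2 : Measurable fun a : Fin n → Fin d → ℝ => |1 - a i ⬝ᵥ vtx a B| := by
      simp only [dotProduct]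
      have h3 : ∀ j, Measurable fun a : Fin n → Fin d → ℝ => vtx a B j := fun j =>
        (measurable_pi_apply j).comp (helper11.TD.measurable_vtx B)
      have h4 : ∀ j, Measurable fun a : Fin n → Fin d → ℝ => a i j := fun j => by fun_prop
      exact measurable_norm.comp
        (measurable_const.sub (Finset.measurable_sum _ fun j _ => (h4 j).mul (h3 j)))
    exact measurableSet_le h2 (measurable_const.mul hv)

theorem near_step (c : Fin n → Fin d → ℝ) {σ δ : ℝ} (hσ : 0 < σ) (hδ : 0 ≤ δ) (B : Idx n d)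
    {S : Finset (Fin n)} {i : Fin n} (hi : i ∉ S) (hiB : i ∉ Set.range B)
    (hS : ∀ j ∈ S, j ∉ Set.range B) :
    noise c σ (NearSet n d B δ (insert i S)) ≤
      ENNReal.ofReal (δ / σ) * noise c σ (NearSet n d B δ S) := by
  have hm := near_meas B δ (insert i S)
  have hmS := near_meas B δ S
  rw [← lintegral_indicator_one hm, helper11.TD.noise_update c σ i (measurable_one.indicator hm),
    ← lintegral_indicator_one hmS, ← lintegral_const_mul _ (measurable_one.indicator hmS)]
  refine lintegral_mono fun a => ?_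
  have hupd : ∀ (x : Fin d → ℝ) (k : Fin d), Function.update a i x (B k) = a (B k) := by
    intro x k
    exact Function.update_of_ne (fun h => hiB ⟨k, h⟩) _ _
  have hmat : ∀ x : Fin d → ℝ, mat (Function.update a i x) B = mat a B := fun x =>
    helper94.mat_congr (hupd x)
  have hvtx : ∀ x : Fin d → ℝ, vtx (Function.update a i x) B = vtx a B := fun x => by
    unfold vtx
    exact Finset.sum_congr rfl fun k _ => helper94.nu_congr (hupd x) k
  rw [show (fun x : Fin d → ℝ => Set.indicator (NearSet n d B δ (insert i S))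
      (1 : (Fin n → Fin d → ℝ) → ℝ≥0∞) (Function.update a i x)) =
      ((fun x => Function.update a i x) ⁻¹' (NearSet n d B δ (insert i S))).indicator 1 from rfl,
    lintegral_indicator_one (hm.preimage (measurable_update a))]
  by_cases ha : a ∈ NearSet n d B δ S
  · rw [Set.indicator_of_mem ha, Pi.one_apply, mul_one]
    have hv : 1 / 2 ≤ n2 (vtx a B) := ha.2.1
    have hv0 : vtx a B ≠ 0 := by
      intro h0
      rw [h0] at hv
      have : n2 (0 : Fin d → ℝ) = 0 := by simp [n2]
      rw [this] at hv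
      norm_num at hv
    have h1 : (fun x => Function.update a i x) ⁻¹' (NearSet n d B δ (insert i S)) ⊆
        {x | |1 - x ⬝ᵥ vtx a B| ≤ δ * n2 (vtx a B)} := by
      intro x hx
      have h2 : |1 - Function.update a i x i ⬝ᵥ vtx (Function.update a i x) B| ≤
          δ * n2 (vtx (Function.update a i x) B) := hx.2.2 i (mem_insert_self i S)
      rw [hvtx x, Function.update_self] at h2
      exact h2
    refine (measure_mono h1).trans ((lin_small (c i) (vtx a B) hσ hv0 1
      (mul_nonneg hδ (n2_nonneg _))).trans (le_of_eq ?_))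
    congr 1
    have : n2 (vtx a B) ≠ 0 := by linarith
    field_simp
  · have h1 : (fun x => Function.update a i x) ⁻¹' (NearSet n d B δ (insert i S)) = ∅ := by
      rw [Set.eq_empty_iff_forall_notMem]
      intro x hx
      apply ha
      refine ⟨?_, ?_, fun j hj => ?_⟩
      · have h2 : (mat (Function.update a i x) B).det ≠ 0 := hx.1
        rwa [hmat x] at h2
      · have h2 : 1 / 2 ≤ n2 (vtx (Function.update a i x) B) := hx.2.1
        rwa [hvtx x] at h2
      · have h2 : |1 - Function.update a i x j ⬝ᵥ vtx (Function.update a i x) B| ≤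
            δ * n2 (vtx (Function.update a i x) B) := hx.2.2 j (mem_insert_of_mem hj)
        have hji : j ≠ i := fun h => hi (h ▸ hj)
        rwa [hvtx x, Function.update_of_ne hji] at h2
    rw [h1, measure_empty]
    exact zero_le

theorem near_prod (c : Fin n → Fin d → ℝ) {σ δ : ℝ} (hσ : 0 < σ) (hδ : 0 ≤ δ) (B : Idx n d)
    (S : Finset (Fin n)) (hS : ∀ j ∈ S, j ∉ Set.range B) :
    noise c σ (NearSet n d B δ S) ≤ ENNReal.ofReal (δ / σ) ^ S.card := by
  induction S using Finset.induction_on with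
  | empty =>
    rw [Finset.card_empty, pow_zero]
    exact prob_le_one
  | insert i S hi ih =>
    have h1 := ih fun j hj => hS j (mem_insert_of_mem hj)
    rw [card_insert_of_notMem hi, pow_succ, mul_comm]
    exact (near_step c hσ hδ B hi (hS i (mem_insert_self i S))
      fun j hj => hS j (mem_insert_of_mem hj)).trans (mul_le_mul' le_rfl h1)

theorem prob_near (c : Fin n → Fin d → ℝ) {σ μ : ℝ} (hσ : 0 < σ) (hμ : 0 ≤ μ) (hd : 1 ≤ d)
    (B : Idx n d) :
    noise c σ {a | (∀ i, n2 (a i) ≤ 2) ∧ Good a B ∧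
        d ≤ Set.ncard {i | i ∉ Set.range B ∧ sl a (vtx a B) i ≤ μ * tot a (vtx a B)}} ≤
      ENNReal.ofReal ((n : ℝ) ^ d * (4 * n * μ / σ) ^ d) := by
  classical
  obtain ⟨δ, hδdef⟩ : ∃ δ : ℝ, δ = 4 * n * μ := ⟨_, rfl⟩
  have hδ : 0 ≤ δ := by rw [hδdef]; positivity
  obtain ⟨I, hI⟩ : ∃ I : Finset (Finset (Fin n)), I = ((univ : Finset (Fin n)).powersetCard d).filter
    (fun S => ∀ j ∈ S, j ∉ Set.range B) := ⟨_, rfl⟩
  have hsub : {a : Fin n → Fin d → ℝ | (∀ i, n2 (a i) ≤ 2) ∧ Good a B ∧
      d ≤ Set.ncard {i | i ∉ Set.range B ∧ sl a (vtx a B) i ≤ μ * tot a (vtx a B)}} ⊆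
      ⋃ S ∈ I, NearSet n d B δ S := by
    rintro a ⟨ha1, ha2, ha3⟩
    obtain ⟨t, ht, htc⟩ := Set.exists_subset_card_eq ha3
    obtain ⟨S, hS⟩ : ∃ S : Finset (Fin n), S = t.toFinite.toFinset := ⟨_, rfl⟩
    have hSt : ∀ i, i ∈ S ↔ i ∈ t := by
      intro i
      rw [hS, Set.Finite.mem_toFinset]
    have hSc : S.card = d := by
      rw [hS, ← Set.ncard_eq_toFinset_card t t.toFinite, htc]
    have hv : 1 / 2 ≤ n2 (vtx a B) := by
      have h1 := dot_vtx ha2.1 ⟨0, hd⟩
      have h2 := abs_dot_le (a (B ⟨0, hd⟩)) (vtx a B)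
      rw [h1, abs_one] at h2
      have h3 := mul_le_mul_of_nonneg_right (ha1 (B ⟨0, hd⟩)) (n2_nonneg (vtx a B))
      linarith
    have htot : tot a (vtx a B) ≤ 4 * n * n2 (vtx a B) := by
      have h1 : ∀ i ∈ (univ : Finset (Fin n)), sl a (vtx a B) i ≤ 4 * n2 (vtx a B) := by
        intro i _
        have h2 := abs_dot_le (a i) (vtx a B)
        have h3 := mul_le_mul_of_nonneg_right (ha1 i) (n2_nonneg (vtx a B))
        have h4 := neg_abs_le (a i ⬝ᵥ vtx a B)
        unfold sl
        linarith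
      have h2 := Finset.sum_le_sum h1
      rw [Finset.sum_const, Finset.card_univ, Fintype.card_fin, nsmul_eq_mul] at h2
      unfold tot
      linarith
    rw [Set.mem_iUnion₂]
    refine ⟨S, ?_, ha2.1, hv, fun i hi => ?_⟩
    · rw [hI, mem_filter, mem_powersetCard]
      exact ⟨⟨subset_univ _, hSc⟩, fun j hj => (ht ((hSt j).1 hj)).1⟩
    · have h1 := (ht ((hSt i).1 hi)).2
      have h2 : 0 ≤ 1 - a i ⬝ᵥ vtx a B := by
        have := ha2.2 i
        linarith
      rw [abs_of_nonneg h2]
      have h3 : μ * tot a (vtx a B) ≤ μ * (4 * n * n2 (vtx a B)) :=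
        mul_le_mul_of_nonneg_left htot hμ
      have h4 : sl a (vtx a B) i ≤ μ * tot a (vtx a B) := h1
      unfold sl at h4
      rw [hδdef]
      linarith
  have hcard : (I.card : ℝ) ≤ (n : ℝ) ^ d := by
    have h1 : I.card ≤ n ^ d := by
      have h2 : I.card ≤ ((univ : Finset (Fin n)).powersetCard d).card := by
        rw [hI]
        exact Finset.card_filter_le _ _
      rw [Finset.card_powersetCard, Finset.card_univ, Fintype.card_fin] at h2
      exact h2.trans (Nat.choose_le_pow n d)
    exact_mod_cast h1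
  refine (measure_mono hsub).trans ((measure_biUnion_finset_le I _).trans ?_)
  have h1 : ∀ S ∈ I, noise c σ (NearSet n d B δ S) ≤ ENNReal.ofReal ((δ / σ) ^ d) := by
    intro S hS
    rw [hI, mem_filter, mem_powersetCard] at hS
    have h2 := near_prod c hσ hδ B S hS.2
    rw [hS.1.2, ← ENNReal.ofReal_pow (div_nonneg hδ hσ.le)] at h2
    exact h2
  refine (Finset.sum_le_sum h1).trans ?_
  rw [Finset.sum_const, nsmul_eq_mul, ← ENNReal.ofReal_natCast,
    ← ENNReal.ofReal_mul (by positivity)]
  apply ENNReal.ofReal_le_ofReal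
  rw [hδdef]
  exact mul_le_mul_of_nonneg_right hcard (by positivity)

end Pool.Agent.H.MP_0cad2f_co.qp
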