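import Pool.Agent.H.MP_0cad2f_co.qp.Count
import Pool.Agent.H.MP_0cad2f_co.qp.IsoCount
import Pool.Agent.H.MP_0cad2f_co.qp.Bounds

/-!
The diameter of Gaussian-perturbed polytopes: most pairs of weights give good segments.
-/

set_option autoImplicit false

namespace Pool.Agent.H.MP_0cad2f_co.qp

open MeasureTheory Matrix Finset
open Pool.Agent.H.MP_0cad2f_co.helper47 (Vert graph gau noise n2 Idx mat nu vtx Good Simple)

variable {n d : ℕ}

private theorem card_Idx_le_pow : Fintype.card (Idx n d) ≤ n ^ d := by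
  refine (Fintype.card_le_of_injective (fun B : Idx n d => (B : Fin d → Fin n))
    DFunLike.coe_injective).trans (le_of_eq ?_)
  simp

/-- Fibrewise counting in a product, first factor. -/
theorem pairs_fst {α β : Type*} [Fintype α] [Fintype β] (p : α → β → Prop) {b : ℝ}
    (h : ∀ y, ((Set.ncard {x | p x y} : ℕ) : ℝ) ≤ b) :
    ((Set.ncard {q : α × β | p q.1 q.2} : ℕ) : ℝ) ≤ b * Fintype.card β := by
  classical
  have h1 : {q : α × β | p q.1 q.2} =
      ⋃ y ∈ (Finset.univ : Finset β), (fun x => (x, y)) '' {x | p x y} := by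
    ext ⟨x, y⟩
    simp
  rw [h1]
  calc ((Set.ncard (⋃ y ∈ (Finset.univ : Finset β), (fun x => (x, y)) '' {x | p x y}) : ℕ) : ℝ)
      ≤ ((∑ y : β, Set.ncard ((fun x : α => (x, y)) '' {x | p x y}) : ℕ) : ℝ) := by
        exact_mod_cast Finset.set_ncard_biUnion_le _ _
    _ ≤ ∑ _y : β, b := by
        push_cast
        refine Finset.sum_le_sum fun y _ => le_trans ?_ (h y)
        exact_mod_cast Set.ncard_image_le (Set.toFinite _)
    _ = b * Fintype.card β := by
        rw [Finset.sum_const, Finset.card_univ, nsmul_eq_mul, mul_comm]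

/-- Fibrewise counting in a product, second factor. -/
theorem pairs_snd {α β : Type*} [Fintype α] [Fintype β] (p : α → β → Prop) {b : ℝ}
    (h : ∀ x, ((Set.ncard {y | p x y} : ℕ) : ℝ) ≤ b) :
    ((Set.ncard {q : α × β | p q.1 q.2} : ℕ) : ℝ) ≤ b * Fintype.card α := by
  have h1 : Set.ncard {q : α × β | p q.1 q.2} = Set.ncard {q : β × α | p q.2 q.1} := by
    refine Set.ncard_congr (fun q _ => q.swap) (fun q hq => hq)
      (fun q r _ _ hqr => Prod.swap_injective hqr) fun q hq => ⟨q.swap, hq, q.swap_swap⟩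
  rw [h1]
  exact pairs_fst (fun y x => p x y) h

/-- A property of the objective which is rare in each block of weights is rare on segments. -/
theorem seg_pairs {L : ℕ} {lam lam' : ℝ} (hl : 0 < lam) (hl' : lam ≤ lam')
    (Q : (Fin n → ℝ) → Prop) {c : ℝ}
    (h : ∀ (b : Fin n → ℝ) (κ : ℝ), lam / 2 ≤ κ →
      ((Set.ncard {ω : Fin n → Fin L | Q fun i => b i + κ * wt L ω i} : ℕ) : ℝ) ≤ c)
    (δ δ' : Fin n → ℝ) {t : ℝ} (h0 : 0 ≤ t) (_h1 : t ≤ 1) :
    ((Set.ncard {p : (Fin n → Fin L) × (Fin n → Fin L) |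
      Q (seg (fun i => δ i + lam * wt L p.1 i) (fun i => δ' i + lam' * wt L p.2 i) t)} : ℕ) : ℝ) ≤
      c * (L : ℝ) ^ n := by
  have hc : ((Fintype.card (Fin n → Fin L) : ℕ) : ℝ) = (L : ℝ) ^ n := by simp
  rw [← hc]
  rcases le_total t (1 / 2) with ht | ht
  · refine pairs_fst (fun ω ω' => Q (seg (fun i => δ i + lam * wt L ω i)
      (fun i => δ' i + lam' * wt L ω' i) t)) fun ω' => ?_
    refine le_trans (le_of_eq ?_) (h (fun i => (1 - t) * δ i + t * (δ' i + lam' * wt L ω' i))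
      ((1 - t) * lam) (by nlinarith))
    refine congrArg (fun S : Set (Fin n → Fin L) => ((S.ncard : ℕ) : ℝ))
      (Set.ext fun ω => iff_of_eq (congrArg Q (funext fun i => ?_)))
    simp only [seg]
    ring
  · refine pairs_snd (fun ω ω' => Q (seg (fun i => δ i + lam * wt L ω i)
      (fun i => δ' i + lam' * wt L ω' i) t)) fun ω => ?_
    refine le_trans (le_of_eq ?_) (h (fun i => t * δ' i + (1 - t) * (δ i + lam * wt L ω i))
      (t * lam') (by nlinarith))
    refine congrArg (fun S : Set (Fin n → Fin L) => ((S.ncard : ℕ) : ℝ))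
      (Set.ext fun ω => iff_of_eq (congrArg Q (funext fun i => ?_)))
    simp only [seg]
    ring

/-- The optimum of an objective is isolated. -/
def IsoAt (a : Fin n → Fin d → ℝ) (μ ε lam : ℝ) (θ : Fin n → ℝ) : Prop :=
  ∀ v x : Idx n d, IsMin a θ v → Good a x →
    obj a θ (vtx a x) ≤ obj a θ (vtx a v) + ε * lam * tot a (vtx a v) →
    ∀ l, |sl a (vtx a x) l - sl a (vtx a v) l| ≤ μ * tot a (vtx a v)

theorem iso_fibre {a : Fin n → Fin d → ℝ} {e Mm μ ε lam κ : ℝ} (he : 0 < e) (heM : e ≤ Mm)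
    (hMe : ∀ B : Idx n d, Good a B → e ≤ tot a (vtx a B))
    (hMm : ∀ B : Idx n d, Good a B → tot a (vtx a B) ≤ Mm) (hμ : 0 < μ) (hμ1 : μ ≤ 1)
    (hε : 0 < ε) (hl : 0 < lam) (hκ : lam / 2 ≤ κ) {L : ℕ} (hL : μ ≤ 8 * ε * L)
    (b : Fin n → ℝ) :
    ((Set.ncard {ω : Fin n → Fin L | ¬ IsoAt a μ ε lam fun i => b i + κ * wt L ω i} : ℕ) : ℝ) ≤
      256 * n * ε * Real.log (2 * Mm / e) / μ ^ 2 * (L : ℝ) ^ n := by
  classical
  have hlog : 0 ≤ Real.log (2 * Mm / e) := by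
    refine Real.log_nonneg ?_
    rw [le_div_iff₀ he]
    linarith
  have hr : 0 ≤ 256 * n * ε * Real.log (2 * Mm / e) / μ ^ 2 * (L : ℝ) ^ n := by positivity
  by_cases hV : Nonempty {B : Idx n d // Good a B}
  swap
  · have h0 : {ω : Fin n → Fin L | ¬ IsoAt a μ ε lam fun i => b i + κ * wt L ω i} = ∅ := by
      ext ω
      simp only [Set.mem_ofPred_eq, Set.mem_empty_iff_false, iff_false, not_not]
      intro v x hv
      exact absurd ⟨⟨v, hv.1⟩⟩ hV
    rw [h0, Set.ncard_empty]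
    simpa using hr
  let s : {B : Idx n d // Good a B} → Fin n → ℝ := fun x i => sl a (vtx a x.1) i
  let bad : (Fin n → ℝ) → {B : Idx n d // Good a B} → {B : Idx n d // Good a B} → Prop :=
    fun θ v x => val s θ x ≤ val s θ v + ε * lam * ∑ i, s v i ∧
      ∃ l, μ * ∑ i, s v i < |s x l - s v l|
  have hex : ∀ θ : Fin n → ℝ, ∃ v, IsArgmin s θ v ∧
      ((∃ v' x, IsArgmin s θ v' ∧ bad θ v' x) → ∃ x, bad θ v x) := by
    intro θ
    by_cases hb : ∃ v' x, IsArgmin s θ v' ∧ bad θ v' x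
    · obtain ⟨v', x, h1, h2⟩ := hb
      exact ⟨v', h1, fun _ => ⟨x, h2⟩⟩
    · obtain ⟨v, hv⟩ := Finite.exists_min (val s θ)
      exact ⟨v, hv, fun h => absurd h hb⟩
  choose vm hvm hbad using hex
  have h1 := iso_count s vm hvm (fun x i => sl_nonneg x.2 i) he (fun x => hMe x.1 x.2)
    (fun x => hMm x.1 x.2) hμ hμ1 hε hl hκ hL b
  have h2 : {ω : Fin n → Fin L | ¬ IsoAt a μ ε lam fun i => b i + κ * wt L ω i} ⊆
      {ω : Fin n → Fin L | ∃ x,
        val s (fun i => b i + κ * wt L ω i) x ≤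
          val s (fun i => b i + κ * wt L ω i) (vm fun i => b i + κ * wt L ω i) +
            ε * lam * ∑ i, s (vm fun i => b i + κ * wt L ω i) i ∧
        ∃ l, μ * ∑ i, s (vm fun i => b i + κ * wt L ω i) i <
          |s x l - s (vm fun i => b i + κ * wt L ω i) l|} := by
    intro ω hω
    simp only [Set.mem_ofPred_eq, IsoAt] at hω
    push Not at hω
    obtain ⟨v, x, hv, hx, h3, l, h4⟩ := hω
    exact hbad _ ⟨⟨v, hv.1⟩, ⟨x, hx⟩, fun y => hv.2 y.1 y.2, h3, l, h4⟩
  have h3 : ((Set.ncard {ω : Fin n → Fin L | ¬ IsoAt a μ ε lam fun i => b i + κ * wt L ω i} : ℕ) :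
      ℝ) ≤ ((Set.ncard {ω : Fin n → Fin L | ∃ x,
        val s (fun i => b i + κ * wt L ω i) x ≤
          val s (fun i => b i + κ * wt L ω i) (vm fun i => b i + κ * wt L ω i) +
            ε * lam * ∑ i, s (vm fun i => b i + κ * wt L ω i) i ∧
        ∃ l, μ * ∑ i, s (vm fun i => b i + κ * wt L ω i) i <
          |s x l - s (vm fun i => b i + κ * wt L ω i) l|} : ℕ) : ℝ) := by
    exact_mod_cast Set.ncard_le_ncard h2 (Set.toFinite _)
  refine h3.trans ?_
  rw [div_mul_eq_mul_div, le_div_iff₀ (by positivity)]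
  exact h1

/-- The number of elements of a finite union, real form. -/
theorem ncard_union_le {ι α : Type*} (t : Finset ι) (S : ι → Set α) {b : ℝ}
    (h : ∀ i ∈ t, ((S i).ncard : ℝ) ≤ b) : ((⋃ i ∈ t, S i).ncard : ℝ) ≤ t.card * b := by
  have h1 : ((⋃ i ∈ t, S i).ncard : ℝ) ≤ ((∑ i ∈ t, (S i).ncard : ℕ) : ℝ) := by
    exact_mod_cast Finset.set_ncard_biUnion_le _ _
  refine h1.trans ?_
  push_cast
  refine (Finset.sum_le_sum h).trans ?_
  rw [Finset.sum_const, nsmul_eq_mul]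

theorem bad_pairs {a : Fin n → Fin d → ℝ} {R e μ : ℝ} (hR : Reg a R e μ) (he : 0 < e)
    (hμ : 0 < μ) (hμ1 : μ ≤ 1) (hn : d < n) (hd : 1 ≤ d) {Mm : ℝ} (heM : e ≤ Mm)
    (hMm : ∀ B : Idx n d, Good a B → tot a (vtx a B) ≤ Mm) {ν lam lam' : ℝ} {J L : ℕ}
    (hν : 0 < ν) (hl : 0 < lam) (hl' : lam ≤ lam')
    (h1 : 500000 * n * (J + 1) * ν * Real.log (2 * Mm / e) ≤ μ ^ 2)
    (h3 : 1000000 * (n : ℝ) ^ d * (d : ℝ) ^ 2 * Mm ^ 2 ≤ 2 ^ J * e ^ 2)
    (h4 : 100 * 2 ^ J * (n : ℝ) ^ d * d ≤ L) (h5 : μ * 2 ^ J ≤ 72 * ν * L)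
    (δ δ' : Fin n → ℝ) :
    8 * Set.ncard {p : (Fin n → Fin L) × (Fin n → Fin L) |
        ¬ GoodSeg a μ ν (10 * lam * Mm / (2 ^ J * e)) lam J (fun i => δ i + lam * wt L p.1 i)
          (fun i => δ' i + lam' * wt L p.2 i)} ≤ (L ^ n) ^ 2 := by
  classical
  have hM0 : 0 < Mm := lt_of_lt_of_le he heM
  have hn1 : (1 : ℝ) ≤ (n : ℝ) ^ d := one_le_pow₀ (by exact_mod_cast (by omega : 1 ≤ n))
  have hd1 : (1 : ℝ) ≤ d := by exact_mod_cast hd
  have hJ1 : (1 : ℝ) ≤ 2 ^ J := one_le_pow₀ (by norm_num)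
  have hL1 : (1 : ℝ) ≤ L := by
    refine le_trans ?_ h4
    have : (1 : ℝ) ≤ 2 ^ J * (n : ℝ) ^ d * d :=
      one_le_mul_of_one_le_of_one_le (one_le_mul_of_one_le_of_one_le hJ1 hn1) hd1
    linarith
  have hL0 : (0 : ℝ) < L := by linarith
  have hLn : 0 < L := by exact_mod_cast hL0
  have hlog : 0 ≤ Real.log (2 * Mm / e) := by
    refine Real.log_nonneg ?_
    rw [le_div_iff₀ he]
    linarith
  set η := 10 * lam * Mm / (2 ^ J * e) with hη
  have hη0 : 0 < η := by positivity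
  set N : ℝ := (L : ℝ) ^ n * (L : ℝ) ^ n with hN
  have hN0 : 0 < N := by positivity
  set th0 : (Fin n → Fin L) × (Fin n → Fin L) → Fin n → ℝ := fun p i => δ i + lam * wt L p.1 i
  set th1 : (Fin n → Fin L) × (Fin n → Fin L) → Fin n → ℝ := fun p i => δ' i + lam' * wt L p.2 i
  -- the three kinds of bad pairs
  set SI : ℕ → ℕ → Set ((Fin n → Fin L) × (Fin n → Fin L)) := fun m k =>
    {p | ¬ IsoAt a μ (9 * ν / 2 ^ m) lam (seg (th0 p) (th1 p) ((k : ℝ) / 2 ^ m))} with hSI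
  set ST : ℕ → Idx n d → Fin d × Fin d → Set ((Fin n → Fin L) × (Fin n → Fin L)) := fun k B q =>
    {p | |mul a B (seg (th0 p) (th1 p) ((k : ℝ) / 2 ^ J)) q.1| ≤ η ∧
      |mul a B (seg (th0 p) (th1 p) ((k : ℝ) / 2 ^ J)) q.2| ≤ η} with hST
  set SN : ℕ → Idx n d → Fin d → Set ((Fin n → Fin L) × (Fin n → Fin L)) := fun k B i =>
    {p | mul a B (seg (th0 p) (th1 p) ((k : ℝ) / 2 ^ J)) i = 0} with hSN
  set UI := ⋃ m ∈ Finset.range (J + 1), ⋃ k ∈ Finset.range (2 ^ m + 1), SI m k with hUI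
  set UT := ⋃ k ∈ Finset.range (2 ^ J + 1), ⋃ B ∈ (Finset.univ : Finset (Idx n d)),
    ⋃ q ∈ (Finset.univ : Finset (Fin d × Fin d)).filter fun q => q.1 ≠ q.2, ST k B q with hUT
  set UN := ⋃ k ∈ Finset.range (2 ^ J + 1), ⋃ B ∈ (Finset.univ : Finset (Idx n d)),
    ⋃ i ∈ (Finset.univ : Finset (Fin d)), SN k B i with hUN
  have hsub : {p : (Fin n → Fin L) × (Fin n → Fin L) |
      ¬ GoodSeg a μ ν η lam J (th0 p) (th1 p)} ⊆ UI ∪ (UT ∪ UN) := by
    intro p hp
    by_contra hcon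
    simp only [Set.mem_union, not_or] at hcon
    obtain ⟨c1, c2, c3⟩ := hcon
    refine hp ⟨?_, ?_, ?_⟩
    · intro m hm k hk v x hv hx hle
      by_contra hl
      refine c1 (Set.mem_iUnion₂.2 ⟨m, Finset.mem_range.2 (by omega),
        Set.mem_iUnion₂.2 ⟨k, Finset.mem_range.2 (by omega), ?_⟩⟩)
      intro hI
      exact hl (hI v x hv hx hle)
    · intro k hk B i j hij
      by_contra hl
      push Not at hl
      refine c2 (Set.mem_iUnion₂.2 ⟨k, Finset.mem_range.2 (by omega),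
        Set.mem_iUnion₂.2 ⟨B, Finset.mem_univ _, Set.mem_iUnion₂.2 ⟨(i, j), ?_, hl⟩⟩⟩)
      exact Finset.mem_filter.2 ⟨Finset.mem_univ _, hij⟩
    · intro k hk B i h0
      exact c3 (Set.mem_iUnion₂.2 ⟨k, Finset.mem_range.2 (by omega),
        Set.mem_iUnion₂.2 ⟨B, Finset.mem_univ _, Set.mem_iUnion₂.2 ⟨i, Finset.mem_univ _, h0⟩⟩⟩)
  have ht : ∀ m k : ℕ, k ∈ Finset.range (2 ^ m + 1) →
      0 ≤ (k : ℝ) / 2 ^ m ∧ (k : ℝ) / 2 ^ m ≤ 1 := by
    intro m k hk
    refine ⟨by positivity, ?_⟩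
    rw [div_le_one (by positivity)]
    have : k ≤ 2 ^ m := by
      have := Finset.mem_range.1 hk
      omega
    exact_mod_cast this
  have hpow : ∀ m : ℕ, ((2 ^ m + 1 : ℕ) : ℝ) ≤ 2 * 2 ^ m := by
    intro m
    have : (1 : ℝ) ≤ 2 ^ m := one_le_pow₀ (by norm_num)
    push_cast
    linarith
  -- isolation
  have bI : (UI.ncard : ℝ) ≤ 1 / 100 * N := by
    have h6 : ∀ m ∈ Finset.range (J + 1),
        ((⋃ k ∈ Finset.range (2 ^ m + 1), SI m k).ncard : ℝ) ≤
          4608 * n * ν * Real.log (2 * Mm / e) / μ ^ 2 * N := by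
      intro m hm
      have hm' : m ≤ J := by
        have := Finset.mem_range.1 hm
        omega
      have h2m : (0 : ℝ) < 2 ^ m := by positivity
      have h7 : ∀ k ∈ Finset.range (2 ^ m + 1), ((SI m k).ncard : ℝ) ≤
          256 * n * (9 * ν / 2 ^ m) * Real.log (2 * Mm / e) / μ ^ 2 * (L : ℝ) ^ n *
            (L : ℝ) ^ n := by
        intro k hk
        refine seg_pairs hl hl' (fun θ => ¬ IsoAt a μ (9 * ν / 2 ^ m) lam θ)
          (fun b κ hκ => ?_) δ δ' (ht m k hk).1 (ht m k hk).2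
        refine iso_fibre he heM (fun B hB => tot_ge hR he hn hB) hMm hμ hμ1 (by positivity) hl hκ
          ?_ b
        have h8 : (2 : ℝ) ^ m ≤ 2 ^ J := pow_le_pow_right₀ (by norm_num) hm'
        have h9 : μ * 2 ^ m ≤ 72 * ν * L := (mul_le_mul_of_nonneg_left h8 hμ.le).trans h5
        have h10 : 8 * (9 * ν / 2 ^ m) * L = 72 * ν * L / 2 ^ m := by ring
        rw [h10, le_div_iff₀ h2m]
        exact h9
      refine (ncard_union_le _ _ h7).trans ?_
      rw [Finset.card_range]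
      refine (mul_le_mul_of_nonneg_right (hpow m) (by positivity)).trans (le_of_eq ?_)
      rw [hN]
      field_simp
      ring
    refine (ncard_union_le _ _ h6).trans ?_
    rw [Finset.card_range]
    have h7 : ((J + 1 : ℕ) : ℝ) * (4608 * n * ν * Real.log (2 * Mm / e) / μ ^ 2 * N) =
        4608 * (n * (J + 1) * ν * Real.log (2 * Mm / e)) / μ ^ 2 * N := by
      push_cast
      ring
    rw [h7]
    refine mul_le_mul_of_nonneg_right ?_ hN0.le
    rw [div_le_iff₀ (by positivity)]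
    nlinarith [sq_nonneg μ]
  -- two small multipliers
  have hcard : ((Finset.univ : Finset (Idx n d)).card : ℝ) ≤ (n : ℝ) ^ d := by
    rw [Finset.card_univ]
    exact_mod_cast card_Idx_le_pow
  have bT : (UT.ncard : ℝ) ≤ 14 / 1000 * N := by
    set X := Mm / (2 ^ J * e) with hX
    have hX0 : 0 < X := by positivity
    have h6 : ∀ k ∈ Finset.range (2 ^ J + 1), ∀ B ∈ (Finset.univ : Finset (Idx n d)),
        ∀ q ∈ (Finset.univ : Finset (Fin d × Fin d)).filter fun q => q.1 ≠ q.2,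
        ((ST k B q).ncard : ℝ) ≤ (81 * X) ^ 2 * N := by
      intro k hk B _ q hq
      have hq' := (Finset.mem_filter.1 hq).2
      have h7 : ((ST k B q).ncard : ℝ) ≤ (8 * η * L / lam + 1) ^ 2 / (L : ℝ) ^ 2 * (L : ℝ) ^ n *
          (L : ℝ) ^ n := by
        refine seg_pairs hl hl' (fun θ => |mul a B θ q.1| ≤ η ∧ |mul a B θ q.2| ≤ η)
          (fun b κ hκ => ?_) δ δ' (ht J k hk).1 (ht J k hk).2
        rw [div_mul_eq_mul_div, le_div_iff₀ (by positivity)]
        exact two_count (hR.det_ne B) hq' hl hκ hη0.le hLn b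
      refine h7.trans ?_
      rw [hN, ← mul_assoc]
      refine mul_le_mul_of_nonneg_right (mul_le_mul_of_nonneg_right ?_ (by positivity))
        (by positivity)
      rw [← div_pow]
      refine pow_le_pow_left₀ (by positivity) ?_ 2
      rw [div_le_iff₀ hL0]
      have h8 : 8 * η * L / lam = 80 * X * L := by
        rw [hη, hX]
        field_simp
        ring
      rw [h8]
      have h9 : 1 ≤ X * L := by
        have h10 : 2 ^ J ≤ (L : ℝ) := by
          refine le_trans ?_ h4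
          have : (1 : ℝ) ≤ (n : ℝ) ^ d * d := one_le_mul_of_one_le_of_one_le hn1 hd1
          nlinarith
        have h11 : 1 ≤ Mm / e := by
          rw [le_div_iff₀ he]
          linarith
        calc (1 : ℝ) ≤ Mm / e * ((L : ℝ) / 2 ^ J) :=
              one_le_mul_of_one_le_of_one_le h11 ((one_le_div (by positivity)).2 h10)
          _ = X * L := by
              rw [hX]
              field_simp
      linarith
    have hcq : (((Finset.univ : Finset (Fin d × Fin d)).filter fun q => q.1 ≠ q.2).card : ℝ) ≤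
        (d : ℝ) ^ 2 := by
      have h7 := Finset.card_filter_le (Finset.univ : Finset (Fin d × Fin d))
        fun q => q.1 ≠ q.2
      rw [Finset.card_univ, Fintype.card_prod, Fintype.card_fin] at h7
      rw [sq]
      exact_mod_cast h7
    have h7 : ∀ k ∈ Finset.range (2 ^ J + 1), ∀ B ∈ (Finset.univ : Finset (Idx n d)),
        ((⋃ q ∈ (Finset.univ : Finset (Fin d × Fin d)).filter fun q => q.1 ≠ q.2,
          ST k B q).ncard : ℝ) ≤ (d : ℝ) ^ 2 * ((81 * X) ^ 2 * N) := fun k hk B hB =>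
      (ncard_union_le _ _ (h6 k hk B hB)).trans
        (mul_le_mul_of_nonneg_right hcq (by positivity))
    have h8 : ∀ k ∈ Finset.range (2 ^ J + 1),
        ((⋃ B ∈ (Finset.univ : Finset (Idx n d)),
          ⋃ q ∈ (Finset.univ : Finset (Fin d × Fin d)).filter fun q => q.1 ≠ q.2,
          ST k B q).ncard : ℝ) ≤ (n : ℝ) ^ d * ((d : ℝ) ^ 2 * ((81 * X) ^ 2 * N)) := fun k hk =>
      (ncard_union_le _ _ (h7 k hk)).trans (mul_le_mul_of_nonneg_right hcard (by positivity))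
    refine (ncard_union_le _ _ h8).trans ?_
    rw [Finset.card_range]
    refine (mul_le_mul_of_nonneg_right (hpow J) (by positivity)).trans ?_
    have h9 : 2 * 2 ^ J * ((n : ℝ) ^ d * ((d : ℝ) ^ 2 * ((81 * X) ^ 2 * N))) =
        13122 * ((n : ℝ) ^ d * (d : ℝ) ^ 2 * Mm ^ 2 / (2 ^ J * e ^ 2)) * N := by
      rw [hX]
      field_simp
      ring
    rw [h9]
    refine mul_le_mul_of_nonneg_right ?_ hN0.le
    have h10 : (n : ℝ) ^ d * (d : ℝ) ^ 2 * Mm ^ 2 / (2 ^ J * e ^ 2) ≤ 1 / 1000000 := by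
      rw [div_le_iff₀ (by positivity)]
      linarith
    linarith
  -- degenerate objectives
  have bN : (UN.ncard : ℝ) ≤ 2 / 100 * N := by
    have h6 : ∀ k ∈ Finset.range (2 ^ J + 1), ∀ B ∈ (Finset.univ : Finset (Idx n d)),
        ∀ i ∈ (Finset.univ : Finset (Fin d)), ((SN k B i).ncard : ℝ) ≤ 1 / L * N := by
      intro k hk B _ i _
      have h7 : ((SN k B i).ncard : ℝ) ≤ 1 / L * (L : ℝ) ^ n * (L : ℝ) ^ n := by
        refine seg_pairs hl hl' (fun θ => mul a B θ i = 0)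
          (fun b κ hκ => ?_) δ δ' (ht J k hk).1 (ht J k hk).2
        rw [div_mul_eq_mul_div, one_mul, le_div_iff₀ hL0]
        exact nd_count (hR.det_ne B) i (by linarith) b
      refine h7.trans (le_of_eq ?_)
      rw [hN]
      ring
    have h7 : ∀ k ∈ Finset.range (2 ^ J + 1), ∀ B ∈ (Finset.univ : Finset (Idx n d)),
        ((⋃ i ∈ (Finset.univ : Finset (Fin d)), SN k B i).ncard : ℝ) ≤
          d * (1 / L * N) := by
      intro k hk B hB
      have h8 := ncard_union_le _ _ (h6 k hk B hB)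
      rwa [Finset.card_univ, Fintype.card_fin] at h8
    have h8 : ∀ k ∈ Finset.range (2 ^ J + 1),
        ((⋃ B ∈ (Finset.univ : Finset (Idx n d)), ⋃ i ∈ (Finset.univ : Finset (Fin d)),
          SN k B i).ncard : ℝ) ≤ (n : ℝ) ^ d * (d * (1 / L * N)) := fun k hk =>
      (ncard_union_le _ _ (h7 k hk)).trans (mul_le_mul_of_nonneg_right hcard (by positivity))
    refine (ncard_union_le _ _ h8).trans ?_
    rw [Finset.card_range]
    refine (mul_le_mul_of_nonneg_right (hpow J) (by positivity)).trans ?_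
    have h9 : 2 * 2 ^ J * ((n : ℝ) ^ d * (d * (1 / L * N))) =
        2 * (2 ^ J * (n : ℝ) ^ d * d / L) * N := by
      field_simp
    rw [h9]
    refine mul_le_mul_of_nonneg_right ?_ hN0.le
    have h10 : 2 ^ J * (n : ℝ) ^ d * d / L ≤ 1 / 100 := by
      rw [div_le_iff₀ hL0]
      linarith
    linarith
  have hfin : ((Set.ncard {p : (Fin n → Fin L) × (Fin n → Fin L) |
      ¬ GoodSeg a μ ν η lam J (th0 p) (th1 p)} : ℕ) : ℝ) ≤ 1 / 8 * N := by
    have h6 : ((Set.ncard {p : (Fin n → Fin L) × (Fin n → Fin L) |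
        ¬ GoodSeg a μ ν η lam J (th0 p) (th1 p)} : ℕ) : ℝ) ≤
        ((UI ∪ (UT ∪ UN)).ncard : ℝ) := by
      exact_mod_cast Set.ncard_le_ncard hsub (Set.toFinite _)
    have h7 : ((UI ∪ (UT ∪ UN)).ncard : ℝ) ≤ UI.ncard + (UT.ncard + UN.ncard) := by
      have h8 := Set.ncard_union_le UI (UT ∪ UN)
      have h9 := Set.ncard_union_le UT UN
      have h10 : (UI ∪ (UT ∪ UN)).ncard ≤ UI.ncard + (UT.ncard + UN.ncard) := by omega
      exact_mod_cast h10
    linarith
  have h6 : (8 : ℝ) * ((Set.ncard {p : (Fin n → Fin L) × (Fin n → Fin L) |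
      ¬ GoodSeg a μ ν η lam J (th0 p) (th1 p)} : ℕ) : ℝ) ≤ ((L : ℝ) ^ n) ^ 2 := by
    rw [sq, ← hN]
    linarith
  exact_mod_cast h6

end Pool.Agent.H.MP_0cad2f_co.qp
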