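import Pool.Agent.H.MP_0cad2f_co.qp.LP

/-!
The diameter of Gaussian-perturbed polytopes: the ratio test.
-/

set_option autoImplicit false

namespace Pool.Agent.H.MP_0cad2f_co.qp

open MeasureTheory Matrix Finset
open Pool.Agent.H.MP_0cad2f_co.helper47 (Vert graph gau noise n2 Idx mat nu vtx Good Simple)

variable {n d : ℕ}

private theorem pivot_mem {B : Idx n d} {i : Fin n} : i ∈ idx B ↔ ∃ k, B k = i := by
  simp [idx]

private theorem pivot_card (B : Idx n d) : (idx B).card = d := by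
  simp [idx]

private theorem pivot_basis (T : Finset (Fin n)) (hT : T.card = d) : ∃ B : Idx n d, idx B = T := by
  refine ⟨T.orderEmbOfFin hT, ?_⟩
  ext i
  rw [pivot_mem]
  have h1 := Set.ext_iff.1 (Finset.range_orderEmbOfFin T hT) i
  rw [Set.mem_range, Finset.mem_coe] at h1
  exact h1

/-- The ratio test. -/
theorem pivot {a : Fin n → Fin d → ℝ} (hdet : ∀ B : Idx n d, (mat a B).det ≠ 0)
    (hs : Simple a) {θ : Fin n → ℝ} (hθ : ∀ i, 0 ≤ θ i) {B : Idx n d} (hB : Good a B)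
    {k : Fin d} (hk : mul a B θ k < 0) :
    ∃ B' : Idx n d, Good a B' ∧ (idx B).erase (B k) ⊆ idx B' ∧
      obj a θ (vtx a B') < obj a θ (vtx a B) := by
  classical
  obtain ⟨x, hx⟩ : ∃ x : ℝ → Fin d → ℝ, ∀ τ, x τ = vtx a B - τ • nu a B k :=
    ⟨fun τ => vtx a B - τ • nu a B k, fun _ => rfl⟩
  have hsl : ∀ τ i, sl a (x τ) i = sl a (vtx a B) i + τ * (a i ⬝ᵥ nu a B k) := by
    intro τ i
    rw [sl, sl, hx, dotProduct_sub, dotProduct_smul, smul_eq_mul]
    ring
  have hslk : ∀ τ, sl a (x τ) (B k) = τ := by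
    intro τ
    rw [hsl, sl_basis (hdet B), helper47.dot_nu_self (hdet B)]
    ring
  have hsll : ∀ τ l, l ≠ k → sl a (x τ) (B l) = 0 := by
    intro τ l hl
    rw [hsl, sl_basis (hdet B), helper47.dot_nu_ne (hdet B) hl]
    ring
  have hobj : ∀ τ, obj a θ (x τ) = obj a θ (vtx a B) + mul a B θ k * τ := by
    intro τ
    rw [obj_eq (hdet B) θ (x τ), Finset.sum_eq_single k]
    · rw [hslk]
    · intro l _ hl
      rw [hsll τ l hl, mul_zero]
    · intro h
      exact (h (Finset.mem_univ k)).elim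
  -- some constraint becomes violated
  obtain ⟨i0, hi0⟩ : ∃ i, a i ⬝ᵥ nu a B k < 0 := by
    by_contra hcon
    push Not at hcon
    have h0 : 0 ≤ obj a θ (vtx a B) :=
      Finset.sum_nonneg fun i _ => mul_nonneg (hθ i) (sl_nonneg hB i)
    obtain ⟨τ, hτ⟩ : ∃ τ : ℝ, τ = (obj a θ (vtx a B) + 1) / (-mul a B θ k) := ⟨_, rfl⟩
    have hτ0 : 0 ≤ τ := by
      rw [hτ]
      exact div_nonneg (by linarith) (by linarith)
    have h1 : 0 ≤ obj a θ (x τ) := by
      refine Finset.sum_nonneg fun i _ => mul_nonneg (hθ i) ?_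
      rw [hsl]
      exact add_nonneg (sl_nonneg hB i) (mul_nonneg hτ0 (hcon i))
    have h2 : mul a B θ k * τ = -(obj a θ (vtx a B) + 1) := by
      rw [hτ]
      have h3 : mul a B θ k ≠ 0 := hk.ne
      field_simp
    rw [hobj, h2] at h1
    linarith
  -- the ratio test
  obtain ⟨i2, hi2, hmin⟩ := (Finset.univ.filter fun i => a i ⬝ᵥ nu a B k < 0).exists_min_image
    (fun i => sl a (vtx a B) i / (-(a i ⬝ᵥ nu a B k)))
    ⟨i0, Finset.mem_filter.2 ⟨Finset.mem_univ _, hi0⟩⟩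
  have hi2' : a i2 ⬝ᵥ nu a B k < 0 := (Finset.mem_filter.1 hi2).2
  have hnB : ∀ l, B l ≠ i2 := by
    intro l hl
    rw [← hl, helper47.dot_nu (hdet B)] at hi2'
    split_ifs at hi2'
    · linarith
    · linarith
  have hpos : 0 < sl a (vtx a B) i2 := by
    refine lt_of_le_of_ne (sl_nonneg hB i2) fun h => ?_
    refine hs B hB i2 ?_ ?_
    · rintro ⟨l, hl⟩
      exact hnB l hl
    · rw [sl] at h
      linarith
  obtain ⟨τ, hτ⟩ : ∃ τ : ℝ, τ = sl a (vtx a B) i2 / (-(a i2 ⬝ᵥ nu a B k)) := ⟨_, rfl⟩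
  have hτ0 : 0 < τ := by
    rw [hτ]
    exact div_pos hpos (by linarith)
  have hfeas : ∀ i, 0 ≤ sl a (x τ) i := by
    intro i
    rw [hsl]
    by_cases h : a i ⬝ᵥ nu a B k < 0
    · have h1 := hmin i (Finset.mem_filter.2 ⟨Finset.mem_univ _, h⟩)
      rw [← hτ, le_div_iff₀ (by linarith)] at h1
      linarith
    · exact add_nonneg (sl_nonneg hB i) (mul_nonneg hτ0.le (not_lt.1 h))
  have hti2 : sl a (x τ) i2 = 0 := by
    rw [hsl, hτ]
    have h3 : -(a i2 ⬝ᵥ nu a B k) ≠ 0 := by linarith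
    have h4 : a i2 ⬝ᵥ nu a B k ≠ 0 := by linarith
    field_simp
    ring
  have hcard : (insert i2 ((idx B).erase (B k))).card = d := by
    have h1 : i2 ∉ (idx B).erase (B k) := by
      intro h
      obtain ⟨l, hl⟩ := pivot_mem.1 (Finset.mem_of_mem_erase h)
      exact hnB l hl
    rw [Finset.card_insert_of_notMem h1, Finset.card_erase_of_mem (pivot_mem.2 ⟨k, rfl⟩),
      pivot_card]
    have : 0 < d := Fin.pos k
    omega
  obtain ⟨B', hB'⟩ := pivot_basis (insert i2 ((idx B).erase (B k))) hcard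
  have hv : x τ = vtx a B' := by
    refine helper47.eq_vtx (hdet B') fun l => ?_
    have h1 : B' l ∈ insert i2 ((idx B).erase (B k)) := by
      rw [← hB']
      exact pivot_mem.2 ⟨l, rfl⟩
    have h2 : sl a (x τ) (B' l) = 0 := by
      rcases Finset.mem_insert.1 h1 with h | h
      · rw [h]
        exact hti2
      · obtain ⟨h3, h4⟩ := Finset.mem_erase.1 h
        obtain ⟨m, hm⟩ := pivot_mem.1 h4
        rw [← hm]
        refine hsll τ m fun h5 => h3 ?_
        rw [← hm, h5]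
    rw [sl] at h2
    linarith
  refine ⟨B', ⟨hdet B', fun i => ?_⟩, ?_, ?_⟩
  · have h1 := hfeas i
    rw [sl, hv] at h1
    linarith
  · rw [hB']
    exact Finset.subset_insert _ _
  · rw [← hv, hobj]
    have := mul_neg_of_neg_of_pos hk hτ0
    linarith

end Pool.Agent.H.MP_0cad2f_co.qp
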